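import Pool.Agent.Lib.MP_efa40c_ag.HN.Gen

/-!
From polynomials of bounded degree in `n` variables to forms in `n + 1` variables.
-/

set_option autoImplicit false

namespace Pool.Agent.Lib.MP_efa40c_ag.HN

open MvPolynomial Finset

/-- The forms of degree `d` which vanish to order `m i` at `p i`. -/
noncomputable def sys (n d : ℕ) {s : ℕ} (m : Fin s → ℕ) (p : Fin s → Fin (n + 1) → ℂ) :
    Submodule ℂ (MvPolynomial (Fin (n + 1)) ℂ) :=
  homogeneousSubmodule (Fin (n + 1)) ℂ d ⊓
    ⨅ i, ((RingHom.ker (eval (p i))) ^ (m i)).restrictScalars ℂ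

variable {n d s : ℕ}

lemma proj_clear (E : MvPolynomial (Fin s × Fin n) ℂ) :
    ∃ (N : ℕ) (E' : MvPolynomial (Fin s × Fin (n + 1)) ℂ),
      ∀ p : Fin s → Fin (n + 1) → ℂ, (∀ i, p i 0 ≠ 0) →
        eval (fun x : Fin s × Fin (n + 1) => p x.1 x.2) E' =
          (∏ i, p i 0) ^ N * eval (fun x : Fin s × Fin n => p x.1 x.2.succ / p x.1 0) E := by
  induction E using MvPolynomial.induction_on with
  | C a => exact ⟨0, C a, fun p _ => by simp⟩
  | add E1 E2 h1 h2 =>
    obtain ⟨N1, F1, h1⟩ := h1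
    obtain ⟨N2, F2, h2⟩ := h2
    refine ⟨N1 + N2, F1 * (∏ i, X (i, 0)) ^ N2 + F2 * (∏ i, X (i, 0)) ^ N1, fun p hp => ?_⟩
    simp only [map_add, map_mul, map_pow, map_prod, eval_X, h1 p hp, h2 p hp]
    ring
  | mul_X E x h =>
    obtain ⟨N, F, h⟩ := h
    refine ⟨N + 1, F * X (x.1, x.2.succ) * ∏ i ∈ univ.erase x.1, X (i, 0), fun p hp => ?_⟩
    simp only [map_mul, map_prod, eval_X, h p hp]
    rw [pow_succ, ← Finset.mul_prod_erase univ (fun i => p i 0) (mem_univ x.1)]
    have := hp x.1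
    field_simp

theorem gen_proj {P : (Fin s → Fin n → ℂ) → Prop} (h : Gen P) :
    Gen fun p : Fin s → Fin (n + 1) → ℂ =>
      (∀ i, p i 0 ≠ 0) ∧ P fun i j => p i j.succ / p i 0 := by
  obtain ⟨E, hE, H⟩ := h
  obtain ⟨N, E', hE'⟩ := proj_clear E
  refine ⟨E' * ∏ i, X (i, 0), fun h0 => hE ?_, fun p hp => ?_⟩
  · refine MvPolynomial.funext fun a => ?_
    have h1 := hE' (fun i => Fin.cons 1 fun j => a (i, j)) (fun i => by simp)
    have h2 := congrArg (eval fun x : Fin s × Fin (n + 1) =>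
      (Fin.cons 1 (fun j => a (x.1, j)) : Fin (n + 1) → ℂ) x.2) h0
    simp only [map_mul, map_prod, eval_X, Fin.cons_zero, prod_const_one, mul_one, map_zero] at h2
    rw [h2] at h1
    simp only [Fin.cons_zero, prod_const_one, one_pow, one_mul, Fin.cons_succ, div_one] at h1
    rw [map_zero]
    exact h1.symm
  · simp only [map_mul, map_prod, eval_X] at hp
    have h1 : ∀ i, p i 0 ≠ 0 := fun i =>
      Finset.prod_ne_zero_iff.mp (right_ne_zero_of_mul hp) i (mem_univ i)
    refine ⟨h1, H _ ?_⟩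
    have h2 := left_ne_zero_of_mul hp
    rw [hE' p h1] at h2
    exact right_ne_zero_of_mul h2

/-- Setting the first variable equal to one. -/
noncomputable def projDeh (n : ℕ) : MvPolynomial (Fin (n + 1)) ℂ →ₐ[ℂ] MvPolynomial (Fin n) ℂ :=
  aeval (Fin.cons 1 X : Fin (n + 1) → MvPolynomial (Fin n) ℂ)

lemma proj_deh_monomial (α : Fin (n + 1) →₀ ℕ) (c : ℂ) :
    projDeh n (monomial α c) = monomial α.tail c := by
  rw [projDeh, aeval_monomial, monomial_eq, Finsupp.prod_fintype _ _ (by simp),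
    Finsupp.prod_fintype _ _ (by simp), Fin.prod_univ_succ]
  simp [Finsupp.tail_apply]

lemma proj_scale {σ H : Type} [CommRing H] [Algebra ℂ H] {F : MvPolynomial σ ℂ}
    (hF : F.IsHomogeneous d) (c : H) (y : σ → H) :
    aeval (fun l => c * y l) F = c ^ d * aeval y F := by
  conv_lhs => rw [F.as_sum]
  conv_rhs => rw [F.as_sum]
  rw [map_sum, map_sum, Finset.mul_sum]
  refine Finset.sum_congr rfl fun α hα => ?_
  have hd : α.degree = d := by
    by_contra h
    exact (mem_support_iff.mp hα) (hF.coeff_eq_zero h)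
  rw [aeval_monomial, aeval_monomial, Finsupp.prod, Finsupp.prod, ← hd, Finsupp.degree_apply]
  simp only [mul_pow]
  rw [Finset.prod_mul_distrib, Finset.prod_pow_eq_pow_sum]
  ring

lemma proj_aeval_deh {H : Type} [CommRing H] [Algebra ℂ H] (y : Fin n → H)
    (F : MvPolynomial (Fin (n + 1)) ℂ) :
    aeval y (projDeh n F) = aeval (Fin.cons 1 y : Fin (n + 1) → H) F := by
  have : (aeval y).comp (projDeh n) = aeval (Fin.cons 1 y : Fin (n + 1) → H) := by
    refine MvPolynomial.algHom_ext fun l => ?_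
    refine Fin.cases ?_ (fun j => ?_) l <;> simp [projDeh]
  exact congrArg (fun φ => φ F) this

lemma proj_van_of {m : ℕ} {p : Fin (n + 1) → ℂ} (hp : p 0 ≠ 0) {F : MvPolynomial (Fin (n + 1)) ℂ}
    (hF : F.IsHomogeneous d) (h : Van m p F) :
    Van m (fun j : Fin n => p j.succ / p 0) (projDeh n F) := by
  have h1 := h.transfer (aeval (R := ℂ) fun l => C (p 0) *
    (Fin.cons 1 X : Fin (n + 1) → MvPolynomial (Fin n) ℂ) l).toRingHom
    (RingHom.ker (eval fun j : Fin n => p j.succ / p 0)) (fun l => by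
      rw [RingHom.mem_ker]
      refine Fin.cases ?_ (fun j => ?_) l
      · simp
      · simp only [AlgHom.toRingHom_eq_coe, RingHom.coe_coe, map_sub, aeval_X, Fin.cons_succ,
          aeval_C, algebraMap_eq, map_mul, eval_C, eval_X]
        field_simp
        ring)
  simp only [AlgHom.toRingHom_eq_coe, RingHom.coe_coe] at h1
  rw [proj_scale hF] at h1
  have h2 := Ideal.mul_mem_left _ (C (p 0)⁻¹ ^ d) h1
  rw [← mul_assoc, ← mul_pow, ← C_mul, inv_mul_cancel₀ hp, C_1, one_pow, one_mul] at h2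
  exact h2

lemma proj_van_to {m : ℕ} {p : Fin (n + 1) → ℂ} (hp : p 0 ≠ 0) {F : MvPolynomial (Fin (n + 1)) ℂ}
    (hF : F.IsHomogeneous d) (h : Van m (fun j : Fin n => p j.succ / p 0) (projDeh n F)) :
    Van m p F := by
  set K : Ideal (MvPolynomial (Fin (n + 1)) ℂ) := RingHom.ker (eval p) with hK
  let mk := Ideal.Quotient.mkₐ ℂ (K ^ m)
  have hnil : IsNilpotent (mk (X 0 - C (p 0))) := by
    refine ⟨m, ?_⟩
    rw [← map_pow]
    exact Ideal.Quotient.eq_zero_iff_mem.mpr (Ideal.pow_mem_pow (by simp [hK, RingHom.mem_ker]) m)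
  have hu : IsUnit (mk (X 0)) := by
    have h1 : IsUnit (mk (C (p 0))) := ((IsUnit.mk0 _ hp).map C).map mk
    have h2 := hnil.isUnit_add_left_of_commute h1 (Commute.all _ _)
    rwa [← map_add, add_sub_cancel] at h2
  obtain ⟨v, hv⟩ := hu.exists_right_inv
  have h1 := h.transfer (aeval (R := ℂ) fun j : Fin n => mk (X j.succ) * v).toRingHom
    (K.map (Ideal.Quotient.mk (K ^ m))) (fun j => by
      have h2 : X j.succ - C (p j.succ / p 0) * X 0 ∈ K := by
        rw [hK, RingHom.mem_ker]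
        simp only [map_sub, map_mul, eval_X, eval_C]
        field_simp
        ring
      have h3 := Ideal.mul_mem_right v _ (Ideal.mem_map_of_mem (Ideal.Quotient.mk (K ^ m)) h2)
      have h4 : (aeval (R := ℂ) fun j : Fin n => mk (X j.succ) * v).toRingHom
          (X j - C (p j.succ / p 0)) = mk (X j.succ - C (p j.succ / p 0) * X 0) * v := by
        simp only [AlgHom.toRingHom_eq_coe, RingHom.coe_coe, map_sub, aeval_X, aeval_C, map_mul]
        rw [sub_mul, mul_assoc, hv, mul_one, ← algebraMap_eq, AlgHom.commutes]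
      rw [h4]
      exact h3)
  rw [← Ideal.map_pow, Ideal.map_quotient_self, Ideal.mem_bot] at h1
  simp only [AlgHom.toRingHom_eq_coe, RingHom.coe_coe] at h1
  rw [proj_aeval_deh] at h1
  have h2 := proj_scale hF (mk (X 0))
    (Fin.cons 1 (fun j : Fin n => mk (X j.succ) * v) : Fin (n + 1) → _)
  rw [h1, mul_zero] at h2
  have h3 : aeval (fun l => mk (X 0) *
      (Fin.cons 1 (fun j : Fin n => mk (X j.succ) * v) : Fin (n + 1) → _) l) = mk := by
    refine MvPolynomial.algHom_ext fun l => ?_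
    refine Fin.cases ?_ (fun j => ?_) l
    · simp
    · rw [aeval_X, Fin.cons_succ, mul_left_comm, hv, mul_one]
  rw [h3] at h2
  exact Ideal.Quotient.eq_zero_iff_mem.mp h2

lemma proj_deh_inj {F : MvPolynomial (Fin (n + 1)) ℂ} (hF : F.IsHomogeneous d)
    (h : projDeh n F = 0) : F = 0 := by
  have h1 : X 0 * F = 0 := by
    refine MvPolynomial.funext fun p => ?_
    rw [map_mul, eval_X, map_zero]
    by_cases hp : p 0 = 0
    · rw [hp, zero_mul]
    · have h2 := proj_scale hF (p 0) (Fin.cons 1 fun j : Fin n => p j.succ / p 0)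
      rw [← proj_aeval_deh, h, map_zero, mul_zero] at h2
      have h3 : (fun l => p 0 * (Fin.cons 1 (fun j : Fin n => p j.succ / p 0) :
          Fin (n + 1) → ℂ) l) = p := by
        funext l
        refine Fin.cases ?_ (fun j => ?_) l
        · simp
        · rw [Fin.cons_succ]
          field_simp
      rw [h3] at h2
      have h4 : eval p F = 0 := h2
      rw [h4, mul_zero]
  exact (mul_eq_zero.mp h1).resolve_left (X_ne_zero 0)

lemma proj_degree_succ (α : Fin (n + 1) →₀ ℕ) : α.degree = α 0 + α.tail.degree := by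
  rw [Finsupp.degree_eq_sum, Finsupp.degree_eq_sum, Fin.sum_univ_succ]
  simp [Finsupp.tail_apply]

lemma proj_deh_mem {F : MvPolynomial (Fin (n + 1)) ℂ} (hF : F.IsHomogeneous d) :
    projDeh n F ∈ restrictSupport ℂ {t : Fin n →₀ ℕ | t.degree ≤ d} := by
  rw [F.as_sum, map_sum]
  refine Submodule.sum_mem _ fun α hα => ?_
  have hd : α.degree = d := by
    by_contra h
    exact (mem_support_iff.mp hα) (hF.coeff_eq_zero h)
  rw [proj_deh_monomial, monomial_mem_restrictSupport]
  left
  have := proj_degree_succ α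
  change α.tail.degree ≤ d
  omega

lemma proj_deh_onto {G : MvPolynomial (Fin n) ℂ}
    (hG : G ∈ restrictSupport ℂ {t : Fin n →₀ ℕ | t.degree ≤ d}) :
    ∃ F : MvPolynomial (Fin (n + 1)) ℂ, F.IsHomogeneous d ∧ projDeh n F = G := by
  refine ⟨∑ t ∈ G.support, monomial (Finsupp.cons (d - t.degree) t) (coeff t G), ?_, ?_⟩
  · refine IsHomogeneous.sum _ _ _ fun t ht => isHomogeneous_monomial _ ?_
    have h1 : t.degree ≤ d := (mem_restrictSupport_iff ℂ).mp hG ht
    rw [proj_degree_succ, Finsupp.tail_cons, Finsupp.cons_zero]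
    omega
  · rw [map_sum]
    simp only [proj_deh_monomial, Finsupp.tail_cons]
    exact G.as_sum.symm

lemma proj_mem_sys {m : Fin s → ℕ} {p : Fin s → Fin (n + 1) → ℂ}
    {F : MvPolynomial (Fin (n + 1)) ℂ} :
    F ∈ sys n d m p ↔ F.IsHomogeneous d ∧ ∀ i, Van (m i) (p i) F := by
  simp [sys, Van, Submodule.mem_iInf]

theorem sys_eq_bot {m : Fin s → ℕ} {p : Fin s → Fin (n + 1) → ℂ} (hp : ∀ i, p i 0 ≠ 0)
    (h : Emp {t : Fin n →₀ ℕ | t.degree ≤ d} m fun i j => p i j.succ / p i 0) :
    sys n d m p = ⊥ := by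
  rw [eq_bot_iff]
  intro F hF
  obtain ⟨h1, h2⟩ := proj_mem_sys.mp hF
  rw [Submodule.mem_bot]
  exact proj_deh_inj h1 (h _ (proj_deh_mem h1) fun i => proj_van_of (hp i) h1 (h2 i))

lemma card_low (n m : ℕ) (hn : 1 ≤ n) : (low (Fin n) m).card = (n + m - 1).choose n := by
  obtain ⟨k, rfl⟩ : ∃ k, n = k + 1 := ⟨n - 1, by omega⟩
  induction m with
  | zero =>
    have : low (Fin (k + 1)) 0 = ∅ := by
      ext α
      simp [mem_low]
    rw [this, card_empty, Nat.choose_eq_zero_of_lt (by omega)]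
  | succ m ih =>
    have h1 : low (Fin (k + 1)) (m + 1) = low (Fin (k + 1)) m ∪ univ.finsuppAntidiag m := by
      ext α
      simp only [mem_low, mem_union, mem_finsuppAntidiag, subset_univ, and_true,
        Finsupp.degree_eq_sum]
      have : ∑ i, α i = univ.sum ⇑α := rfl
      omega
    have h2 : Disjoint (low (Fin (k + 1)) m) (univ.finsuppAntidiag m) := by
      rw [Finset.disjoint_left]
      intro α h3 h4
      simp only [mem_low, mem_finsuppAntidiag, subset_univ, and_true,
        Finsupp.degree_eq_sum] at h3 h4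
      have : ∑ i, α i = univ.sum ⇑α := rfl
      omega
    rw [h1, card_union_of_disjoint h2, ih, Finset.card_finsuppAntidiag_nat_eq_choose, card_univ,
      Fintype.card_fin, show k + 1 + m - 1 = k + m by omega,
      show k + 1 + (m + 1) - 1 = k + m + 1 by omega, Nat.choose_succ_succ,
      ← Nat.choose_symm_add, add_comm]

lemma proj_finrank_hom (n d : ℕ) :
    Module.finrank ℂ (homogeneousSubmodule (Fin (n + 1)) ℂ d) = (n + d).choose n := by
  have h1 : homogeneousSubmodule (Fin (n + 1)) ℂ d = restrictSupport ℂ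
      ((Finset.univ.finsuppAntidiag d : Finset (Fin (n + 1) →₀ ℕ)) : Set (Fin (n + 1) →₀ ℕ)) := by
    rw [homogeneousSubmodule_eq_finsupp_supported, restrictSupport]
    congr 1
    ext s
    simp [Finsupp.degree_eq_sum]
  rw [h1, Module.finrank_eq_card_basis (basisRestrictSupport ℂ _)]
  simp only [Finset.coe_sort_coe, Fintype.card_coe, Finset.card_finsuppAntidiag_nat_eq_choose,
    card_univ, Fintype.card_fin]
  rw [show n + 1 + d - 1 = n + d by omega, Nat.choose_symm_add]

theorem finrank_sys (hn : 1 ≤ n) {m : Fin s → ℕ} {p : Fin s → Fin (n + 1) → ℂ}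
    (hp : ∀ i, p i 0 ≠ 0)
    (h : Reg {t : Fin n →₀ ℕ | t.degree ≤ d} m fun i j => p i j.succ / p i 0) :
    Module.finrank ℂ (sys n d m p) + ∑ i, (n + m i - 1).choose n = (n + d).choose n := by
  have : Module.Finite ℂ (homogeneousSubmodule (Fin (n + 1)) ℂ d) :=
    Module.finite_of_finrank_pos (by
      rw [proj_finrank_hom]
      exact Nat.choose_pos (by omega))
  let L : homogeneousSubmodule (Fin (n + 1)) ℂ d →ₗ[ℂ] (Cond (Fin n) m → ℂ) :=
    jet m (fun i j => p i j.succ / p i 0) ∘ₗ (projDeh n).toLinearMap ∘ₗ Submodule.subtype _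
  have hL : ∀ F, L F = jet m (fun i j => p i j.succ / p i 0) (projDeh n F) := fun _ => rfl
  have hr : LinearMap.range L = ⊤ := by
    rw [eq_top_iff]
    intro y _
    obtain ⟨G, hG, hy⟩ := h y
    obtain ⟨F, hF, hFG⟩ := proj_deh_onto hG
    exact ⟨⟨F, hF⟩, by rw [hL, ← hy, ← hFG]⟩
  have hk : LinearMap.ker L =
      (sys n d m p).comap (homogeneousSubmodule (Fin (n + 1)) ℂ d).subtype := by
    ext F
    rw [LinearMap.mem_ker, hL, jet_eq_zero, Submodule.mem_comap, proj_mem_sys]
    exact ⟨fun h1 => ⟨F.2, fun i => proj_van_to (hp i) F.2 (h1 i)⟩,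
      fun h1 i => proj_van_of (hp i) F.2 (h1.2 i)⟩
  have h1 := L.finrank_range_add_finrank_ker
  rw [hr, hk, finrank_top, Module.finrank_fintype_fun_eq_card, Fintype.card_sigma,
    (Submodule.comapSubtypeEquivOfLe (show sys n d m p ≤ _ from inf_le_left)).finrank_eq,
    proj_finrank_hom] at h1
  simp only [Fintype.card_coe, card_low n _ hn] at h1
  omega

end Pool.Agent.Lib.MP_efa40c_ag.HN
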