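import Pool.Agent.Lib.MP_efa40c_ag.HN.Theta

/-!
Degeneration to the normal cone of a cylinder over a Tate cubic.
-/

set_option autoImplicit false

namespace Pool.Agent.Lib.MP_efa40c_ag.HN

open MvPolynomial Finset Pool.Agent.Lib.MP_6e81d8_ag.H87

variable {σ ι : Type}

/-- The reduced form with coefficients `c` in the variables `k` and `i`. -/
noncomputable def pol (i k : σ) (c : ℕ × ℕ → K) (N : ℕ) : MvPolynomial σ K :=
  ∑ x ∈ I N, C (c x) * X k ^ x.1 * X i ^ x.2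

section abs

variable [DecidableEq σ] {A : Type} [CommRing A] (j : MvPolynomial σ ℂ →+* A) (i k : σ)
  (U V η : HahnSeries ℤ A)

/-- The moving point. -/
noncomputable def mov (M : ℕ) : σ → HahnSeries ℤ A :=
  Function.update (Function.update (fun l => HahnSeries.C (j (X l))) k U) i
    (V + HahnSeries.single (M : ℤ) 1 * η)

/-- The reduced form along the normal direction. -/
noncomputable def nrm (c : ℕ × ℕ → K) (N : ℕ) : Polynomial (HahnSeries ℤ A) :=
  ∑ x ∈ I N, Polynomial.C (hm (j.comp C) (c x) * U ^ x.1) *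
    (Polynomial.C V + Polynomial.X * Polynomial.C η) ^ x.2

variable {i k}

lemma psi_pol (hik : i ≠ k) (M : ℕ) (c : ℕ × ℕ → K) (N : ℕ) :
    Psi j (mov j i k U V η M) (pol i k c N) =
      (nrm j U V η c N).eval (HahnSeries.single (M : ℤ) 1) := by
  simp only [pol, nrm, map_sum, map_mul, map_pow, psi_C, psi_X, mov, Function.update_self,
    Function.update_of_ne hik.symm, Polynomial.eval_finsetSum, Polynomial.eval_mul,
    Polynomial.eval_pow, Polynomial.eval_add, Polynomial.eval_C, Polynomial.eval_X]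

lemma lead_pol (hik : i ≠ k) (c : ℕ × ℕ → K) (N : ℕ) {δ : ℤ} {a : A}
    (h : Lead δ (∑ x ∈ I N, hm (j.comp C) (c x) * U ^ x.1 * V ^ x.2) a) :
    ∀ᶠ M : ℕ in Filter.atTop, Lead δ (Psi j (mov j i k U V η M) (pol i k c N)) a := by
  simp only [psi_pol j U V η hik]
  refine Lead.eventually ?_
  simpa only [nrm, Polynomial.coeff_zero_eq_eval_zero, Polynomial.eval_finsetSum,
    Polynomial.eval_mul, Polynomial.eval_pow, Polynomial.eval_add, Polynomial.eval_C,
    Polynomial.eval_X, zero_mul, add_zero] using h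

lemma lead_cub (hik : i ≠ k) {γ : ℕ × ℕ → K} {y : A}
    (hc : V ^ 3 = ∑ x ∈ I 6, hm (j.comp C) (γ x) * U ^ x.1 * V ^ x.2)
    (hη : η * (3 * V ^ 2 - ∑ x ∈ I 6, hm (j.comp C) (γ x) * U ^ x.1 * (x.2 * V ^ (x.2 - 1))) =
      HahnSeries.C y) :
    ∀ᶠ M : ℕ in Filter.atTop,
      Lead M (Psi j (mov j i k U V η M) (X i ^ 3 - pol i k γ 6)) y := by
  set Q : Polynomial (HahnSeries ℤ A) :=
    (Polynomial.C V + Polynomial.X * Polynomial.C η) ^ 3 - nrm j U V η γ 6 with hQ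
  have h0 : Q.coeff 0 = 0 := by
    simp only [hQ, nrm, Polynomial.coeff_zero_eq_eval_zero, Polynomial.eval_finsetSum,
      Polynomial.eval_mul, Polynomial.eval_pow, Polynomial.eval_add, Polynomial.eval_C,
      Polynomial.eval_X, zero_mul, add_zero, Polynomial.eval_sub, hc, sub_self]
  have h1 : Q.divX.coeff 0 = HahnSeries.C y := by
    have h2 := Polynomial.coeff_derivative Q 0
    rw [Nat.cast_zero, zero_add, zero_add, mul_one] at h2
    rw [Polynomial.coeff_divX, zero_add, ← h2, ← hη]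
    simp only [hQ, nrm, Polynomial.coeff_zero_eq_eval_zero, Polynomial.derivative_sub,
      Polynomial.derivative_sum, Polynomial.derivative_mul, Polynomial.derivative_pow,
      Polynomial.derivative_add, Polynomial.derivative_C, Polynomial.derivative_X,
      Polynomial.eval_finsetSum, Polynomial.eval_mul, Polynomial.eval_pow, Polynomial.eval_add,
      Polynomial.eval_C, Polynomial.eval_X, zero_mul, add_zero, Polynomial.eval_sub, zero_add,
      one_mul, mul_zero, mul_sub, mul_sum]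
    congr 1
    · push_cast
      ring
    · exact sum_congr rfl fun x _ => by ring
  filter_upwards [Lead.eventually (Q := Q.divX) (h1 ▸ lead_C y)] with M hM
  have h2 : Psi j (mov j i k U V η M) (X i ^ 3 - pol i k γ 6) =
      HahnSeries.single (M : ℤ) 1 * Q.divX.eval (HahnSeries.single (M : ℤ) 1) := by
    have h3 := congrArg (Polynomial.eval (HahnSeries.single (M : ℤ) (1 : A))) Q.X_mul_divX_add
    rw [h0, map_zero, add_zero, Polynomial.eval_mul, Polynomial.eval_X] at h3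
    rw [h3, map_sub, psi_pol j U V η hik, map_pow, psi_X]
    simp only [hQ, mov, Function.update_self, Polynomial.eval_mul, Polynomial.eval_pow,
      Polynomial.eval_add, Polynomial.eval_C, Polynomial.eval_X, Polynomial.eval_sub]
  have := (lead_single (M : ℤ) (1 : A)).mul hM
  rwa [add_zero, one_mul, ← h2] at this

end abs

lemma exists_par {ρ : ℝ} (h0 : 0 < ρ) (h1 : ρ < 1) (M : ℕ) :
    ∃ b g : ℤ, 0 < b ∧ -(2 * b) < g ∧ g < 0 ∧ ∀ N ∈ Icc 1 M,
      2 * b * (⌈-(N * ρ)⌉ - 1) < N * g ∧ N * g < 2 * b * ⌈-(N * ρ)⌉ := by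
  have h2 : ∀ᶠ x in nhdsWithin ρ (Set.Ioi ρ), x < 1 ∧ ∀ N ∈ Icc 1 M,
      (⌈-(N * ρ)⌉ : ℝ) - 1 < -(N * x) := by
    refine Filter.Eventually.filter_mono nhdsWithin_le_nhds ((eventually_lt_nhds h1).and
      ((Filter.eventually_all_finset _).mpr fun N _ => ?_))
    have h3 : Continuous fun x : ℝ => -(N * x) := by fun_prop
    refine h3.continuousAt.eventually (eventually_gt_nhds ?_)
    have := Int.ceil_lt_add_one (-(N * ρ))
    linarith
  obtain ⟨u, hu, h3⟩ := mem_nhdsGT_iff_exists_Ioo_subset.mp h2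
  obtain ⟨q, h4⟩ := exists_rat_btwn (show ρ < u from hu)
  obtain ⟨h5, h6⟩ := h3 h4
  have hd : (0 : ℝ) < q.den := by exact_mod_cast q.den_pos
  have hq : (q.num : ℝ) = q * q.den := by exact_mod_cast (Rat.mul_den_eq_num q).symm
  refine ⟨q.den, -(2 * q.num), by exact_mod_cast q.den_pos, ?_, ?_, fun N hN => ⟨?_, ?_⟩⟩
  · have : (q.num : ℝ) < q.den := by rw [hq]; nlinarith
    have : q.num < q.den := by exact_mod_cast this
    omega
  · have : (0 : ℝ) < q.num := by rw [hq]; nlinarith [h4.1]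
    have : 0 < q.num := by exact_mod_cast this
    omega
  · have h7 := h6 N hN
    have : 2 * (q.den : ℝ) * (⌈-(N * ρ)⌉ - 1) < N * -(2 * q.num) := by
      rw [hq]
      nlinarith
    exact_mod_cast this
  · have h7 := Int.le_ceil (-(N * ρ))
    have h8 : (1 : ℝ) ≤ N := by exact_mod_cast (mem_Icc.mp hN).1
    have h9 : -(N * (q : ℝ)) < ⌈-(N * ρ)⌉ := by nlinarith [h4.1]
    have : (N : ℝ) * -(2 * q.num) < 2 * (q.den : ℝ) * ⌈-(N * ρ)⌉ := by
      rw [hq]
      nlinarith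
    exact_mod_cast this

lemma monomial_split [DecidableEq σ] {R : Type} [CommRing R] {i k : σ} (hik : i ≠ k)
    (s : σ →₀ ℕ) : (monomial s 1 : MvPolynomial σ R) =
      monomial ((s.erase i).erase k) 1 * (X k ^ s k * X i ^ s i) := by
  rw [X_pow_eq_monomial, X_pow_eq_monomial, monomial_mul, monomial_mul, mul_one, mul_one]
  congr 2
  ext l
  by_cases h1 : l = k
  · subst h1
    simp [hik.symm]
  · by_cases h2 : l = i
    · subst h2
      simp [h1]
    · simp [h1, h2]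

theorem tate_core [DecidableEq σ] {i k : σ} (hik : i ≠ k) {ρ : ℝ} (h0 : 0 < ρ) (h1 : ρ < 1)
    (p M : ℕ) : ∃ (E : MvPolynomial σ ℂ) (ψ : σ → HahnSeries ℤ (Localization.Away E))
      (ε : Localization.Away E) (γ : ℕ × ℕ → K) (G : ℕ → ℤ → ℕ × ℕ → K), E ≠ 0 ∧
      ∀ N ∈ Icc 1 M, (∀ n ∈ Ico ⌈-(N * ρ)⌉ (⌈-(N * ρ)⌉ + N), ∀ s : σ →₀ ℕ,
        (s k : ℤ) = M + p * s i + n → ∃ δ a, Lead δ (Psi (algebraMap _ _) ψ
          (monomial ((s.erase i).erase k) 1 *
            ((X i ^ 3 - pol i k γ 6) ^ s i * pol i k (G N n) N))) a ∧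
          ε * a = algebraMap (MvPolynomial σ ℂ) _ (monomial s 1)) ∧
        ∀ x ∈ I N, (X k ^ x.1 * X i ^ x.2 : MvPolynomial σ K) ∈ Submodule.span K
          ((fun n => pol i k (G N n) N) '' (Ico ⌈-(N * ρ)⌉ (⌈-(N * ρ)⌉ + N) : Finset ℤ)) := by
  obtain ⟨b, g, hb, g1, g2, g3⟩ := exists_par h0 h1 M
  obtain ⟨u, v, γ, hc, hl, hG⟩ := tate_data hb g1 g2
  choose! G hG1 hG2 using fun (N : ℕ) (hN : N ∈ Icc 1 M) =>
    hG N _ (mem_Icc.mp hN).1 (g3 N hN).1 (g3 N hN).2
  choose! δ hG1 using hG1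
  obtain ⟨δ0, l0, hl0, hl1⟩ := exists_lead hl
  obtain ⟨n1, p0, hp0⟩ := l0.exists_T_pow
  have hp1 : p0 ≠ 0 := by
    rintro rfl
    rw [map_zero] at hp0
    exact mul_ne_zero hl0 (LaurentPolynomial.isUnit_T _).ne_zero hp0.symm
  set E : MvPolynomial σ ℂ := X k * p0.toMvPolynomial k with hE
  let j : MvPolynomial σ ℂ →+* Localization.Away E := algebraMap _ _
  have hu : IsUnit (j (X k) * j (p0.toMvPolynomial k)) := by
    rw [← map_mul]
    exact IsLocalization.Away.algebraMap_isUnit E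
  obtain ⟨z, hz⟩ := isUnit_of_mul_isUnit_left hu
  let ρ0 : L →+* Localization.Away E := LaurentPolynomial.eval₂ (j.comp C) z
  have e1 : ∀ c : K, hm ρ0 (io c) = hm (j.comp C) c := fun c => by
    rw [io, hm_hm]
    congr 2
    exact RingHom.ext fun r => LaurentPolynomial.eval₂_C _ _ r
  have e2 : IsUnit (ρ0 l0) := by
    refine isUnit_of_mul_isUnit_left (y := ρ0 (LaurentPolynomial.T n1)) ?_
    rw [← map_mul, ← hp0, LaurentPolynomial.eval₂_toLaurent, hz, ← Polynomial.hom_eval₂]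
    exact isUnit_of_mul_isUnit_right hu
  obtain ⟨w, hw⟩ := ((hl1.map ρ0).isUnit e2).exists_left_inv
  have e3 := congrArg (hm ρ0) hc
  simp only [red, map_sum, map_mul, map_pow, map_sub, map_ofNat, map_natCast, e1] at e3 hw
  have e4 := lead_cub j (hm ρ0 u) (hm ρ0 v) (HahnSeries.C (j (X i) * z ^ p) * w) hik e3
    (by rw [mul_assoc, hw, mul_one])
  have e5 : ∀ N ∈ Icc 1 M, ∀ n ∈ Ico ⌈-(N * ρ)⌉ (⌈-(N * ρ)⌉ + N), ∀ᶠ t : ℕ in Filter.atTop,
      Lead (δ N n) (Psi j (mov j i k (hm ρ0 u) (hm ρ0 v) (HahnSeries.C (j (X i) * z ^ p) * w) t)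
        (pol i k (G N n) N)) (ρ0 (LaurentPolynomial.T n)) := by
    intro N hN n hn
    refine lead_pol j _ _ _ hik _ _ ?_
    simpa only [red, map_sum, map_mul, map_pow, e1] using (hG1 N hN n hn).map ρ0
  obtain ⟨t, t1, t2⟩ := (e4.and ((Filter.eventually_all_finset _).mpr fun N hN =>
    (Filter.eventually_all_finset _).mpr (e5 N hN))).exists
  have e6 : ∀ l, l ≠ i → l ≠ k → mov j i k (hm ρ0 u) (hm ρ0 v)
      (HahnSeries.C (j (X i) * z ^ p) * w) t l = HahnSeries.C (j (X l)) := fun l h3 h2 => by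
    rw [mov, Function.update_of_ne h3, Function.update_of_ne h2]
  generalize mov j i k (hm ρ0 u) (hm ρ0 v) (HahnSeries.C (j (X i) * z ^ p) * w) t = ψ at t1 t2 e6
  refine ⟨E, ψ, z ^ M, γ, G,
    mul_ne_zero (X_ne_zero _) fun h => hp1 (Polynomial.toMvPolynomial_injective k
      (by rw [h, map_zero])), fun N hN => ⟨fun n hn s hs => ?_, fun x hx => ?_⟩⟩
  · refine ⟨0 + (s i * t + δ N n), j (monomial ((s.erase i).erase k) 1) *
      ((j (X i) * z ^ p) ^ s i * ρ0 (LaurentPolynomial.T n)), ?_, ?_⟩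
    · rw [map_mul, map_mul, map_pow, psi_monomial]
      · exact (lead_C _).mul ((t1.pow _).mul (t2 N hN n hn))
      · intro l hl
        have h2 : l ≠ k := by
          rintro rfl
          simp at hl
        have h3 : l ≠ i := by
          rintro rfl
          simp [h2] at hl
        exact e6 l h3 h2
    · have h2 : (z : Localization.Away E) ^ s k = z ^ M * (z ^ p) ^ s i * (z ^ n).val := by
        rw [← pow_mul, ← pow_add, ← Units.val_pow_eq_pow_val, ← Units.val_pow_eq_pow_val,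
          ← Units.val_mul, ← zpow_natCast, ← zpow_natCast, ← zpow_add, hs]
        push_cast
        rfl
      rw [monomial_split hik s, map_mul, map_mul, map_pow, map_pow, LaurentPolynomial.eval₂_T]
      change _ = j _ * (j _ ^ _ * j _ ^ _)
      rw [← hz, h2]
      ring
  · obtain ⟨c, hc⟩ := hG2 N hN x hx
    have h2 : (X k ^ x.1 * X i ^ x.2 : MvPolynomial σ K) =
        ∑ n ∈ Ico ⌈-(N * ρ)⌉ (⌈-(N * ρ)⌉ + N), c n • pol i k (G N n) N := by
      simp only [pol, smul_eq_C_mul, mul_sum]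
      rw [sum_comm, sum_eq_single x]
      · simp only [← mul_assoc, ← map_mul, ← sum_mul, ← map_sum]
        rw [hc x hx, if_pos rfl, C_1, one_mul]
      · intro y hy hne
        simp only [← mul_assoc, ← map_mul, ← sum_mul, ← map_sum]
        rw [hc y hy, if_neg hne, C_0, zero_mul, zero_mul]
      · exact fun h => absurd hx h
    rw [h2]
    exact Submodule.sum_mem _ fun n hn => Submodule.smul_mem _ _
      (Submodule.subset_span ⟨n, hn, rfl⟩)

/-- The monomials of the weighted triangles. -/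
def Tri (i k : σ) (β : ℝ) (r : (σ →₀ ℕ) → ℝ) : Set (σ →₀ ℕ) := {s | s k / β + s i ≤ r s}

/-- The monomials of the sheared windows. -/
def Win (i k : σ) (β ρ : ℝ) (p M : ℕ) (r : (σ →₀ ℕ) → ℝ) : Set (σ →₀ ℕ) :=
  {s | (M : ℝ) + p * s i - ρ * (3 * β * (r s - 3 * s i)) ≤ s k ∧
    (s k : ℝ) ≤ M + p * s i + (1 - ρ) * (3 * β * (r s - 3 * s i))}

lemma wt_le {β : ℝ} (hβ : 1 ≤ β) {N : ℕ} {x : ℕ × ℕ} (hx : x ∈ I N) :
    x.1 / β + x.2 ≤ (N - 4) / (3 * β) + 2 := by
  obtain ⟨h1, h2⟩ := mem_I.mp hx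
  have h3 : (x.2 : ℝ) ≤ 2 := by exact_mod_cast h1
  have h4 : 3 * (x.1 : ℝ) + 2 * x.2 ≤ N := by exact_mod_cast h2
  have h5 : 0 < β := by linarith
  rw [div_add' _ _ _ h5.ne', div_add' _ _ _ (by positivity), div_le_div_iff₀ h5 (by positivity)]
  nlinarith [mul_nonneg h5.le (mul_nonneg (sub_nonneg.mpr h3) (show 0 ≤ 3 * β - 2 by linarith))]

lemma wt_six {β : ℝ} (hβ : 1 ≤ β) {x : ℕ × ℕ} (hx : x ∈ I 6) : x.1 / β + x.2 ≤ 3 := by
  refine (wt_le hβ hx).trans ?_
  have : ((6 : ℕ) - 4 : ℝ) / (3 * β) ≤ 1 := by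
    rw [div_le_one (by positivity)]
    push_cast
    linarith
  linarith

/-- Expansion in powers of the cubic. -/
lemma mem_span_cub (i k : σ) (γ : ℕ × ℕ → K) {β : ℝ} (hβ : 1 ≤ β) (b : ℕ) : ∀ (a e : ℕ) (x : ℝ),
    3 * e + a / β + b ≤ x → ((X i ^ 3 - pol i k γ 6) ^ e * (X k ^ a * X i ^ b) : MvPolynomial σ K) ∈
      Submodule.span K {F | ∃ e a b : ℕ, b ≤ 2 ∧ 3 * e + a / β + b ≤ x ∧
        F = (X i ^ 3 - pol i k γ 6) ^ e * (X k ^ a * X i ^ b)} := by
  induction b using Nat.strong_induction_on with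
  | _ b ih =>
    intro a e x hx
    by_cases hb : b ≤ 2
    · exact Submodule.subset_span ⟨e, a, b, hb, hx, rfl⟩
    obtain ⟨c, rfl⟩ : ∃ c, b = c + 3 := ⟨b - 3, by omega⟩
    have h1 : ((X i ^ 3 - pol i k γ 6) ^ e * (X k ^ a * X i ^ (c + 3)) : MvPolynomial σ K) =
        (X i ^ 3 - pol i k γ 6) ^ (e + 1) * (X k ^ a * X i ^ c) + ∑ y ∈ I 6,
          γ y • ((X i ^ 3 - pol i k γ 6) ^ e * (X k ^ (a + y.1) * X i ^ (c + y.2))) := by
      have h2 : ∑ y ∈ I 6, γ y • ((X i ^ 3 - pol i k γ 6) ^ e *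
          (X k ^ (a + y.1) * X i ^ (c + y.2)) : MvPolynomial σ K) =
          (X i ^ 3 - pol i k γ 6) ^ e * (X k ^ a * X i ^ c) * pol i k γ 6 := by
        generalize (X i ^ 3 - pol i k γ 6 : MvPolynomial σ K) ^ e = Q
        rw [pol, mul_sum]
        exact sum_congr rfl fun y _ => by rw [smul_eq_C_mul]; ring
      rw [h2]
      ring
    rw [h1]
    push_cast at hx
    refine Submodule.add_mem _ (ih c (by omega) _ _ _ (by push_cast; linarith))
      (Submodule.sum_mem _ fun y hy => Submodule.smul_mem _ _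
        (ih _ (by have := (mem_I.mp hy).1; omega) _ _ _ ?_))
    have := wt_six hβ hy
    push_cast
    rw [add_div]
    linarith

lemma erase_apply {i k l : σ} (s : σ →₀ ℕ) (h1 : l ≠ i) (h2 : l ≠ k) :
    ((s.erase i).erase k) l = s l := by
  rw [Finsupp.erase_ne h2, Finsupp.erase_ne h1]

lemma mul_mem_of_span {F G : MvPolynomial σ K} {S : Set (MvPolynomial σ K)}
    {W : Submodule K (MvPolynomial σ K)} (h : G ∈ Submodule.span K S) (hS : ∀ x ∈ S, F * x ∈ W) :
    F * G ∈ W :=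
  (Submodule.span_le (p := W.comap (LinearMap.mulLeft K F))).mpr hS h

lemma monomial_mem {R : Type} [CommRing R] {S : Set (σ →₀ ℕ)} {s : σ →₀ ℕ} (h : s ∈ S) :
    monomial s (1 : R) ∈ restrictSupport R S := by
  rw [restrictSupport_eq_span]
  exact Submodule.subset_span ⟨s, h, rfl⟩

lemma restrict_sub {R : Type} [CommRing R] {S : Set (σ →₀ ℕ)} {F G : MvPolynomial σ R}
    (hF : F ∈ restrictSupport R S) (hG : G ∈ restrictSupport R S) : F - G ∈ restrictSupport R S :=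
  sub_mem hF hG

variable [Fintype σ] [DecidableEq σ] [Fintype ι]

theorem tate_emp {i k : σ} (hik : i ≠ k) {β ρ D : ℝ} (hβ : 1 ≤ β) (h0 : 0 < ρ) (h1 : ρ < 1)
    (p M : ℕ) (hM : 3 * β * D + 1 ≤ M) (hM1 : 1 ≤ M) {r : (σ →₀ ℕ) → ℝ} (hD : ∀ s, r s ≤ D)
    (hr : ∀ s s' : σ →₀ ℕ, (∀ l, l ≠ i → l ≠ k → s l = s' l) → r s = r s')
    (hS : (Tri i k β r).Finite) {m : ι → ℕ} (h : Gen (Emp (Win i k β ρ p M r) m)) :
    Gen (Emp (Tri i k β r) m) := by
  obtain ⟨E, ψ, ε, γ, G, hE, H⟩ := tate_core hik h0 h1 p M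
  have hβ0 : 0 < β := by linarith
  let N : (σ →₀ ℕ) → ℕ := fun s => max 1 ⌊3 * β * (r s - 3 * s i)⌋₊
  let n : (σ →₀ ℕ) → ℤ := fun s => s k - (M + p * s i)
  have hN : ∀ s, N s ∈ Icc 1 M := fun s => mem_Icc.mpr ⟨le_max_left _ _, max_le hM1
    (Nat.floor_le_of_le (by
      have : (0 : ℝ) ≤ s i := Nat.cast_nonneg _
      nlinarith [hD s]))⟩
  refine step_emp (loc_away E) hE ψ ε
    (T := {s | 3 * (s i : ℝ) ≤ r s ∧ n s ∈ Ico ⌈-(N s * ρ)⌉ (⌈-(N s * ρ)⌉ + N s)}) hS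
    (fun s => monomial ((s.erase i).erase k) 1 *
      ((X i ^ 3 - pol i k γ 6) ^ s i * pol i k (G (N s) (n s)) (N s)))
    (fun s hs => (H _ (hN s)).1 _ hs.2 s (by simp only [n]; ring)) (fun s hs => ?_)
    (h.mono fun q hq => hq.mono ?_)
  · rw [monomial_split hik s]
    have h2 := mem_span_cub i k γ hβ (s i) (s k) 0 (r s) (by simpa [Tri] using hs)
    rw [pow_zero, one_mul] at h2
    refine mul_mem_of_span h2 ?_
    rintro _ ⟨e, a, b, h3, h4, rfl⟩
    have h5 : (0 : ℝ) ≤ a / β := by positivity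
    have h6 : (0 : ℝ) ≤ b := Nat.cast_nonneg _
    have h7 : N (s.update i e) = max 1 ⌊3 * β * (r s - 3 * e)⌋₊ := by
      simp only [N, Finsupp.update_apply, if_true]
      rw [hr (s.update i e) s fun l h _ => by simp [Finsupp.update_apply, h]]
    have h8 := (H _ (hN (s.update i e))).2 (a, b) (mem_I.mpr ⟨h3, by
      rw [h7]
      refine le_max_of_le_right (Nat.le_floor ?_)
      have : (a : ℝ) = a / β * β := by field_simp
      push_cast
      nlinarith⟩)
    rw [← mul_assoc]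
    refine mul_mem_of_span h8 ?_
    rintro _ ⟨t, ht, rfl⟩
    have h9 : 0 ≤ (M : ℤ) + p * e + t := by
      have a1 := (mem_Ico.mp ht).1
      have a2 := Int.le_ceil (-(N (s.update i e) * ρ))
      have a3 : (N (s.update i e) : ℝ) ≤ M := by exact_mod_cast (mem_Icc.mp (hN _)).2
      have a4 : (⌈-(N (s.update i e) * ρ)⌉ : ℝ) ≤ t := by exact_mod_cast a1
      have a5 : (0 : ℝ) ≤ N (s.update i e) := Nat.cast_nonneg _
      have a6 : (0 : ℝ) ≤ M + t := by nlinarith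
      have a7 : (0 : ℤ) ≤ M + t := by exact_mod_cast a6
      have a8 : (0 : ℤ) ≤ p * e := by positivity
      linarith
    set s' := (s.update i e).update k ((M : ℤ) + p * e + t).toNat with hs'
    have b1 : s' i = e := by simp [hs', Finsupp.update_apply, hik]
    have b2 : (s' k : ℤ) = M + p * e + t := by
      simp only [hs', Finsupp.update_apply, if_true, Int.toNat_of_nonneg h9]
    have b3 : r s' = r s := hr _ _ fun l a1 a2 => by simp [hs', Finsupp.update_apply, a1, a2]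
    have b4 : N s' = N (s.update i e) := by
      rw [h7]
      simp only [N, b1, b3]
    have b5 : n s' = t := by
      simp only [n, b1, b2]
      ring
    have b6 : (s'.erase i).erase k = (s.erase i).erase k := by
      ext l
      by_cases a2 : l = k
      · simp [a2]
      by_cases a1 : l = i
      · simp [a1, hik]
      · rw [erase_apply _ a1 a2, erase_apply _ a1 a2]
        simp [hs', Finsupp.update_apply, a1, a2]
    refine Submodule.subset_span ⟨s', ⟨by rw [b1, b3]; linarith, by rw [b4, b5]; exact ht⟩, ?_⟩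
    simp only [b1, b4, b5, b6, mul_assoc]
  · rintro s ⟨h2, h3⟩
    obtain ⟨h4, h5⟩ := mem_Ico.mp h3
    have h6 : 0 ≤ 3 * β * (r s - 3 * s i) := by nlinarith
    have h7 : (n s : ℝ) = s k - (M + p * s i) := by simp [n]
    suffices -(ρ * (3 * β * (r s - 3 * s i))) ≤ n s ∧ n s ≤ (1 - ρ) * (3 * β * (r s - 3 * s i)) from
      ⟨by linarith [this.1], by linarith [this.2]⟩
    rcases le_total 1 ⌊3 * β * (r s - 3 * s i)⌋₊ with h8 | h8
    · have a1 : (N s : ℝ) ≤ 3 * β * (r s - 3 * s i) := by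
        simp only [N, max_eq_right h8]
        exact Nat.floor_le h6
      have a2 := Int.le_ceil (-(N s * ρ))
      have a3 := Int.ceil_lt_add_one (-(N s * ρ))
      have a4 : (⌈-(N s * ρ)⌉ : ℝ) ≤ n s := by exact_mod_cast h4
      have a5 : (n s : ℝ) + 1 ≤ ⌈-(N s * ρ)⌉ + N s := by exact_mod_cast h5
      constructor <;> nlinarith
    · have a1 : N s = 1 := max_eq_left h8
      have a2 : ⌈-(((1 : ℕ) : ℝ) * ρ)⌉ = 0 := by
        rw [Int.ceil_eq_iff]
        push_cast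
        constructor <;> linarith
      rw [a1, a2] at h4 h5
      have a3 : n s = 0 := by omega
      rw [a3, Int.cast_zero]
      constructor <;> nlinarith

/-- Polynomials in the variables `k` and `i` of weight at most `x`. -/
noncomputable def Two (i k : σ) (β x : ℝ) : Submodule K (MvPolynomial σ K) :=
  restrictSupport K {s | (∀ l, l ≠ i → l ≠ k → s l = 0) ∧ s k / β + s i ≤ x}

omit [Fintype σ] in
lemma mul_mem_restrict {S T U : Set (σ →₀ ℕ)} (h : ∀ s ∈ S, ∀ t ∈ T, s + t ∈ U)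
    {F G : MvPolynomial σ K} (hF : F ∈ restrictSupport K S) (hG : G ∈ restrictSupport K T) :
    F * G ∈ restrictSupport K U := by
  rw [mem_restrictSupport_iff] at hF hG ⊢
  intro u hu
  obtain ⟨s, hs, t, ht, rfl⟩ := mem_add.mp (support_mul F G hu)
  exact h s (hF hs) t (hG ht)

omit [Fintype σ] in
lemma Two.mul {i k : σ} {β x y : ℝ} {F G : MvPolynomial σ K} (hF : F ∈ Two i k β x)
    (hG : G ∈ Two i k β y) : F * G ∈ Two i k β (x + y) := by
  unfold Two at hF hG ⊢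
  refine mul_mem_restrict (fun s hs t ht => ?_) hF hG
  refine ⟨fun l h1 h2 => ?_, ?_⟩
  · rw [Finsupp.add_apply, hs.1 l h1 h2, ht.1 l h1 h2]
  · rw [Finsupp.add_apply, Finsupp.add_apply]
    push_cast
    rw [add_div]
    linarith [hs.2, ht.2]

omit [Fintype σ] [DecidableEq σ] in
lemma two_mono {i k : σ} (hik : i ≠ k) {β x : ℝ} {a b : ℕ} (h : a / β + b ≤ x) :
    (X k ^ a * X i ^ b : MvPolynomial σ K) ∈ Two i k β x := by
  rw [X_pow_eq_monomial, X_pow_eq_monomial, monomial_mul, mul_one]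
  refine monomial_mem ⟨fun l h1 h2 => by simp [h1, h2], ?_⟩
  simpa [hik, hik.symm] using h

omit [Fintype σ] [DecidableEq σ] in
lemma two_pol {i k : σ} (hik : i ≠ k) {β x : ℝ} (c : ℕ × ℕ → K) {N : ℕ}
    (h : ∀ y ∈ I N, y.1 / β + y.2 ≤ x) : pol i k c N ∈ Two i k β x :=
  Submodule.sum_mem _ fun y hy => by
    rw [mul_assoc, ← smul_eq_C_mul]
    exact Submodule.smul_mem _ _ (two_mono hik (h y hy))

omit [Fintype σ] in
lemma two_cub {i k : σ} (hik : i ≠ k) {β : ℝ} (hβ : 1 ≤ β) (γ : ℕ × ℕ → K) (e : ℕ) :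
    (X i ^ 3 - pol i k γ 6) ^ e ∈ Two i k β (3 * e) := by
  induction e with
  | zero => simpa using two_mono hik (β := β) (x := 0) (a := 0) (b := 0) (by simp)
  | succ e ih =>
    have h1 := two_mono hik (β := β) (x := 3) (a := 0) (b := 3) (by simp)
    rw [pow_zero, one_mul] at h1
    have h2 : X i ^ 3 - pol i k γ 6 ∈ Two i k β 3 :=
      restrict_sub h1 (two_pol hik γ fun y hy => wt_six hβ hy)
    have := Two.mul ih h2
    rwa [← pow_succ, show 3 * (e : ℝ) + 3 = 3 * (e + 1 : ℕ) by push_cast; ring] at this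

/-- The monomials of the half-open sheared windows. -/
def WinO (i k : σ) (β ρ : ℝ) (p M : ℕ) (r : (σ →₀ ℕ) → ℝ) : Set (σ →₀ ℕ) :=
  {s | (M : ℝ) + p * s i - ρ * (3 * β * (r s - 3 * s i)) ≤ s k ∧
    (s k : ℝ) < M + p * s i + (1 - ρ) * (3 * β * (r s - 3 * s i))}

theorem tate_reg_aux {i k : σ} (hik : i ≠ k) {β ρ : ℝ} (hβ : 1 ≤ β) (h0 : 0 < ρ) (h1 : ρ < 1)
    (p M : ℕ) {r r' : (σ →₀ ℕ) → ℝ}
    (hr : ∀ s s' : σ →₀ ℕ, (∀ l, l ≠ i → l ≠ k → s l = s' l) → r s = r s')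
    (hN : ∀ s : σ →₀ ℕ, 0 < 3 * β * (r' s - 3 * s i) → ∃ N : ℕ, N ≤ M ∧
      3 * β * (r' s - 3 * s i) ≤ N ∧ ∀ y ∈ I N, y.1 / β + y.2 ≤ r s - 3 * s i)
    (hS : (Tri i k β r).Finite) {m : ι → ℕ} (h : Gen (Reg (WinO i k β ρ p M r') m)) :
    Gen (Reg (Tri i k β r) m) := by
  obtain ⟨E, ψ, ε, γ, G, hE, H⟩ := tate_core hik h0 h1 p M
  refine step_reg (loc_away E) hE ψ ε hS (fun s hs => ?_) h
  obtain ⟨h2, h3⟩ := hs
  have h4 : 0 < 3 * β * (r' s - 3 * s i) := by linarith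
  obtain ⟨N, h5, h6, h7⟩ := hN s h4
  have h9 : N ∈ Icc 1 M := mem_Icc.mpr ⟨by exact_mod_cast h4.trans_le h6, h5⟩
  have h10 : (s k : ℤ) - (M + p * s i) ∈ Ico ⌈-(N * ρ)⌉ (⌈-(N * ρ)⌉ + N) := by
    have a2 := Int.le_ceil (-(N * ρ))
    refine mem_Ico.mpr ⟨Int.ceil_le.mpr ?_, ?_⟩
    · push_cast
      nlinarith
    · have : ((s k : ℤ) - (M + p * s i) : ℝ) < ⌈-(N * ρ)⌉ + N := by
        push_cast
        nlinarith
      exact_mod_cast this
  refine ⟨_, ?_, (H N h9).1 _ h10 s (by ring)⟩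
  refine mul_mem_restrict (S := {(s.erase i).erase k}) ?_ (monomial_mem rfl)
    (Two.mul (two_cub hik hβ γ (s i)) (two_pol hik _ h7))
  rintro _ rfl t ⟨a1, a2⟩
  have a3 : r ((s.erase i).erase k + t) = r s := hr _ _ fun l b1 b2 => by
    rw [Finsupp.add_apply, a1 l b1 b2, erase_apply _ b1 b2, add_zero]
  simp only [Tri, Set.mem_ofPred_eq, a3, Finsupp.add_apply, Finsupp.erase_same,
    Finsupp.erase_ne hik, zero_add]
  linarith

theorem tate_reg {i k : σ} (hik : i ≠ k) {β ρ D : ℝ} (hβ : 1 ≤ β) (h0 : 0 < ρ) (h1 : ρ < 1)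
    (p M : ℕ) (hM : 3 * β * D + 1 ≤ M) {r : (σ →₀ ℕ) → ℝ} (hD : ∀ s, r s ≤ D)
    (hr : ∀ s s' : σ →₀ ℕ, (∀ l, l ≠ i → l ≠ k → s l = s' l) → r s = r s')
    (hS : (Tri i k β r).Finite) {m : ι → ℕ}
    (h : Gen (Reg (WinO i k β ρ p M fun s => r s - 2 + 1 / β) m)) :
    Gen (Reg (Tri i k β r) m) := by
  refine tate_reg_aux hik hβ h0 h1 p M hr (fun s h5 => ?_) hS h
  have hβ0 : 0 < β := by linarith
  have h4 : 3 * β * (r s - 2 + 1 / β - 3 * s i) = 3 * β * (r s - 2 - 3 * s i) + 3 := by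
    field_simp
    ring
  simp only [h4] at h5 ⊢
  have h7 := Nat.ceil_lt_add_one h5.le
  refine ⟨_, ?_, Nat.le_ceil _, fun y hy => (wt_le hβ hy).trans ?_⟩
  · have a1 : (0 : ℝ) ≤ s i := Nat.cast_nonneg _
    exact Nat.ceil_le.mpr (by nlinarith [hD s])
  · rw [← le_sub_iff_add_le, div_le_iff₀ (by positivity)]
    linarith

/-- For equal weights and integral degrees the linear series on the cubic is complete. -/
theorem tate_reg_one {i k : σ} (hik : i ≠ k) {ρ D : ℝ} (h0 : 0 < ρ) (h1 : ρ < 1)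
    (p M : ℕ) (hM : 3 * 1 * D + 1 ≤ M) {r : (σ →₀ ℕ) → ℝ} (hD : ∀ s, r s ≤ D)
    (hr : ∀ s s' : σ →₀ ℕ, (∀ l, l ≠ i → l ≠ k → s l = s' l) → r s = r s')
    (hz : ∀ s, ∃ e : ℤ, r s = e) (hS : (Tri i k 1 r).Finite) {m : ι → ℕ}
    (h : Gen (Reg (WinO i k 1 ρ p M r) m)) : Gen (Reg (Tri i k 1 r) m) := by
  refine tate_reg_aux hik le_rfl h0 h1 p M hr (fun s h5 => ?_) hS h
  obtain ⟨e, he⟩ := hz s
  have h6 : (0 : ℝ) < e - 3 * s i := by rw [← he]; linarith
  have h7 : (0 : ℤ) < e - 3 * s i := by exact_mod_cast h6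
  obtain ⟨c, hc⟩ := Int.eq_ofNat_of_zero_le h7.le
  have h8 : r s - 3 * s i = c := by rw [he]; exact_mod_cast hc
  rw [h8]
  refine ⟨3 * c, ?_, by push_cast; linarith, fun y hy => ?_⟩
  · have a1 : (0 : ℝ) ≤ s i := Nat.cast_nonneg _
    have : ((3 * c : ℕ) : ℝ) ≤ M := by push_cast; linarith [hD s]
    exact_mod_cast this
  · have := mem_I.mp hy
    rw [div_one]
    exact_mod_cast (by omega : y.1 + y.2 ≤ c)

end Pool.Agent.Lib.MP_efa40c_ag.HN
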