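import Pool.Agent.Lib.MP_efa40c_ag.HN.Push
import Pool.Agent.Lib.MP_efa40c_ag.HN.Tate

/-!
The chain of degenerations from the simplex of all monomials of degree at most `d` to a long thin
simplex.
-/

set_option autoImplicit false
set_option linter.unusedSectionVars false

namespace Pool.Agent.Lib.MP_efa40c_ag.HN

open MvPolynomial Finset

variable {σ ι : Type} [Fintype σ] [DecidableEq σ] [Fintype ι]

/-- The weight of the coordinates other than `i` and `k`. -/
noncomputable def chainRest (w : σ → ℝ) (i k : σ) (s : σ →₀ ℕ) : ℝ :=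
  ∑ l ∈ (univ.erase i).erase k, w l * s l

lemma chain_split (w : σ → ℝ) {i k : σ} (hik : i ≠ k) (s : σ →₀ ℕ) :
    ∑ l, w l * s l = w i * s i + w k * s k + chainRest w i k s := by
  rw [chainRest, ← add_sum_erase _ _ (mem_univ i),
    ← add_sum_erase _ _ (mem_erase.2 ⟨hik.symm, mem_univ k⟩), add_assoc]

lemma chain_rest_congr (w : σ → ℝ) {i k : σ} {s s' : σ →₀ ℕ}
    (h : ∀ l, l ≠ i → l ≠ k → s l = s' l) : chainRest w i k s = chainRest w i k s' := by
  refine sum_congr rfl fun l hl => ?_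
  rw [mem_erase, mem_erase] at hl
  rw [h l hl.2.1 hl.1]

lemma chain_rest_upd_i (w : σ → ℝ) (i k : σ) (s : σ →₀ ℕ) (a : ℕ) :
    chainRest w i k (s.update i a) = chainRest w i k s :=
  chain_rest_congr w fun l hl _ => by simp [Function.update_of_ne hl]

lemma chain_rest_upd_k (w : σ → ℝ) (i k : σ) (s : σ →₀ ℕ) (a : ℕ) :
    chainRest w i k (s.update k a) = chainRest w i k s :=
  chain_rest_congr w fun l _ hl => by simp [Function.update_of_ne hl]

lemma chain_rest_weights (w : σ → ℝ) (i k : σ) (a b : ℝ) (s : σ →₀ ℕ) :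
    chainRest (Function.update (Function.update w i a) k b) i k s = chainRest w i k s := by
  refine sum_congr rfl fun l hl => ?_
  rw [mem_erase, mem_erase] at hl
  rw [Function.update_of_ne hl.1, Function.update_of_ne hl.2.1]

lemma chain_rest_nonneg {w : σ → ℝ} (hw : ∀ l, 0 < w l) (i k : σ) (s : σ →₀ ℕ) :
    0 ≤ chainRest w i k s :=
  sum_nonneg fun l _ => mul_nonneg (hw l).le (Nat.cast_nonneg _)

lemma chain_fin {w : σ → ℝ} (hw : ∀ l, 0 < w l) (i k : σ) (D B₁ B₂ : ℝ) {S : Set (σ →₀ ℕ)}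
    (h : ∀ s ∈ S, chainRest w i k s ≤ D ∧ (s i : ℝ) ≤ B₁ ∧ (s k : ℝ) ≤ B₂) : S.Finite := by
  refine finite_of_bdd (fun l => if l = i then B₁ else if l = k then B₂ else D / w l) ?_
  intro s hs l
  obtain ⟨h1, h2, h3⟩ := h s hs
  split_ifs with hi hk
  · rw [hi]; exact h2
  · rw [hk]; exact h3
  · rw [le_div_iff₀ (hw l), mul_comm]
    refine le_trans ?_ h1
    exact single_le_sum (f := fun l => w l * (s l : ℝ))
      (fun l _ => mul_nonneg (hw l).le (Nat.cast_nonneg _))
      (mem_erase.2 ⟨hk, mem_erase.2 ⟨hi, mem_univ l⟩⟩)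

lemma chain_smp_eq {w : σ → ℝ} {i k : σ} (hik : i ≠ k) {β D : ℝ} (hi : w i = 1)
    (hk : w k = 1 / β) : Smp w D = Tri i k β fun s => D - chainRest w i k s := by
  ext s
  simp only [Smp, Tri, Set.mem_ofPred_eq, chain_split w hik, hi, hk]
  constructor <;> intro h
  · rw [div_eq_mul_inv]; rw [one_div] at h; linarith
  · rw [div_eq_mul_inv] at h; rw [one_div]; linarith

lemma chain_mem_new {w : σ → ℝ} {i k : σ} (hik : i ≠ k) {β ν D : ℝ} (hβ : 1 ≤ β) (hν : 3 ≤ ν)
    (s : σ →₀ ℕ) :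
    s ∈ Smp (Function.update (Function.update w i ν) k (1 / (β * ν))) D ↔
      (s k : ℝ) ≤ β * ν * (D - chainRest w i k s) - β * ν ^ 2 * s i := by
  have hp : 0 < β * ν := by positivity
  simp only [Smp, Set.mem_ofPred_eq, chain_split _ hik, chain_rest_weights,
    Function.update_self, Function.update_of_ne hik]
  have e : (s k : ℝ) = β * ν * (1 / (β * ν) * s k) := by field_simp
  constructor <;> intro h
  · rw [e]
    nlinarith [mul_le_mul_of_nonneg_left h hp.le]
  · have h2 : 1 / (β * ν) * s k ≤ D - chainRest w i k s - ν * s i := by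
      rw [one_div, inv_mul_le_iff₀ hp]
      nlinarith
    linarith

lemma chain_params {β ν : ℝ} (hβ : 1 ≤ β) (hν : 3 ≤ ν) :
    ∃ (p : ℕ) (ρ : ℝ), 0 < ρ ∧ ρ < 1 ∧ (p : ℝ) = 3 * β * ν - 9 * β * ρ := by
  have h9 : 9 ≤ 3 * β * ν := by nlinarith
  have hc : 1 ≤ ⌈3 * β * ν⌉₊ := Nat.one_le_ceil_iff.2 (by linarith)
  refine ⟨⌈3 * β * ν⌉₊ - 1, (3 * β * ν - (⌈3 * β * ν⌉₊ - 1 : ℕ)) / (9 * β), ?_, ?_, ?_⟩
  · refine div_pos ?_ (by positivity)
    have := Nat.ceil_lt_add_one (show 0 ≤ 3 * β * ν by linarith)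
    push_cast [hc]
    linarith
  · rw [div_lt_one (by positivity)]
    have := Nat.le_ceil (3 * β * ν)
    push_cast [hc]
    linarith
  · field_simp
    ring

/-- The intermediate set of exponents. -/
def chainMid (i k : σ) (β ν ρ x : ℝ) (M : ℕ) (r : (σ →₀ ℕ) → ℝ) : Set (σ →₀ ℕ) :=
  {s | (M : ℝ) - 3 * β * ρ * r s + 3 * β * ν * s i ≤ s k ∧
    (s k : ℝ) ≤ M + (β * ν - 3 * β * ρ) * r s - β * ν * (ν - 3) * (s i + x)}

lemma chain_mem_win {i k : σ} {β ν ρ : ℝ} {p M : ℕ} (hp : (p : ℝ) = 3 * β * ν - 9 * β * ρ)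
    (r : (σ →₀ ℕ) → ℝ) (s : σ →₀ ℕ) :
    s ∈ Win i k β ρ p M r ↔ (M : ℝ) - 3 * β * ρ * r s + 3 * β * ν * s i ≤ s k ∧
      (s k : ℝ) ≤ M + 3 * β * (1 - ρ) * r s + 3 * β * (ν - 3) * s i := by
  simp only [Win, Set.mem_ofPred_eq, hp]
  constructor <;> rintro ⟨h1, h2⟩ <;> constructor <;> linarith

lemma chain_win_fin {w : σ → ℝ} (hw : ∀ l, 0 < w l) (i k : σ) {β ν ρ : ℝ} (hβ : 1 ≤ β)
    (hν : 3 ≤ ν) (h1 : ρ < 1) {p : ℕ} (M : ℕ) (hp : (p : ℝ) = 3 * β * ν - 9 * β * ρ) (D : ℝ)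
    {r : (σ →₀ ℕ) → ℝ} (hr : ∀ s, r s = D - chainRest w i k s) :
    (Win i k β ρ p M r).Finite := by
  refine chain_fin hw i k D D (M + 3 * β * (1 - ρ) * D + 3 * β * (ν - 3) * D) fun s hs => ?_
  rw [chain_mem_win hp] at hs
  obtain ⟨h2, h3⟩ := hs
  have h4 := chain_rest_nonneg hw i k s
  have h5 : (0 : ℝ) ≤ s i := Nat.cast_nonneg _
  have h6 : 3 * (s i : ℝ) ≤ r s := by
    have : 3 * β * (3 * (s i : ℝ)) ≤ 3 * β * r s := by linarith
    exact le_of_mul_le_mul_left this (by positivity)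
  have h7 := hr s
  have h8 : 0 ≤ 3 * β * (1 - ρ) := mul_nonneg (by positivity) (by linarith)
  have h9 : 0 ≤ 3 * β * (ν - 3) := mul_nonneg (by positivity) (by linarith)
  refine ⟨by linarith, by linarith, ?_⟩
  have h10 := mul_le_mul_of_nonneg_left (show r s ≤ D by linarith) h8
  have h11 := mul_le_mul_of_nonneg_left (show (s i : ℝ) ≤ D by linarith) h9
  linarith

lemma chain_mid_fin {w : σ → ℝ} (hw : ∀ l, 0 < w l) (i k : σ) {β ν ρ x : ℝ} (hβ : 1 ≤ β)
    (hν : 3 ≤ ν) (h1 : ρ < 1) (hx : 0 ≤ x) (M : ℕ) (D : ℝ)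
    {r : (σ →₀ ℕ) → ℝ} (hr : ∀ s, r s = D - chainRest w i k s) :
    (chainMid i k β ν ρ x M r).Finite := by
  refine chain_fin hw i k D D (M + (β * ν - 3 * β * ρ) * D) fun s hs => ?_
  obtain ⟨h2, h3⟩ := hs
  have h4 := chain_rest_nonneg hw i k s
  have h5 : (0 : ℝ) ≤ s i := Nat.cast_nonneg _
  have hb : 0 < β * ν := by positivity
  have h9 : 0 ≤ β * ν * (ν - 3) := mul_nonneg hb.le (by linarith)
  have h12 := mul_nonneg h9 hx
  have h13 := mul_nonneg h9 h5
  have h6 : ν * (s i : ℝ) ≤ r s := by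
    have : β * ν * (ν * (s i : ℝ)) ≤ β * ν * r s := by linarith
    exact le_of_mul_le_mul_left this hb
  have h7 := hr s
  have h8 : 0 ≤ β * ν - 3 * β * ρ := by nlinarith
  have h14 : (s i : ℝ) ≤ ν * s i := by nlinarith
  refine ⟨by linarith, by linarith, ?_⟩
  have h10 := mul_le_mul_of_nonneg_left (show r s ≤ D by linarith) h8
  linarith

lemma chain_M (β D : ℝ) : ∃ M : ℕ, 3 * β * D + 1 ≤ M ∧ 1 ≤ M := by
  refine ⟨⌈3 * β * D⌉₊ + 1, ?_, by omega⟩
  have := Nat.le_ceil (3 * β * D)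
  push_cast
  linarith

theorem stretch_emp {w : σ → ℝ} (hw : ∀ l, 0 < w l) {i k : σ} (hik : i ≠ k) {β ν D : ℝ}
    (hβ : 1 ≤ β) (hν : 3 ≤ ν) (hi : w i = 1) (hk : w k = 1 / β) {m : ι → ℕ}
    (h : Gen (Emp (Smp (Function.update (Function.update w i ν) k (1 / (β * ν))) D) m)) :
    Gen (Emp (Smp w D) m) := by
  obtain ⟨p, ρ, h0, h1, hp⟩ := chain_params hβ hν
  obtain ⟨M, hM, hM1⟩ := chain_M β D
  have hfin := smp_finite hw D
  rw [chain_smp_eq hik hi hk] at hfin ⊢
  refine tate_emp hik hβ h0 h1 p M hM hM1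
    (fun s => sub_le_self _ (chain_rest_nonneg hw i k s))
    (fun s s' hs => by rw [chain_rest_congr w hs]) hfin ?_
  refine push_emp i (T := chainMid i k β ν ρ 0 M fun s => D - chainRest w i k s)
    (chain_win_fin hw i k hβ hν h1 M hp D fun _ => rfl) ?_ ?_
  · intro s a b ha hb hab
    rw [chain_mem_win hp] at ha hb
    simp only [chain_rest_upd_i, Finsupp.coe_update, Function.update_self,
      Function.update_of_ne hik.symm] at ha hb
    have hab' : (a : ℝ) + s i ≤ b := by exact_mod_cast hab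
    have ha0 : (0 : ℝ) ≤ a := Nat.cast_nonneg _
    have hL : 0 ≤ 3 * β * ν := by positivity
    have hR : 0 ≤ 3 * β * (ν - 3) := mul_nonneg (by positivity) (by linarith)
    constructor
    · have := mul_le_mul_of_nonneg_left (show (s i : ℝ) ≤ b by linarith) hL
      linarith [hb.1]
    · have e1 := mul_le_mul_of_nonneg_left hb.1 hR
      have e2 := mul_le_mul_of_nonneg_left ha.2 hL
      have e3 := mul_le_mul_of_nonneg_left hab' (mul_nonneg hL hR)
      refine le_of_mul_le_mul_left ?_ (show 0 < 9 * β by positivity)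
      linarith
  refine push_emp k (chain_mid_fin hw i k hβ hν h1 le_rfl M D fun _ => rfl) ?_ h
  intro s a b ha hb hab
  rw [chain_mem_new hik hβ hν]
  simp only [chainMid, Set.mem_ofPred_eq, chain_rest_upd_k, Finsupp.coe_update,
    Function.update_self, Function.update_of_ne hik] at ha hb
  have hab' : (a : ℝ) + s k ≤ b := by exact_mod_cast hab
  linarith [ha.1, hb.2]

theorem stretch_reg_aux {w : σ → ℝ} (hw : ∀ l, 0 < w l) {i k : σ} (hik : i ≠ k) {β ν ρ D : ℝ}
    (hβ : 1 ≤ β) (hν : 3 ≤ ν) (h0 : 0 < ρ) (h1 : ρ < 1) {p M : ℕ}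
    (hp : (p : ℝ) = 3 * β * ν - 9 * β * ρ) (hM : 3 * β * D ≤ M) {m : ι → ℕ}
    (h : Gen (Reg (Smp (Function.update (Function.update w i ν) k (1 / (β * ν)))
      (D - (ν - 3) - 1 / (β * ν))) m)) :
    Gen (Reg (WinO i k β ρ p M fun s => D - chainRest w i k s) m) := by
  have hL : 0 ≤ 3 * β * ν := by positivity
  have hR : 0 ≤ 3 * β * (ν - 3) := mul_nonneg (by positivity) (by linarith)
  refine push_reg i
    (T := {s | (M : ℝ) - 3 * β * ρ * (D - chainRest w i k s) + 3 * β * ν * s i ≤ s k ∧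
      (s k : ℝ) < M + (β * ν - 3 * β * ρ) * (D - chainRest w i k s) - β * ν * (ν - 3) * (s i + 1)})
    ((chain_win_fin hw i k hβ hν h1 M hp D fun _ => rfl).subset fun s hs => ⟨hs.1, hs.2.le⟩) ?_ ?_
  · rintro s ⟨h2, h3⟩
    simp only [WinO, Set.mem_ofPred_eq, hp, chain_rest_upd_i, Finsupp.coe_update,
      Function.update_self, Function.update_of_ne hik.symm]
    generalize D - chainRest w i k s = r at h2 h3 ⊢
    by_cases hc : (s k : ℝ) < M + 3 * β * (1 - ρ) * r
    · refine ⟨0, fun e he => ?_⟩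
      have he' : (e : ℝ) ≤ s i := by exact_mod_cast he
      have e1 := mul_le_mul_of_nonneg_left he' hL
      have e2 := mul_nonneg hR (Nat.cast_nonneg (α := ℝ) e)
      rw [zero_add]
      constructor <;> linarith
    · push Not at hc
      have hR' : 0 < 3 * β * (ν - 3) := by
        refine lt_of_le_of_ne hR fun h0 => ?_
        have h3ν : ν = 3 := by
          have : ν - 3 = 0 := by
            rcases mul_eq_zero.1 h0.symm with h | h
            · exact absurd h (by positivity)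
            · exact h
          linarith
        subst h3ν
        linarith
      set u : ℝ := (s k - M - 3 * β * (1 - ρ) * r) / (3 * β * (ν - 3)) with hu
      have hu0 : 0 ≤ u := div_nonneg (by linarith) hR
      have hu1 : 3 * β * (ν - 3) * u = s k - M - 3 * β * (1 - ρ) * r := by
        rw [hu, mul_div_cancel₀ _ hR'.ne']
      refine ⟨⌊u⌋₊ + 1, fun e he => ?_⟩
      have he' : (e : ℝ) ≤ s i := by exact_mod_cast he
      have he0 : (0 : ℝ) ≤ e := Nat.cast_nonneg _
      have c1 := Nat.lt_floor_add_one u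
      have c2 := Nat.floor_le hu0
      push_cast
      constructor
      · refine le_of_mul_le_mul_left ?_ hR'
        have e1 := mul_le_mul_of_nonneg_left (show (⌊u⌋₊ : ℝ) + 1 + e ≤ u + 1 + s i by linarith)
          (mul_nonneg hL hR)
        have e2 := mul_le_mul_of_nonneg_left h3.le (show 0 ≤ 9 * β by positivity)
        have e3 : 3 * β * ν * (3 * β * (ν - 3)) * u
            = 3 * β * ν * (s k - M - 3 * β * (1 - ρ) * r) := by rw [← hu1]; ring
        linarith
      · have e1 := mul_lt_mul_of_pos_left (show u < (⌊u⌋₊ : ℝ) + 1 + e by linarith) hR'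
        linarith
  refine push_reg k ((chain_mid_fin hw i k hβ hν h1 zero_le_one M D fun _ => rfl).subset
    fun s hs => ⟨hs.1, hs.2.le⟩) ?_ h
  intro s hs
  rw [chain_mem_new hik hβ hν] at hs
  simp only [Set.mem_ofPred_eq, chain_rest_upd_k, Finsupp.coe_update,
    Function.update_self, Function.update_of_ne hik]
  have h4 := chain_rest_nonneg hw i k s
  have hβ2 : β * ν * (1 / (β * ν)) = 1 := by field_simp
  set r : ℝ := D - chainRest w i k s with hr
  have hx : (0 : ℝ) ≤ s i := Nat.cast_nonneg _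
  have hleft : 0 ≤ (M : ℝ) - 3 * β * ρ * r + 3 * β * ν * s i := by
    have e1 := mul_nonneg hL hx
    have hb3 : 0 < 3 * β := by positivity
    rcases le_total 0 r with h | h
    · have e2 : ρ * r ≤ D := by nlinarith
      have e3 := mul_le_mul_of_nonneg_left e2 hb3.le
      linarith
    · have e2 : 0 ≤ 3 * β * ρ * (-r) := mul_nonneg (by positivity) (by linarith)
      have e3 : (0 : ℝ) ≤ M := Nat.cast_nonneg _
      linarith
  refine ⟨⌈(M : ℝ) - 3 * β * ρ * r + 3 * β * ν * s i⌉₊, fun e he => ?_⟩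
  have he' : (e : ℝ) ≤ s k := by exact_mod_cast he
  have he0 : (0 : ℝ) ≤ e := Nat.cast_nonneg _
  have c1 := Nat.le_ceil ((M : ℝ) - 3 * β * ρ * r + 3 * β * ν * s i)
  have c2 := Nat.ceil_lt_add_one hleft
  have e4 : β * ν * (D - (ν - 3) - 1 / (β * ν) - chainRest w i k s) =
      β * ν * r - β * ν * (ν - 3) - 1 := by
    rw [hr]
    linear_combination -hβ2
  push_cast
  constructor <;> linarith

theorem stretch_reg {w : σ → ℝ} (hw : ∀ l, 0 < w l) {i k : σ} (hik : i ≠ k) {β ν D : ℝ}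
    (hβ : 1 ≤ β) (hν : 3 ≤ ν) (hi : w i = 1) (hk : w k = 1 / β) {m : ι → ℕ}
    (h : Gen (Reg (Smp (Function.update (Function.update w i ν) k (1 / (β * ν)))
      (D - 2 + 1 / β - (ν - 3) - 1 / (β * ν))) m)) : Gen (Reg (Smp w D) m) := by
  obtain ⟨p, ρ, h0, h1, hp⟩ := chain_params hβ hν
  obtain ⟨M, hM, -⟩ := chain_M β D
  have hfin := smp_finite hw D
  have hβ1 : 1 / β ≤ 1 := by rw [div_le_one (by linarith)]; exact hβ
  rw [chain_smp_eq hik hi hk] at hfin ⊢
  refine tate_reg hik hβ h0 h1 p M hM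
    (fun s => sub_le_self _ (chain_rest_nonneg hw i k s))
    (fun s s' hs => by rw [chain_rest_congr w hs]) hfin ?_
  convert stretch_reg_aux hw hik hβ hν h0 h1 hp (M := M) (by nlinarith) h using 4
  ring

theorem stretch_reg_one {i k : σ} (hik : i ≠ k) {ν : ℝ} (hν : 3 ≤ ν) {d : ℕ} {m : ι → ℕ}
    (h : Gen (Reg (Smp (Function.update (Function.update (fun _ => 1) i ν) k (1 / (1 * ν)))
      (d - (ν - 3) - 1 / (1 * ν))) m)) : Gen (Reg (Smp (fun _ : σ => 1) d) m) := by
  obtain ⟨p, ρ, h0, h1, hp⟩ := chain_params le_rfl hν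
  obtain ⟨M, hM, -⟩ := chain_M 1 d
  have hw : ∀ l : σ, (0 : ℝ) < (fun _ => 1 : σ → ℝ) l := fun _ => one_pos
  have hfin := smp_finite hw d
  rw [chain_smp_eq (β := 1) hik rfl (by simp)] at hfin ⊢
  exact tate_reg_one hik h0 h1 p M hM (fun s => sub_le_self _ (chain_rest_nonneg hw i k s))
    (fun s s' hs => by rw [chain_rest_congr _ hs])
    (fun s => ⟨d - ∑ l ∈ (univ.erase i).erase k, s l, by simp [chainRest]⟩) hfin
    (stretch_reg_aux hw hik le_rfl hν h0 h1 hp (by linarith) h)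

/-- The weights after stretching along the variables in `J`. -/
noncomputable def chainW (k : σ) (ν : ℝ) (J : Finset σ) : σ → ℝ :=
  fun l => if l = k then 1 / ν ^ J.card else if l ∈ J then ν else 1

lemma chainW_pos (k : σ) {ν : ℝ} (hν : 3 ≤ ν) (J : Finset σ) (l : σ) : 0 < chainW k ν J l := by
  unfold chainW
  split_ifs <;> positivity

lemma chainW_insert {k i : σ} (ν : ℝ) {J : Finset σ} (hi : i ∉ J) :
    chainW k ν (insert i J) =
      Function.update (Function.update (chainW k ν J) i ν) k (1 / (ν ^ J.card * ν)) := by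
  funext l
  by_cases hk : l = k
  · subst hk
    simp [chainW, card_insert_of_notMem hi, pow_succ]
  · rw [Function.update_of_ne hk]
    by_cases hl : l = i
    · subst hl
      simp [chainW, hk]
    · simp [chainW, hk, hl]

lemma chain_smp_empty (k : σ) (ν : ℝ) (d : ℕ) :
    Smp (chainW k ν ∅) d = {s : σ →₀ ℕ | s.degree ≤ d} := by
  ext s
  have : ∀ l, chainW k ν ∅ l = 1 := fun l => by simp [chainW]
  simp only [Smp, Set.mem_ofPred_eq, this, one_mul, Finsupp.degree_eq_sum]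
  exact_mod_cast Iff.rfl

lemma chain_sum_full (k : σ) (ν : ℝ) (s : σ →₀ ℕ) :
    ∑ l, chainW k ν (univ.erase k) l * s l =
      s k / ν ^ (univ.erase k).card + ν * ((s.erase k).degree : ℝ) := by
  rw [← add_sum_erase _ _ (mem_univ k), Finsupp.degree_eq_sum,
    ← add_sum_erase _ _ (mem_univ k), Finsupp.erase_same, zero_add]
  push_cast
  rw [mul_sum]
  congr 1
  · simp [chainW, div_eq_mul_inv, mul_comm]
  · refine sum_congr rfl fun l hl => ?_
    have hl' := (mem_erase.1 hl).1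
    simp [chainW, hl', Finsupp.erase_ne hl']

lemma chain_emp (k : σ) {ν D : ℝ} (hν : 3 ≤ ν) {m : ι → ℕ} (J : Finset σ) (hJ : k ∉ J)
    (h : Gen (Emp (Smp (chainW k ν J) D) m)) : Gen (Emp (Smp (chainW k ν ∅) D) m) := by
  induction J using Finset.induction_on with
  | empty => exact h
  | insert i J hi ih =>
    have hik : i ≠ k := fun e => hJ (e ▸ mem_insert_self i J)
    refine ih (fun e => hJ (mem_insert_of_mem e)) ?_
    rw [chainW_insert ν hi] at h
    exact stretch_emp (chainW_pos k hν J) hik (one_le_pow₀ (by linarith)) hν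
      (by simp [chainW, hik, hi]) (by simp [chainW]) h

lemma chain_reg (k : σ) {ν : ℝ} (hν : 3 ≤ ν) {d : ℕ} {m : ι → ℕ} (J : Finset σ) (hJ : k ∉ J)
    (h0 : J.Nonempty)
    (h : Gen (Reg (Smp (chainW k ν J) (d + 2 - J.card * (ν - 1) - 1 / ν ^ J.card)) m)) :
    Gen (Reg (Smp (chainW k ν ∅) d) m) := by
  induction J using Finset.induction_on with
  | empty => exact absurd h0 not_nonempty_empty
  | insert i J hi ih =>
    have hik : i ≠ k := fun e => hJ (e ▸ mem_insert_self i J)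
    rw [chainW_insert ν hi, card_insert_of_notMem hi] at h
    rcases J.eq_empty_or_nonempty with rfl | hJ0
    · have e : chainW k ν ∅ = fun _ => 1 := funext fun l => by simp [chainW]
      rw [e] at h ⊢
      refine stretch_reg_one hik hν ?_
      convert h using 4 <;> simp
      ring
    refine ih (fun e => hJ (mem_insert_of_mem e)) hJ0 ?_
    refine stretch_reg (β := ν ^ J.card) (chainW_pos k hν J) hik (one_le_pow₀ (by linarith)) hν
      (by simp [chainW, hik, hi]) (by simp [chainW]) ?_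
    convert h using 3
    push_cast
    ring

lemma chain_inj : Function.Injective fun l : ι => (((Fintype.equivFin ι l : ℕ) : ℂ)) := by
  intro a b hab
  beta_reduce at hab
  exact (Fintype.equivFin ι).injective (Fin.ext (by exact_mod_cast hab))

theorem affine_emp {n : ℕ} {ν : ℝ} (hν : 3 ≤ ν) (hs : (Fintype.card ι : ℝ) ≤ ν ^ (n + 1)) {d : ℕ}
    {m : ι → ℕ} (h : ν ^ n * d < ∑ l, (m l : ℝ)) :
    Gen (Emp {s : Fin (n + 1) →₀ ℕ | s.degree ≤ d} m) := by
  rw [← chain_smp_empty 0 ν]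
  refine chain_emp 0 hν (univ.erase 0) (notMem_erase _ _) ?_
  refine gen_emp (RingHom.id ℂ) (smp_finite (chainW_pos 0 hν _) _)
    (axis_emp 0 chain_inj fun s hs' => ?_)
  simp only [Smp, Set.mem_ofPred_eq, chain_sum_full, card_erase_of_mem (mem_univ _), card_univ,
    Fintype.card_fin, Nat.add_sub_cancel] at hs'
  generalize (s.erase 0).degree = t at hs' ⊢
  have hp : 0 < ν ^ n := by positivity
  have h1 : (s 0 : ℝ) ≤ ν ^ n * d - ν ^ (n + 1) * t := by
    have e : (s 0 : ℝ) = ν ^ n * (s 0 / ν ^ n) := by field_simp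
    have := mul_le_mul_of_nonneg_left hs' hp.le
    rw [pow_succ]
    linarith
  have h2 : ∑ l, (m l : ℝ) - Fintype.card ι * t ≤ ((∑ l, (m l - t) : ℕ) : ℝ) := by
    rw [← card_univ, ← nsmul_eq_mul, ← sum_const, ← sum_sub_distrib, Nat.cast_sum]
    refine sum_le_sum fun l _ => ?_
    rw [sub_le_iff_le_add]
    exact_mod_cast (by omega : m l ≤ m l - t + t)
  have h3 := mul_le_mul_of_nonneg_right hs (Nat.cast_nonneg (α := ℝ) t)
  have h4 : (s 0 : ℝ) < ((∑ l, (m l - t) : ℕ) : ℝ) := by linarith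
  exact_mod_cast h4

theorem affine_reg {n : ℕ} (hn : 1 ≤ n) {ν : ℝ} (hν : 3 ≤ ν) {d μ : ℕ} {m : ι → ℕ}
    (hm : ∀ l, m l ≤ μ) (hs : ∑ l, (m l : ℝ) ≤ ν ^ (n + 1) * μ) (h : ν * (μ + n) ≤ d + n + 2) :
    Gen (Reg {s : Fin (n + 1) →₀ ℕ | s.degree ≤ d} m) := by
  rw [← chain_smp_empty 0 ν]
  have hc : (univ.erase (0 : Fin (n + 1))).card = n := by simp
  refine chain_reg 0 hν (univ.erase 0) (notMem_erase _ _) (card_pos.mp (by omega)) ?_
  refine gen_reg (RingHom.id ℂ) (smp_finite (chainW_pos 0 hν _) _)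
    (axis_reg 0 chain_inj fun s hs' => ?_)
  simp only [Smp, Set.mem_ofPred_eq, chain_sum_full, hc]
  generalize (s.erase 0).degree = t at hs' ⊢
  have hp : 0 < ν ^ n := by positivity
  have ht : t < μ := by
    by_contra hc
    rw [sum_eq_zero fun l _ => Nat.sub_eq_zero_of_le ((hm l).trans (not_lt.mp hc))] at hs'
    omega
  have h1 : μ * ∑ l, (m l - t) ≤ (∑ l, m l) * (μ - t) := by
    rw [mul_sum, sum_mul]
    refine sum_le_sum fun l _ => ?_
    rw [Nat.mul_sub, Nat.mul_sub, mul_comm μ (m l)]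
    exact Nat.sub_le_sub_left (Nat.mul_le_mul_right t (hm l)) _
  have h2 : (μ : ℝ) * (s 0 + 1) ≤ (∑ l, (m l : ℝ)) * (μ - t) := by
    rw [← Nat.cast_sub ht.le]
    exact_mod_cast (Nat.mul_le_mul_left μ hs').trans h1
  have h3 : (0 : ℝ) < μ := by exact_mod_cast (by omega)
  have h4 : (0 : ℝ) ≤ (μ : ℝ) - t := by
    rw [sub_nonneg]
    exact_mod_cast ht.le
  have h5 : ((s 0 : ℝ) + 1) / ν ^ n ≤ ν * ((μ : ℝ) - t) := by
    rw [div_le_iff₀ hp]
    refine le_of_mul_le_mul_left (h2.trans ?_) h3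
    have := mul_le_mul_of_nonneg_right hs h4
    rw [pow_succ] at this
    linarith
  rw [add_div] at h5
  linarith

end Pool.Agent.Lib.MP_efa40c_ag.HN
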