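import Mathlib

/-!
Linear systems with prescribed monomials: emptiness, independence of the conditions, and their
behaviour for general points.
-/

set_option autoImplicit false

namespace Pool.Agent.Lib.MP_efa40c_ag.HN

open MvPolynomial Finset

section Defs

variable {σ ι R : Type} [CommRing R]

/-- Vanishing to order at least `m` at the point `p`. -/
def Van (m : ℕ) (p : σ → R) (F : MvPolynomial σ R) : Prop := F ∈ RingHom.ker (eval p) ^ m

/-- Translation by `p`. -/
noncomputable def sh (p : σ → R) : MvPolynomial σ R →ₐ[R] MvPolynomial σ R :=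
  aeval fun l => X l + C (p l)

/-- The exponents of degree less than `m`. -/
noncomputable def low (σ : Type) [Finite σ] (m : ℕ) : Finset (σ →₀ ℕ) :=
  (Finsupp.finite_of_degree_lt m).toFinset

lemma mem_low [Finite σ] {m : ℕ} {α : σ →₀ ℕ} : α ∈ low σ m ↔ α.degree < m := by
  simp [low]

/-- The vanishing conditions. -/
abbrev Cond (σ : Type) [Finite σ] (m : ι → ℕ) : Type := Σ l : ι, low σ (m l)

/-- The Taylor coefficients of low order at all the points. -/
noncomputable def jet [Finite σ] (m : ι → ℕ) (p : ι → σ → R) :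
    MvPolynomial σ R →ₗ[R] (Cond σ m → R) :=
  LinearMap.pi fun κ => lcoeff R κ.2.1 ∘ₗ (sh (p κ.1)).toLinearMap

lemma jet_apply [Finite σ] (m : ι → ℕ) (p : ι → σ → R) (F : MvPolynomial σ R) (κ : Cond σ m) :
    jet m p F κ = coeff κ.2.1 (sh (p κ.1) F) := rfl

/-- No nonzero polynomial with monomials in `S` vanishes to order `m l` at each `p l`. -/
def Emp (S : Set (σ →₀ ℕ)) (m : ι → ℕ) (p : ι → σ → R) : Prop :=
  ∀ F ∈ restrictSupport R S, (∀ l, Van (m l) (p l) F) → F = 0

/-- The conditions are independent on the polynomials with monomials in `S`. -/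
def Reg [Finite σ] (S : Set (σ →₀ ℕ)) (m : ι → ℕ) (p : ι → σ → R) : Prop :=
  ∀ y, ∃ F ∈ restrictSupport R S, jet m p F = y

/-- The property holds off a hypersurface of the space of configurations. -/
def Gen (P : (ι → σ → ℂ) → Prop) : Prop :=
  ∃ E : MvPolynomial (ι × σ) ℂ, E ≠ 0 ∧
    ∀ p : ι → σ → ℂ, eval (fun x : ι × σ => p x.1 x.2) E ≠ 0 → P p

/-- The exponents of weight at most `D`. -/
def Smp [Fintype σ] (w : σ → ℝ) (D : ℝ) : Set (σ →₀ ℕ) := {s | ∑ l, w l * s l ≤ D}

end Defs

variable {σ ι : Type}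

lemma Gen.mono {P Q : (ι → σ → ℂ) → Prop} (h : Gen P) (hPQ : ∀ p, P p → Q p) : Gen Q := by
  obtain ⟨E, hE, H⟩ := h
  exact ⟨E, hE, fun p hp => hPQ p (H p hp)⟩

lemma Emp.mono {R : Type} [CommRing R] {S S' : Set (σ →₀ ℕ)} {m : ι → ℕ} {p : ι → σ → R}
    (h : Emp S' m p) (hS : S ⊆ S') : Emp S m p :=
  fun F hF hv => h F (restrictSupport_mono R hS hF) hv

lemma Reg.mono [Finite σ] {R : Type} [CommRing R] {S S' : Set (σ →₀ ℕ)} {m : ι → ℕ}
    {p : ι → σ → R} (h : Reg S m p) (hS : S ⊆ S') : Reg S' m p := fun y => by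
  obtain ⟨F, h1, h2⟩ := h y
  exact ⟨F, restrictSupport_mono R hS h1, h2⟩

section Matrices

variable {A K : Type*} [CommRing A] {ρ τ : Type*} [Fintype ρ] [Fintype τ] [DecidableEq τ]

lemma gen_exists_left_inv_field [Field K] (M : Matrix ρ τ K) (h : ∀ c, M.mulVec c = 0 → c = 0) :
    ∃ N : Matrix τ ρ K, N * M = 1 := by
  classical
  obtain ⟨g, hg⟩ := LinearMap.exists_leftInverse_of_injective (Matrix.toLin' M)
    (LinearMap.ker_eq_bot'.mpr (fun c hc => h c (by simpa using hc)))
  refine ⟨LinearMap.toMatrix' g, ?_⟩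
  have := congrArg LinearMap.toMatrix' hg
  rwa [LinearMap.toMatrix'_comp, LinearMap.toMatrix'_toLin', LinearMap.toMatrix'_id] at this

lemma gen_exists_left_inv [IsDomain A] (M : Matrix ρ τ A) (h : ∀ c, M.mulVec c = 0 → c = 0) :
    ∃ D : A, D ≠ 0 ∧ ∃ N : Matrix τ ρ A, N * M = D • (1 : Matrix τ τ A) := by
  classical
  let L := FractionRing A
  have hinj : Function.Injective (algebraMap A L) := IsFractionRing.injective A L
  have h' : ∀ c, (M.map (algebraMap A L)).mulVec c = 0 → c = 0 := by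
    intro c hc
    obtain ⟨b, hb⟩ := IsLocalization.exist_integer_multiples_of_finite (nonZeroDivisors A) c
    choose c' hc' using hb
    have h1 : M.mulVec c' = 0 := by
      funext r
      apply hinj
      have := congrFun hc r
      simp only [Matrix.mulVec, dotProduct, Matrix.map_apply, Pi.zero_apply] at this ⊢
      rw [map_sum, map_zero]
      simp only [map_mul, hc', Algebra.smul_def]
      have h2 : ∑ x, algebraMap A L (M r x) * (algebraMap A L b * c x)
          = algebraMap A L b * ∑ x, algebraMap A L (M r x) * c x := by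
        rw [Finset.mul_sum]
        apply Finset.sum_congr rfl
        intro x _
        ring
      rw [h2, this, mul_zero]
    have h2 := h c' h1
    funext j
    have h3 := hc' j
    rw [h2, Pi.zero_apply, map_zero, Algebra.smul_def] at h3
    have hb0 : algebraMap A L b ≠ 0 := by
      intro h0
      exact nonZeroDivisors.ne_zero b.2 (hinj (by rw [h0, map_zero]))
    exact (mul_eq_zero.mp h3.symm).resolve_left hb0
  obtain ⟨N, hN⟩ := gen_exists_left_inv_field _ h'
  obtain ⟨b, hb⟩ := IsLocalization.exist_integer_multiples_of_finite (nonZeroDivisors A)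
    (fun x : τ × ρ => N x.1 x.2)
  choose N' hN' using hb
  refine ⟨b, nonZeroDivisors.ne_zero b.2, Matrix.of fun i j => N' (i, j), ?_⟩
  ext i j
  apply hinj
  have := congrFun (congrFun hN i) j
  simp only [Matrix.mul_apply, Matrix.map_apply] at this
  simp only [Matrix.mul_apply, Matrix.of_apply, map_sum, map_mul, hN', Algebra.smul_def,
    Matrix.smul_apply]
  have h2 : ∑ x, algebraMap A L b * N i x * algebraMap A L (M x j)
      = algebraMap A L b * ∑ x, N i x * algebraMap A L (M x j) := by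
    rw [Finset.mul_sum]
    apply Finset.sum_congr rfl
    intro x _
    ring
  rw [h2, this]
  simp only [Matrix.one_apply]
  split_ifs <;> simp

lemma gen_ker_trivial_open [IsDomain A] (M : Matrix ρ τ A) (h : ∀ c, M.mulVec c = 0 → c = 0) :
    ∃ D : A, D ≠ 0 ∧ ∀ (K : Type) [CommRing K] [NoZeroDivisors K] (φ : A →+* K), φ D ≠ 0 →
      ∀ c, (M.map φ).mulVec c = 0 → c = 0 := by
  obtain ⟨D, hD, N, hN⟩ := gen_exists_left_inv M h
  refine ⟨D, hD, fun K _ _ φ hφ c hc => ?_⟩
  have h1 : N.map φ * M.map φ = φ D • (1 : Matrix τ τ K) := by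
    rw [← Matrix.map_mul, hN]
    ext i j
    simp only [Matrix.map_apply, Matrix.smul_apply, smul_eq_mul, map_mul, Matrix.one_apply]
    split_ifs <;> simp
  have h2 : (N.map φ * M.map φ).mulVec c = 0 := by
    rw [← Matrix.mulVec_mulVec, hc, Matrix.mulVec_zero]
  rw [h1, Matrix.smul_mulVec, Matrix.one_mulVec] at h2
  funext j
  have := congrFun h2 j
  simp only [Pi.smul_apply, smul_eq_mul, Pi.zero_apply] at this
  exact (mul_eq_zero.mp this).resolve_left hφ

lemma gen_ker_of_map {A' : Type*} [IsDomain A] [CommRing A'] [IsDomain A'] (φ : A →+* A')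
    (M : Matrix ρ τ A) (h : ∀ c, (M.map φ).mulVec c = 0 → c = 0) :
    ∀ c, M.mulVec c = 0 → c = 0 := by
  have h1 : ∀ c, (M.map φ.rangeRestrict).mulVec c = 0 → c = 0 := by
    intro c hc
    have h2 := h (fun x => (c x : A')) (by
      funext r
      have := congrArg φ.range.subtype (congrFun hc r)
      simpa [Matrix.mulVec, dotProduct] using this)
    funext x
    exact Subtype.ext (congrFun h2 x)
  obtain ⟨E, hE, N, hN⟩ := gen_exists_left_inv _ h1
  choose N' hN' using fun i j => φ.rangeRestrict_surjective (N i j)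
  have h2 : (Matrix.of N' * M).det ≠ 0 := by
    intro h0
    have h3 := congrArg φ.rangeRestrict h0
    rw [RingHom.map_det, map_zero, RingHom.mapMatrix_apply, Matrix.map_mul,
      show (Matrix.of N').map φ.rangeRestrict = N from Matrix.ext hN', hN, Matrix.det_smul,
      Matrix.det_one, mul_one] at h3
    exact pow_ne_zero _ hE h3
  intro c hc
  apply Matrix.eq_zero_of_mulVec_eq_zero h2
  rw [← Matrix.mulVec_mulVec, hc, Matrix.mulVec_zero]

omit [DecidableEq τ] in
lemma gen_surj_iff [Field K] [DecidableEq ρ] (M : Matrix ρ τ K) :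
    (∀ y, ∃ c, M.mulVec c = y) ↔ ∀ c, M.transpose.mulVec c = 0 → c = 0 := by
  constructor
  · intro h c hc
    funext r
    obtain ⟨x, hx⟩ := h (Pi.single r 1)
    have h1 : c ⬝ᵥ M.mulVec x = 0 := by
      rw [Matrix.dotProduct_mulVec, ← Matrix.mulVec_transpose, hc, zero_dotProduct]
    rw [hx, dotProduct_single, mul_one] at h1
    exact h1
  · intro h y
    obtain ⟨N, hN⟩ := gen_exists_left_inv_field _ h
    have h1 := congrArg Matrix.transpose hN
    rw [Matrix.transpose_mul, Matrix.transpose_transpose, Matrix.transpose_one] at h1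
    exact ⟨N.transpose.mulVec y, by rw [Matrix.mulVec_mulVec, h1, Matrix.one_mulVec]⟩

end Matrices

lemma gen_transfer {R H : Type} [CommRing R] [CommRing H] {m : ℕ} {p : σ → R}
    {F : MvPolynomial σ R} (h : Van m p F) (φ : MvPolynomial σ R →+* H) (J : Ideal H)
    (hJ : ∀ l, φ (X l - C (p l)) ∈ J) : φ F ∈ J ^ m := by
  have h1 : ∀ G : MvPolynomial σ R, φ (G - C (eval p G)) ∈ J := by
    intro G
    induction G using MvPolynomial.induction_on with
    | C a => simp
    | add G₁ G₂ h₁ h₂ =>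
      have : G₁ + G₂ - C (eval p (G₁ + G₂)) = (G₁ - C (eval p G₁)) + (G₂ - C (eval p G₂)) := by
        rw [map_add, map_add]
        ring
      rw [this, map_add]
      exact J.add_mem h₁ h₂
    | mul_X G l h₁ =>
      have : G * X l - C (eval p (G * X l))
          = (G - C (eval p G)) * X l + C (eval p G) * (X l - C (p l)) := by
        rw [map_mul, eval_X, map_mul]
        ring
      rw [this, map_add, map_mul, map_mul]
      exact J.add_mem (J.mul_mem_right _ h₁) (J.mul_mem_left _ (hJ l))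
  have h2 : Ideal.map φ (RingHom.ker (eval p)) ≤ J := by
    rw [Ideal.map_le_iff_le_comap]
    intro G hG
    have := h1 G
    rwa [RingHom.mem_ker.mp hG, map_zero, sub_zero] at this
  have h3 := Ideal.mem_map_of_mem φ h
  rw [Ideal.map_pow] at h3
  exact Ideal.pow_right_mono h2 m h3

lemma gen_sh_neg {R : Type} [CommRing R] (p : σ → R) (F : MvPolynomial σ R) :
    sh (-p) (sh p F) = F := by
  have : (sh (-p)).comp (sh p) = AlgHom.id R _ := by
    ext l : 1
    simp [sh]
  exact DFunLike.congr_fun this F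

lemma gen_map_sh {R R' : Type} [CommRing R] [CommRing R'] (φ : R →+* R') (p : σ → R)
    (F : MvPolynomial σ R) : map φ (sh p F) = sh (fun l => φ (p l)) (map φ F) := by
  induction F using MvPolynomial.induction_on with
  | C a => simp [sh]
  | add G₁ G₂ h₁ h₂ => simp only [map_add, h₁, h₂]
  | mul_X G l h₁ => simp only [map_mul, h₁]; simp [sh]

lemma van_iff [Finite σ] {R : Type} [CommRing R] {m : ℕ} {p : σ → R} {F : MvPolynomial σ R} :
    Van m p F ↔ ∀ α : σ →₀ ℕ, α.degree < m → coeff α (sh p F) = 0 := by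
  rw [← mem_pow_idealOfVars_iff']
  constructor
  · intro h
    refine gen_transfer h (sh p).toRingHom _ fun l => ?_
    have : (sh p).toRingHom (X l - C (p l)) = X l := by simp [sh]
    rw [this]
    exact Ideal.subset_span ⟨l, rfl⟩
  · intro h
    have h2 : Ideal.map (sh (-p)).toRingHom (idealOfVars σ R) ≤ RingHom.ker (eval p) := by
      rw [Ideal.map_le_iff_le_comap, Ideal.span_le]
      rintro _ ⟨l, rfl⟩
      simp [sh, RingHom.mem_ker]
    have h3 := Ideal.mem_map_of_mem (sh (-p)).toRingHom h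
    rw [Ideal.map_pow] at h3
    have h4 := Ideal.pow_right_mono h2 m h3
    have h5 : (sh (-p)).toRingHom (sh p F) = F := gen_sh_neg p F
    rwa [h5] at h4

lemma jet_eq_zero [Finite σ] {R : Type} [CommRing R] {m : ι → ℕ} {p : ι → σ → R}
    {F : MvPolynomial σ R} : jet m p F = 0 ↔ ∀ l, Van (m l) (p l) F := by
  constructor
  · intro h l
    rw [van_iff]
    intro α hα
    exact congrFun h ⟨l, α, mem_low.mpr hα⟩
  · intro h
    funext x
    exact van_iff.mp (h x.1) _ (mem_low.mp x.2.2)

/-- A ring homomorphism which sends `X l - p l` into `J` sends the polynomials vanishing to order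
`m` at `p` into `J ^ m`. -/
lemma Van.transfer [Finite σ] {R H : Type} [CommRing R] [CommRing H] {m : ℕ} {p : σ → R}
    {F : MvPolynomial σ R} (h : Van m p F) (φ : MvPolynomial σ R →+* H) (J : Ideal H)
    (hJ : ∀ l, φ (X l - C (p l)) ∈ J) : φ F ∈ J ^ m := by
  exact gen_transfer h φ J hJ

lemma Gen.exists [Finite σ] [Finite ι] {P : (ι → σ → ℂ) → Prop} (h : Gen P)
    {E : MvPolynomial σ ℂ} (hE : E ≠ 0) : ∃ p, P p ∧ ∀ l, eval (p l) E ≠ 0 := by
  classical
  obtain ⟨E₀, hE₀, H⟩ := h
  have := Fintype.ofFinite ι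
  have h1 : E₀ * ∏ l : ι, rename (fun j : σ => (l, j)) E ≠ 0 := by
    refine mul_ne_zero hE₀ (prod_ne_zero_iff.mpr fun l _ h0 => hE ?_)
    exact rename_injective _ (fun a b hab => (Prod.mk.inj hab).2) (by rw [h0, map_zero])
  obtain ⟨x, hx⟩ : ∃ x : ι × σ → ℂ, eval x (E₀ * ∏ l : ι, rename (fun j : σ => (l, j)) E) ≠ 0 := by
    by_contra hc
    push Not at hc
    exact h1 (MvPolynomial.funext fun x => by rw [hc x, map_zero])
  rw [map_mul, map_prod] at hx
  refine ⟨fun l j => x (l, j), H _ (left_ne_zero_of_mul hx), fun l => ?_⟩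
  have h2 := prod_ne_zero_iff.mp (right_ne_zero_of_mul hx) l (mem_univ l)
  rwa [eval_rename] at h2

/-- The matrix of the vanishing conditions on the monomials of `s`. -/
noncomputable def genMat [Finite σ] {R : Type} [CommRing R] (s : Finset (σ →₀ ℕ)) (m : ι → ℕ)
    (p : ι → σ → R) : Matrix (Cond σ m) s R :=
  Matrix.of fun x t => jet m p (monomial t.1 1) x

lemma genMat_map [Finite σ] {R R' : Type} [CommRing R] [CommRing R'] (φ : R →+* R')
    (s : Finset (σ →₀ ℕ)) (m : ι → ℕ) (p : ι → σ → R) :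
    (genMat s m p).map φ = genMat s m (fun l j => φ (p l j)) := by
  ext x t
  simp only [genMat, Matrix.map_apply, Matrix.of_apply, jet_apply]
  rw [← coeff_map, gen_map_sh, map_monomial, map_one]

lemma genMat_mulVec [Finite σ] {R : Type} [CommRing R] (s : Finset (σ →₀ ℕ)) (m : ι → ℕ)
    (p : ι → σ → R) (c : s → R) :
    (genMat s m p).mulVec c = jet m p (∑ t : s, c t • monomial t.1 1) := by
  funext x
  simp only [genMat, Matrix.mulVec, dotProduct, Matrix.of_apply, map_sum, map_smul,
    Finset.sum_apply, Pi.smul_apply, smul_eq_mul, mul_comm]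

lemma gen_coeff_comb {R : Type} [CommRing R] (s : Finset (σ →₀ ℕ)) (c : s → R) (t : s) :
    coeff t.1 (∑ u : s, c u • (monomial u.1 1 : MvPolynomial σ R)) = c t := by
  classical
  rw [coeff_sum, Finset.sum_eq_single t]
  · simp
  · intro u _ hu
    rw [coeff_smul, coeff_monomial, if_neg (fun h => hu (Subtype.ext h)), smul_zero]
  · simp

lemma gen_comb_mem {R : Type} [CommRing R] {S : Set (σ →₀ ℕ)} (hS : S.Finite)
    (c : hS.toFinset → R) :
    ∑ u : hS.toFinset, c u • (monomial u.1 1 : MvPolynomial σ R) ∈ restrictSupport R S :=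
  Submodule.sum_mem _ fun u _ => Submodule.smul_mem _ _
    ((monomial_mem_restrictSupport R).mpr (Or.inl (hS.mem_toFinset.mp u.2)))

lemma gen_eq_comb {R : Type} [CommRing R] {S : Set (σ →₀ ℕ)} (hS : S.Finite)
    {F : MvPolynomial σ R} (hF : F ∈ restrictSupport R S) :
    ∑ u : hS.toFinset, coeff u.1 F • (monomial u.1 1 : MvPolynomial σ R) = F := by
  classical
  rw [Finset.sum_coe_sort hS.toFinset
    (fun u => coeff u F • (monomial u 1 : MvPolynomial σ R))]
  conv_rhs => rw [F.as_sum]
  symm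
  have h1 : ∀ u, coeff u F • (monomial u 1 : MvPolynomial σ R) = monomial u (coeff u F) := by
    intro u
    rw [smul_monomial, smul_eq_mul, mul_one]
  simp only [h1]
  refine Finset.sum_subset (fun u hu => hS.mem_toFinset.mpr (hF hu)) fun u _ hu => ?_
  rw [notMem_support_iff.mp hu, map_zero]

lemma gen_emp_iff [Finite σ] {R : Type} [CommRing R] {S : Set (σ →₀ ℕ)} (hS : S.Finite)
    (m : ι → ℕ) (p : ι → σ → R) :
    Emp S m p ↔ ∀ c, (genMat hS.toFinset m p).mulVec c = 0 → c = 0 := by
  constructor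
  · intro h c hc
    rw [genMat_mulVec, jet_eq_zero] at hc
    have h1 := h _ (gen_comb_mem hS c) hc
    funext t
    rw [← gen_coeff_comb _ c t, h1, coeff_zero, Pi.zero_apply]
  · intro h F hF hv
    have h1 := gen_eq_comb hS hF
    have h2 := h (fun u => coeff u.1 F) (by rw [genMat_mulVec, h1]; exact jet_eq_zero.mpr hv)
    rw [← h1]
    exact Finset.sum_eq_zero fun u _ => by rw [show coeff u.1 F = 0 from congrFun h2 u, zero_smul]

lemma gen_reg_iff [Finite σ] {R : Type} [CommRing R] {S : Set (σ →₀ ℕ)} (hS : S.Finite)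
    (m : ι → ℕ) (p : ι → σ → R) :
    Reg S m p ↔ ∀ y, ∃ c, (genMat hS.toFinset m p).mulVec c = y := by
  constructor
  · intro h y
    obtain ⟨F, hF, hy⟩ := h y
    exact ⟨fun u => coeff u.1 F, by rw [genMat_mulVec, gen_eq_comb hS hF, hy]⟩
  · intro h y
    obtain ⟨c, hc⟩ := h y
    exact ⟨_, gen_comb_mem hS c, by rw [← genMat_mulVec, hc]⟩

theorem gen_emp [Finite σ] [Finite ι] {F : Type} [Field F] (κ : ℂ →+* F) {S : Set (σ →₀ ℕ)}
    (hS : S.Finite) {m : ι → ℕ} {p : ι → σ → F} (h : Emp S m p) : Gen (Emp S m) := by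
  classical
  have := Fintype.ofFinite ι
  let φ : MvPolynomial (ι × σ) ℂ →+* F := eval₂Hom κ fun x => p x.1 x.2
  let M := genMat hS.toFinset m (fun l j => (X (l, j) : MvPolynomial (ι × σ) ℂ))
  have h1 : M.map φ = genMat hS.toFinset m p := by
    rw [genMat_map]
    simp [φ]
  rw [gen_emp_iff hS, ← h1] at h
  obtain ⟨E, hE, H⟩ := gen_ker_trivial_open M (gen_ker_of_map φ M h)
  refine ⟨E, hE, fun q hq => ?_⟩
  have h2 := H ℂ _ hq
  rw [genMat_map] at h2
  rw [gen_emp_iff hS]
  simpa only [eval_X] using h2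

theorem gen_reg [Finite σ] [Finite ι] {F : Type} [Field F] (κ : ℂ →+* F) {S : Set (σ →₀ ℕ)}
    (hS : S.Finite) {m : ι → ℕ} {p : ι → σ → F} (h : Reg S m p) : Gen (Reg S m) := by
  classical
  have := Fintype.ofFinite ι
  let φ : MvPolynomial (ι × σ) ℂ →+* F := eval₂Hom κ fun x => p x.1 x.2
  let M := genMat hS.toFinset m (fun l j => (X (l, j) : MvPolynomial (ι × σ) ℂ))
  have h1 : M.map φ = genMat hS.toFinset m p := by
    rw [genMat_map]
    simp [φ]
  rw [gen_reg_iff hS, gen_surj_iff, ← h1, ← Matrix.transpose_map] at h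
  obtain ⟨E, hE, H⟩ := gen_ker_trivial_open M.transpose (gen_ker_of_map φ _ h)
  refine ⟨E, hE, fun q hq => ?_⟩
  have h2 := H ℂ _ hq
  rw [Matrix.transpose_map, genMat_map] at h2
  rw [gen_reg_iff hS, gen_surj_iff]
  simpa only [eval_X] using h2

/-- As many polynomials as conditions, no combination of which vanishes, give independence. -/
theorem reg_of_family [Finite σ] [Finite ι] {F : Type} [Field F] {S : Set (σ →₀ ℕ)} {m : ι → ℕ}
    {p : ι → σ → F} [Fintype (Cond σ m)] (f : Cond σ m → MvPolynomial σ F)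
    (hf : ∀ x, f x ∈ restrictSupport F S)
    (h : ∀ c : Cond σ m → F, (∀ l, Van (m l) (p l) (∑ x, c x • f x)) → c = 0) : Reg S m p := by
  classical
  let g : (Cond σ m → F) →ₗ[F] (Cond σ m → F) := jet m p ∘ₗ Fintype.linearCombination F f
  have hg : ∀ c, g c = jet m p (∑ x, c x • f x) := fun c => by
    simp only [g, LinearMap.comp_apply, Fintype.linearCombination_apply]
  have h1 : Function.Injective g :=
    LinearMap.ker_eq_bot.mp (LinearMap.ker_eq_bot'.mpr fun c hc =>
      h c (jet_eq_zero.mp (by rw [← hg, hc])))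
  intro y
  obtain ⟨c, hc⟩ := LinearMap.injective_iff_surjective.mp h1 y
  exact ⟨_, Submodule.sum_mem _ fun x _ => Submodule.smul_mem _ _ (hf x), by rw [← hg, hc]⟩

theorem Reg.exists_family [Finite σ] [Finite ι] {F : Type} [Field F] {S : Set (σ →₀ ℕ)}
    {m : ι → ℕ} {p : ι → σ → F} [Fintype (Cond σ m)] (h : Reg S m p) :
    ∃ f : Cond σ m → MvPolynomial σ F, (∀ x, f x ∈ restrictSupport F S) ∧
      ∀ c : Cond σ m → F, (∀ l, Van (m l) (p l) (∑ x, c x • f x)) → c = 0 := by
  classical
  choose f hf hj using fun x : Cond σ m => h (Pi.single x 1)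
  refine ⟨f, hf, fun c hc => ?_⟩
  have h1 := jet_eq_zero.mpr hc
  simp only [map_sum, map_smul, hj] at h1
  funext x
  have h2 := congrFun h1 x
  rw [Finset.sum_apply, Finset.sum_eq_single x] at h2
  · simpa using h2
  · intro u _ hu
    simp [Pi.single_eq_of_ne' hu]
  · simp

lemma finite_of_bdd [Finite σ] {S : Set (σ →₀ ℕ)} (D : σ → ℝ)
    (h : ∀ s ∈ S, ∀ l, (s l : ℝ) ≤ D l) :
    S.Finite := by
  have h1 : {f : σ → ℕ | ∀ l, f l ∈ Set.Iic ⌊D l⌋₊}.Finite :=
    Set.Finite.pi' fun l => Set.finite_Iic _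
  refine Set.Finite.subset (h1.preimage (f := fun s : σ →₀ ℕ => (s : σ → ℕ))
    DFunLike.coe_injective.injOn) fun s hs l => ?_
  exact Nat.le_floor (h s hs l)

lemma smp_finite [Fintype σ] {w : σ → ℝ} (hw : ∀ l, 0 < w l) (D : ℝ) : (Smp w D).Finite := by
  refine finite_of_bdd (fun l => D / w l) fun s hs l => ?_
  rw [le_div_iff₀ (hw l), mul_comm]
  exact (Finset.single_le_sum (f := fun l => w l * s l)
    (fun j _ => mul_nonneg (hw j).le (Nat.cast_nonneg _)) (mem_univ l)).trans hs

end Pool.Agent.Lib.MP_efa40c_ag.HN
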