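import Pool.Agent.Lib.MP_6e81d8_ag.H87.Ser
import Pool.Agent.Lib.MP_efa40c_ag.HN.Gen

/-!
Leading terms of one-parameter families, and the two degeneration steps.
-/

set_option autoImplicit false

namespace Pool.Agent.Lib.MP_efa40c_ag.HN

open MvPolynomial Finset Pool.Agent.Lib.MP_6e81d8_ag.H87

section Lead

variable {A : Type} [CommRing A]

/-- The series `x` has no terms below `γ` and the coefficient `a` at `γ`. -/
def Lead (γ : ℤ) (x : HahnSeries ℤ A) (a : A) : Prop := (∀ s < γ, x.coeff s = 0) ∧ x.coeff γ = a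

lemma Lead.mul {γ δ : ℤ} {x y : HahnSeries ℤ A} {a b : A} (h1 : Lead γ x a) (h2 : Lead δ y b) :
    Lead (γ + δ) (x * y) (a * b) := by
  have key : ∀ ij : ℤ × ℤ, ij.1 < γ ∨ ij.2 < δ → x.coeff ij.1 * y.coeff ij.2 = 0 := by
    rintro ij (h | h)
    · rw [h1.1 _ h, zero_mul]
    · rw [h2.1 _ h, mul_zero]
  constructor
  · intro s hs
    rw [HahnSeries.coeff_mul]
    refine sum_eq_zero fun ij hij => key ij ?_
    have := (mem_antidiagonal.mp hij).2.2
    omega
  · rw [HahnSeries.coeff_mul, sum_eq_single (γ, δ), h1.2, h2.2]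
    · intro ij hij hne
      refine key ij ?_
      have := (mem_antidiagonal.mp hij).2.2
      by_contra hc
      exact hne (Prod.ext (by omega) (by omega))
    · intro h
      by_contra hc
      exact h (mem_antidiagonal.mpr ⟨left_ne_zero_of_mul hc, right_ne_zero_of_mul hc, rfl⟩)

lemma Lead.add {γ : ℤ} {x y : HahnSeries ℤ A} {a b : A} (h1 : Lead γ x a) (h2 : Lead γ y b) :
    Lead γ (x + y) (a + b) :=
  ⟨fun s hs => by rw [HahnSeries.coeff_add, h1.1 s hs, h2.1 s hs, add_zero],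
    by rw [HahnSeries.coeff_add, h1.2, h2.2]⟩

lemma lead_zero (γ : ℤ) : Lead γ (0 : HahnSeries ℤ A) 0 := ⟨fun _ _ => rfl, rfl⟩

lemma lead_sum {α : Type} (t : Finset α) {γ : ℤ} {x : α → HahnSeries ℤ A} {a : α → A}
    (h : ∀ i ∈ t, Lead γ (x i) (a i)) : Lead γ (∑ i ∈ t, x i) (∑ i ∈ t, a i) := by
  classical
  induction t using Finset.induction_on with
  | empty => simpa using lead_zero γ
  | insert i t hi ih =>
    rw [sum_insert hi, sum_insert hi]
    exact (h i (mem_insert_self _ _)).add (ih fun i hi => h i (mem_insert_of_mem hi))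

lemma lead_single (γ : ℤ) (a : A) : Lead γ (HahnSeries.single γ a) a :=
  ⟨fun _ hs => HahnSeries.coeff_single_of_ne hs.ne, HahnSeries.coeff_single_same _ _⟩

lemma lead_C (a : A) : Lead 0 (HahnSeries.C a) a := lead_single 0 a

lemma Lead.pow {γ : ℤ} {x : HahnSeries ℤ A} {a : A} (h : Lead γ x a) (n : ℕ) :
    Lead (n * γ) (x ^ n) (a ^ n) := by
  induction n with
  | zero => simpa using lead_C (1 : A)
  | succ n ih =>
    have := ih.mul h
    rwa [← pow_succ, ← pow_succ, show (n : ℤ) * γ + γ = (n + 1 : ℕ) * γ by push_cast; ring] at this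

lemma Lead.map {A' : Type} [CommRing A'] (f : A →+* A') {γ : ℤ} {x : HahnSeries ℤ A} {a : A}
    (h : Lead γ x a) : Lead γ (hm f x) (f a) :=
  ⟨fun s hs => by rw [hm_coeff, h.1 s hs, map_zero], by rw [hm_coeff, h.2]⟩

lemma Lead.of_lt {γ δ : ℤ} {x : HahnSeries ℤ A} {a : A} (h : Lead γ x a) (hδ : δ < γ) :
    Lead δ x 0 := ⟨fun s hs => h.1 s (hs.trans hδ), h.1 δ hδ⟩

lemma Lead.isUnit {γ : ℤ} {x : HahnSeries ℤ A} {a : A} (h : Lead γ x a) (ha : IsUnit a) :
    IsUnit x := by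
  obtain _ | _ := subsingleton_or_nontrivial A
  · exact isUnit_of_subsingleton x
  have h0 : x.coeff γ ≠ 0 := h.2 ▸ ha.ne_zero
  have h1 : x.order = γ := le_antisymm (HahnSeries.order_le_of_coeff_ne_zero h0)
    ((HahnSeries.le_order_iff_forall (HahnSeries.ne_zero_of_coeff_ne_zero h0)).mpr h.1)
  refine HahnSeries.isUnit_of_isUnit_leadingCoeff_AddUnitOrder ?_ (AddGroup.isAddUnit _)
  rwa [HahnSeries.leadingCoeff_eq, h1, h.2]

lemma exists_lead {x : HahnSeries ℤ A} (h : x ≠ 0) : ∃ γ a, a ≠ 0 ∧ Lead γ x a :=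
  ⟨x.order, _, HahnSeries.coeff_order_eq_zero.not.mpr h,
    fun _ hs => HahnSeries.coeff_eq_zero_of_lt_order hs, rfl⟩

lemma Lead.inv {x y : HahnSeries ℤ A} (h : Lead 0 x 1) (hxy : x * y = 1) : Lead 0 y 1 := by
  obtain _ | _ := subsingleton_or_nontrivial A
  · exact ⟨fun _ _ => Subsingleton.elim _ _, Subsingleton.elim _ _⟩
  obtain ⟨γ, a, ha, h1⟩ := exists_lead (right_ne_zero_of_mul_eq_one hxy)
  have h2 := h.mul h1
  rw [hxy, zero_add, one_mul] at h2
  have h3 : γ = 0 := by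
    by_contra hc
    have := h2.2
    rw [HahnSeries.coeff_one, if_neg hc] at this
    exact ha this.symm
  subst h3
  have := h2.2
  rw [HahnSeries.coeff_one, if_pos rfl] at this
  rwa [← this] at h1

lemma Lead.eventually {γ : ℤ} {Q : Polynomial (HahnSeries ℤ A)} {a : A}
    (h : Lead γ (Q.coeff 0) a) :
    ∀ᶠ M : ℕ in Filter.atTop, Lead γ (Q.eval (HahnSeries.single (M : ℤ) 1)) a := by
  have key : ∀ k ∈ range Q.natDegree, ∀ᶠ M : ℕ in Filter.atTop,
      Lead γ (Q.coeff (k + 1) * HahnSeries.single (M : ℤ) 1 ^ (k + 1)) 0 := by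
    intro k _
    filter_upwards [Filter.eventually_gt_atTop (γ - (Q.coeff (k + 1)).order).toNat] with M hM
    have h1 : Lead (Q.coeff (k + 1)).order (Q.coeff (k + 1)) _ :=
      ⟨fun _ hs => HahnSeries.coeff_eq_zero_of_lt_order hs, rfl⟩
    refine (h1.mul ((lead_single (M : ℤ) (1 : A)).pow (k + 1))).of_lt ?_
    have h2 : (0 : ℤ) ≤ k * M := by positivity
    push_cast
    rw [add_mul]
    omega
  filter_upwards [(Filter.eventually_all_finset _).mpr key] with M hM
  rw [Polynomial.eval_eq_sum_range, sum_range_succ', pow_zero, mul_one]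
  have := (lead_sum _ hM).add h
  rwa [sum_const_zero, zero_add] at this

lemma lead_comb (κ : ℂ →+* A) {α : Type} (t : Finset α) (c : α → K) {x : α → HahnSeries ℤ A}
    {γ : α → ℤ} {a : α → A} (h : ∀ i ∈ t, Lead (γ i) (x i) (a i)) (hc : ∃ i ∈ t, c i ≠ 0) :
    ∃ (δ : ℤ) (e : α → ℂ), (∃ i ∈ t, e i ≠ 0) ∧
      Lead δ (∑ i ∈ t, hm κ (c i) * x i) (∑ i ∈ t, κ (e i) * a i) := by
  classical
  obtain ⟨i0, hi0, hmin⟩ := exists_min_image (t.filter fun i => c i ≠ 0)
    (fun i => (c i).order + γ i) (by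
      obtain ⟨i, h1, h2⟩ := hc
      exact ⟨i, mem_filter.mpr ⟨h1, h2⟩⟩)
  obtain ⟨h1, h2⟩ := mem_filter.mp hi0
  refine ⟨(c i0).order + γ i0, fun i => (c i).coeff ((c i0).order + γ i0 - γ i), ⟨i0, h1, ?_⟩,
    lead_sum _ fun i hi => ?_⟩
  · simp only [add_sub_cancel_right]
    exact HahnSeries.coeff_order_eq_zero.not.mpr h2
  · have h3 : Lead ((c i0).order + γ i0 - γ i) (c i) _ := ⟨fun s hs => ?_, rfl⟩
    · have := (h3.map κ).mul (h i hi)
      rwa [sub_add_cancel] at this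
    · by_cases h4 : c i = 0
      · rw [h4, HahnSeries.coeff_zero]
      · have := hmin i (mem_filter.mpr ⟨hi, h4⟩)
        exact HahnSeries.coeff_eq_zero_of_lt_order (by omega)

/-- Series all of whose coefficients lie in the ideal `J`. -/
noncomputable def cI (J : Ideal A) : Ideal (HahnSeries ℤ A) :=
  RingHom.ker (hm (Ideal.Quotient.mk J))

lemma mem_cI {J : Ideal A} {h : HahnSeries ℤ A} : h ∈ cI J ↔ ∀ s, h.coeff s ∈ J := by
  rw [cI, RingHom.mem_ker, HahnSeries.ext_iff, funext_iff]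
  exact forall_congr' fun s => Ideal.Quotient.eq_zero_iff_mem

lemma cI_pow (J : Ideal A) (k : ℕ) : cI J ^ k ≤ cI (J ^ k) := by
  induction k with
  | zero => exact fun h _ => mem_cI.mpr fun s => by simp
  | succ k ih =>
    rw [pow_succ, pow_succ]
    refine Ideal.mul_le.mpr fun u hu v hv => mem_cI.mpr fun s => ?_
    rw [HahnSeries.coeff_mul]
    exact Ideal.sum_mem _ fun ij _ => Ideal.mul_mem_mul (mem_cI.mp (ih hu) _) (mem_cI.mp hv _)

end Lead

variable {σ ι A : Type} [CommRing A]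

/-- The ring `A` consists of functions which are regular where `E` is not zero. -/
def Loc (j : MvPolynomial σ ℂ →+* A) (E : MvPolynomial σ ℂ) : Prop :=
  ∀ p : σ → ℂ, eval p E ≠ 0 → ∃ ev : A →+* ℂ, (∀ q, ev (j q) = eval p q) ∧
    ∀ m q, j q ∈ RingHom.ker ev ^ m → Van m p q

lemma loc_id : Loc (RingHom.id (MvPolynomial σ ℂ)) 1 :=
  fun p _ => ⟨eval p, fun _ => rfl, fun _ _ h => h⟩

lemma loc_away (E : MvPolynomial σ ℂ) : Loc (algebraMap _ (Localization.Away E)) E := by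
  intro p hp
  refine ⟨IsLocalization.Away.lift E (g := eval p) (IsUnit.mk0 _ hp),
    fun q => IsLocalization.Away.lift_eq _ _ _, fun m q hq => ?_⟩
  set J : Ideal (MvPolynomial σ ℂ) := RingHom.ker (eval p) with hJ
  let π : MvPolynomial σ ℂ →+* MvPolynomial σ ℂ ⧸ J ^ m := Ideal.Quotient.mk _
  have h1 : J.map π ^ m = ⊥ := by
    rw [← Ideal.map_pow, Ideal.map_quotient_self]
  have h2 : IsUnit (π E) := by
    have h3 : IsNilpotent (π (E - C (eval p E))) := ⟨m, by
      have := Ideal.pow_mem_pow (Ideal.mem_map_of_mem π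
        (show E - C (eval p E) ∈ J by simp [hJ, RingHom.mem_ker])) m
      rwa [h1, Ideal.mem_bot] at this⟩
    have := h3.isUnit_add_right_of_commute (((IsUnit.mk0 _ hp).map C).map π) (Commute.all _ _)
    rwa [← map_add, sub_add_cancel] at this
  let π' : Localization.Away E →+* _ := IsLocalization.Away.lift E (g := π) h2
  have h3 : (RingHom.ker (IsLocalization.Away.lift E (S := Localization.Away E) (g := eval p)
      (IsUnit.mk0 _ hp))).map π' ≤ J.map π := by
    rw [Ideal.map_le_iff_le_comap]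
    intro a ha
    obtain ⟨n, x, hx⟩ := IsLocalization.Away.surj E a
    have e1 := congrArg (IsLocalization.Away.lift E (S := Localization.Away E) (g := eval p)
      (IsUnit.mk0 _ hp)) hx
    have e2 := congrArg π' hx
    rw [map_mul, RingHom.mem_ker.mp ha, zero_mul, IsLocalization.Away.lift_eq] at e1
    rw [map_mul, map_pow, IsLocalization.Away.lift_eq, IsLocalization.Away.lift_eq] at e2
    rw [Ideal.mem_comap, ← Ideal.mul_unit_mem_iff_mem _ (h2.pow n), e2]
    exact Ideal.mem_map_of_mem _ e1.symm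
  have h4 := Ideal.mem_map_of_mem π' hq
  rw [Ideal.map_pow, IsLocalization.Away.lift_eq] at h4
  have h5 := Ideal.pow_right_mono h3 m h4
  rwa [h1, Ideal.mem_bot, Ideal.Quotient.eq_zero_iff_mem] at h5

/-- Substitution of a family of series for the variables. -/
noncomputable def Psi (j : MvPolynomial σ ℂ →+* A) (ψ : σ → HahnSeries ℤ A) :
    MvPolynomial σ K →+* HahnSeries ℤ A := eval₂Hom (hm (j.comp C)) ψ

lemma psi_X (j : MvPolynomial σ ℂ →+* A) (ψ : σ → HahnSeries ℤ A) (l : σ) :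
    Psi j ψ (X l) = ψ l := eval₂Hom_X' _ _ _

lemma psi_C (j : MvPolynomial σ ℂ →+* A) (ψ : σ → HahnSeries ℤ A) (c : K) :
    Psi j ψ (C c) = hm (j.comp C) c := eval₂Hom_C _ _ _

lemma psi_monomial (j : MvPolynomial σ ℂ →+* A) (ψ : σ → HahnSeries ℤ A) (c : σ →₀ ℕ)
    (h : ∀ l, c l ≠ 0 → ψ l = HahnSeries.C (j (X l))) :
    Psi j ψ (monomial c 1) = HahnSeries.C (j (monomial c 1)) := by
  rw [monomial_eq, monomial_eq, C_1, C_1, one_mul, one_mul, Finsupp.prod, Finsupp.prod, map_prod,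
    map_prod, map_prod]
  refine prod_congr rfl fun l hl => ?_
  rw [map_pow, map_pow, map_pow, psi_X, h l (Finsupp.mem_support_iff.mp hl)]

lemma psi_van [Finite σ] {j : MvPolynomial σ ℂ →+* A} {p : σ → ℂ} {ev : A →+* ℂ}
    (hev : ∀ q, ev (j q) = eval p q) (ψ : σ → HahnSeries ℤ A) {m : ℕ} {F : MvPolynomial σ K}
    (h : Van m (fun l => hm ev (ψ l)) F) (s : ℤ) : (Psi j ψ F).coeff s ∈ RingHom.ker ev ^ m := by
  refine mem_cI.mp (cI_pow _ _ (h.transfer _ _ fun l => mem_cI.mpr fun s => ?_)) s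
  rw [map_sub, psi_X, psi_C, HahnSeries.coeff_sub, hm_coeff, hm_coeff, RingHom.mem_ker, map_sub,
    RingHom.comp_apply, hev, eval_C, sub_self]

lemma psi_comb [Finite σ] {j : MvPolynomial σ ℂ →+* A} (ψ : σ → HahnSeries ℤ A) (ε : A)
    {α : Type} (t : Finset α) (c : α → K) {f : α → MvPolynomial σ K} {g : α → MvPolynomial σ ℂ}
    (h : ∀ i ∈ t, ∃ γ a, Lead γ (Psi j ψ (f i)) a ∧ ε * a = j (g i)) (hc : ∃ i ∈ t, c i ≠ 0) :
    ∃ e : α → ℂ, (∃ i ∈ t, e i ≠ 0) ∧ ∀ (p : σ → ℂ) (ev : A →+* ℂ) (m : ℕ),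
      (∀ q, ev (j q) = eval p q) → Van m (fun l => hm ev (ψ l)) (∑ i ∈ t, c i • f i) →
      j (∑ i ∈ t, e i • g i) ∈ RingHom.ker ev ^ m := by
  choose! γ a h1 h2 using h
  obtain ⟨δ, e, h3, h4⟩ := lead_comb (j.comp C) t c h1 hc
  refine ⟨e, h3, fun p ev m hev hv => ?_⟩
  have h5 := psi_van hev ψ hv δ
  simp only [smul_eq_C_mul, map_sum, map_mul, psi_C] at h5 ⊢
  rw [h4.2] at h5
  convert Ideal.mul_mem_left _ ε h5 using 1
  rw [mul_sum]
  refine sum_congr rfl fun i hi => ?_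
  rw [← h2 i hi, RingHom.comp_apply]
  ring

theorem step_emp [Finite σ] [Finite ι] {j : MvPolynomial σ ℂ →+* A} {E : MvPolynomial σ ℂ}
    (hL : Loc j E) (hE : E ≠ 0) (ψ : σ → HahnSeries ℤ A) (ε : A) {S T : Set (σ →₀ ℕ)}
    (hS : S.Finite) (f : (σ →₀ ℕ) → MvPolynomial σ K)
    (hf : ∀ s ∈ T, ∃ γ a, Lead γ (Psi j ψ (f s)) a ∧ ε * a = j (monomial s 1))
    (hsp : ∀ s ∈ S, monomial s (1 : K) ∈ Submodule.span K (f '' T)) {m : ι → ℕ}
    (h : Gen (Emp T m)) : Gen (Emp S m) := by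
  classical
  obtain ⟨p, hp, hpE⟩ := h.exists hE
  choose ev h1 h2 using fun l => hL (p l) (hpE l)
  refine gen_emp (F := K) HahnSeries.C hS (p := fun l x => hm (ev l) (ψ x)) fun F hF hv => ?_
  have h3 : F ∈ Submodule.span K (f '' T) := by
    rw [restrictSupport_eq_span] at hF
    refine Submodule.span_le.mpr ?_ hF
    rintro _ ⟨s, hs, rfl⟩
    exact hsp s hs
  obtain ⟨c, hc, rfl⟩ := (Finsupp.mem_span_image_iff_linearCombination _).mp h3
  rw [Finsupp.mem_supported] at hc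
  rw [Finsupp.linearCombination_apply, Finsupp.sum] at hv ⊢
  by_contra hne
  obtain ⟨s0, hs0, -⟩ := exists_ne_zero_of_sum_ne_zero hne
  obtain ⟨e, ⟨s, hs, he⟩, h4⟩ := psi_comb ψ ε c.support c (fun s hs => hf s (hc hs))
    ⟨s0, hs0, Finsupp.mem_support_iff.mp hs0⟩
  have h5 := hp _ (Submodule.sum_mem _ fun s hs => Submodule.smul_mem _ (e s) (by
    rw [restrictSupport_eq_span]
    exact Submodule.subset_span ⟨s, hc hs, rfl⟩)) fun l => h2 l _ _ (h4 _ _ _ (h1 l) (hv l))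
  have h6 := congrArg (coeff s) h5
  simp only [coeff_sum, coeff_smul, coeff_monomial, smul_eq_mul, mul_ite, mul_one, mul_zero,
    sum_ite_eq', if_pos hs, coeff_zero] at h6
  exact he h6

theorem step_reg [Finite σ] [Finite ι] {j : MvPolynomial σ ℂ →+* A} {E : MvPolynomial σ ℂ}
    (hL : Loc j E) (hE : E ≠ 0) (ψ : σ → HahnSeries ℤ A) (ε : A) {S T : Set (σ →₀ ℕ)}
    (hS : S.Finite)
    (hf : ∀ s ∈ T, ∃ f ∈ restrictSupport K S, ∃ γ a,
      Lead γ (Psi j ψ f) a ∧ ε * a = j (monomial s 1)) {m : ι → ℕ}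
    (h : Gen (Reg T m)) : Gen (Reg S m) := by
  classical
  obtain ⟨p, hp, hpE⟩ := h.exists hE
  choose ev h1 h2 using fun l => hL (p l) (hpE l)
  have lift : ∀ g ∈ restrictSupport ℂ T, ∃ f ∈ restrictSupport K S, ∃ a,
      Lead 0 (Psi j ψ f) a ∧ ε * a = j g := by
    intro g hg
    rw [restrictSupport_eq_span] at hg
    induction hg using Submodule.span_induction with
    | mem g hg =>
      obtain ⟨s, hs, rfl⟩ := hg
      obtain ⟨f, h3, γ, a, h4, h5⟩ := hf s hs
      refine ⟨(HahnSeries.single (-γ) 1 : K) • f, Submodule.smul_mem _ _ h3, a, ?_, h5⟩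
      have := ((lead_single (-γ) (1 : ℂ)).map (j.comp C)).mul h4
      rwa [neg_add_cancel, (j.comp C).map_one, one_mul, ← psi_C, ← map_mul, ← smul_eq_C_mul]
        at this
    | zero => exact ⟨0, Submodule.zero_mem _, 0, by simpa using lead_zero 0, by simp⟩
    | add g g' _ _ ih ih' =>
      obtain ⟨f, h3, a, h4, h5⟩ := ih
      obtain ⟨f', h3', a', h4', h5'⟩ := ih'
      exact ⟨f + f', Submodule.add_mem _ h3 h3', a + a', by rw [map_add]; exact h4.add h4',
        by rw [mul_add, h5, h5', map_add]⟩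
    | smul c g _ ih =>
      obtain ⟨f, h3, a, h4, h5⟩ := ih
      refine ⟨(HahnSeries.C c : K) • f, Submodule.smul_mem _ _ h3, j (C c) * a, ?_, ?_⟩
      · have := ((lead_C c).map (j.comp C)).mul h4
        rwa [add_zero, ← psi_C, ← map_mul, ← smul_eq_C_mul] at this
      · rw [smul_eq_C_mul, map_mul, ← h5]
        ring
  let _ : Fintype ι := Fintype.ofFinite ι
  obtain ⟨g, h3, h4⟩ := hp.exists_family
  choose f h5 a h6 h7 using fun x => lift (g x) (h3 x)
  refine gen_reg (F := K) HahnSeries.C hS (p := fun l x => hm (ev l) (ψ x))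
    (reg_of_family f h5 fun c hv => ?_)
  by_contra hne
  obtain ⟨x0, hx0⟩ := Function.ne_iff.mp hne
  obtain ⟨e, ⟨x, -, he⟩, h8⟩ := psi_comb ψ ε univ c (fun x _ => ⟨0, a x, h6 x, h7 x⟩)
    ⟨x0, mem_univ _, hx0⟩
  exact he (congrFun (h4 e fun l => h2 l _ _ (h8 _ _ _ (h1 l) (hv l))) x)

end Pool.Agent.Lib.MP_efa40c_ag.HN
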