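import Mathlib

/-!
The linear virtual dimension when all multiplicities are at most half of the degree.
-/

set_option autoImplicit false

namespace Pool.Agent.Lib.MP_efa40c_ag.HN

open Finset

lemma Num_big {n d s : ℕ} (hn : 1 ≤ n) (m : Fin s → ℕ) (hm : ∀ i, 2 * m i ≤ d + 1)
    (I : Finset (Fin s)) (hI : 2 ≤ I.card) :
    (n + ((∑ i ∈ I, (m i : ℤ)) - ((I.card : ℤ) - 1) * d).toNat - I.card).choose n = 0 := by
  apply Nat.choose_eq_zero_of_lt
  have h1 : 2 * ∑ i ∈ I, (m i : ℤ) ≤ (I.card : ℤ) * ((d : ℤ) + 1) := by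
    rw [Finset.mul_sum]
    calc ∑ i ∈ I, 2 * (m i : ℤ) ≤ ∑ _i ∈ I, ((d : ℤ) + 1) :=
          Finset.sum_le_sum fun i _ => by exact_mod_cast hm i
      _ = (I.card : ℤ) * ((d : ℤ) + 1) := by rw [Finset.sum_const, nsmul_eq_mul]
  have h2 : (2 : ℤ) ≤ (I.card : ℤ) := by exact_mod_cast hI
  have h3 : (0 : ℤ) ≤ ((I.card : ℤ) - 2) * d := mul_nonneg (by linarith) (by positivity)
  have h4 : (∑ i ∈ I, (m i : ℤ)) - ((I.card : ℤ) - 1) * d < (I.card : ℤ) := by nlinarith
  have h5 : ((∑ i ∈ I, (m i : ℤ)) - ((I.card : ℤ) - 1) * d).toNat < I.card := by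
    rw [Int.toNat_lt' (by omega)]
    exact h4
  omega

lemma virt_small {n d s : ℕ} (hn : 1 ≤ n) (m : Fin s → ℕ) (hm : ∀ i, 2 * m i ≤ d + 1) :
    ∑ I ∈ Finset.univ.filter (fun I : Finset (Fin s) => I.card ≤ min n s),
      (-1 : ℤ) ^ I.card * ((n + ((∑ i ∈ I, (m i : ℤ)) - ((I.card : ℤ) - 1) * d).toNat
        - I.card).choose n : ℕ) =
      ((n + d).choose n : ℕ) - ∑ i, (((n + m i - 1).choose n : ℕ) : ℤ) := by
  classical
  have hsub : insert (∅ : Finset (Fin s)) (Finset.univ.image fun i : Fin s => ({i} : Finset (Fin s)))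
      ⊆ Finset.univ.filter (fun I : Finset (Fin s) => I.card ≤ min n s) := by
    intro I hI
    rw [Finset.mem_insert, Finset.mem_image] at hI
    rw [Finset.mem_filter]
    refine ⟨Finset.mem_univ _, ?_⟩
    rcases hI with rfl | ⟨i, -, rfl⟩
    · simp
    · have := i.pos
      rw [Finset.card_singleton]
      omega
  rw [← Finset.sum_subset hsub]
  · rw [Finset.sum_insert (by simp), Finset.sum_image (fun a _ b _ h => by simpa using h)]
    simp only [Finset.card_empty, Finset.card_singleton, Finset.sum_empty, Finset.sum_singleton]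
    rw [sub_eq_add_neg (((n + d).choose n : ℕ) : ℤ), ← Finset.sum_neg_distrib]
    congr 1
    · simp
    · refine Finset.sum_congr rfl fun i _ => ?_
      simp
  · intro I _ hI
    have h2 : 2 ≤ I.card := by
      by_contra hlt
      apply hI
      rw [Finset.mem_insert, Finset.mem_image]
      have : I.card = 0 ∨ I.card = 1 := by omega
      rcases this with h0 | h1
      · exact Or.inl (Finset.card_eq_zero.1 h0)
      · obtain ⟨a, ha⟩ := Finset.card_eq_one.1 h1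
        exact Or.inr ⟨a, Finset.mem_univ _, ha.symm⟩
    rw [Num_big hn m hm I h2]
    simp

lemma Num_step (n e : ℕ) :
    (((n + 1 + e).choose (n + 1) : ℕ) : ℝ) * ((n : ℝ) + 1) =
      (((n + e).choose n : ℕ) : ℝ) * ((n : ℝ) + e + 1) := by
  have h := Nat.add_one_mul_choose_eq (n + e) n
  have h' : n + 1 + e = n + e + 1 := by ring
  rw [h']
  have h2 : (((n + e + 1) * (n + e).choose n : ℕ) : ℝ) =
      (((n + e + 1).choose (n + 1) * (n + 1) : ℕ) : ℝ) := by rw [h]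
  push_cast at h2
  linarith

lemma Num_three (e : ℕ) :
    (((3 + e).choose 3 : ℕ) : ℝ) * 6 = ((e : ℝ) + 1) * ((e : ℝ) + 2) * ((e : ℝ) + 3) := by
  have h0 := Num_step 0 e
  have h1 := Num_step 1 e
  have h2 := Num_step 2 e
  simp only [Nat.choose_zero_right, Nat.cast_one, Nat.cast_zero, Nat.cast_ofNat] at h0 h1 h2
  norm_num at h0 h1 h2 ⊢
  have h1' : (((2 + e).choose 2 : ℕ) : ℝ) * 2 = ((e : ℝ) + 1) * ((e : ℝ) + 2) := by
    linarith
  calc (((3 + e).choose 3 : ℕ) : ℝ) * 6 = ((((3 + e).choose 3 : ℕ) : ℝ) * 3) * 2 := by ring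
    _ = ((((2 + e).choose 2 : ℕ) : ℝ) * 2) * ((e : ℝ) + 3) := by linarith
    _ = _ := by rw [h1']

lemma choose_lt {n d μ : ℕ} {ν : ℝ} (hn : 3 ≤ n) (hν : 3 ≤ ν) (h : (d : ℝ) < ν * μ) :
    (((n + d).choose n : ℕ) : ℝ) < ν ^ n * ((n + μ - 1).choose n : ℕ) := by
  have hd : (0 : ℝ) ≤ d := by positivity
  have hμ : 1 ≤ μ := by
    rcases Nat.eq_zero_or_pos μ with h0 | h0
    · subst h0
      simp only [Nat.cast_zero, mul_zero] at h
      linarith
    · exact h0
  obtain ⟨e, rfl⟩ : ∃ e, μ = e + 1 := ⟨μ - 1, by omega⟩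
  have he : (0 : ℝ) ≤ e := by positivity
  push_cast at h
  have hr : ∀ k : ℕ, k + (e + 1) - 1 = k + e := fun k => by omega
  rw [hr]
  induction n, hn using Nat.le_induction with
  | base =>
    have h1 := Num_three d
    have h2 := Num_three e
    set x : ℝ := ν * ((e : ℝ) + 1) with hx
    have hx3 : 3 ≤ x := by nlinarith
    have h3 : ν ^ 3 * (((e : ℝ) + 1) * ((e : ℝ) + 2) * ((e : ℝ) + 3)) =
        x * (x + ν) * (x + 2 * ν) := by rw [hx]; ring
    have h4 : ((d : ℝ) + 1) * ((d : ℝ) + 2) * ((d : ℝ) + 3) < (x + 1) * (x + 2) * (x + 3) := by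
      gcongr
    have h5 : (x + 1) * (x + 2) * (x + 3) ≤ x * (x + 3) * (x + 2 * 3) := by nlinarith
    have h6 : x * (x + 3) * (x + 2 * 3) ≤ x * (x + ν) * (x + 2 * ν) := by gcongr
    have h7 : ν ^ 3 * (((3 + e).choose 3 : ℕ) : ℝ) * 6 = x * (x + ν) * (x + 2 * ν) := by
      rw [mul_assoc, h2, h3]
    linarith
  | succ k hk ih =>
    have h1 := Num_step k d
    have h2 := Num_step k e
    have hk' : (3 : ℝ) ≤ k := by exact_mod_cast hk
    have hpos : (0 : ℝ) < (k : ℝ) + 1 := by linarith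
    have h3 : (k : ℝ) + d + 1 ≤ ν * ((k : ℝ) + e + 1) := by nlinarith
    have h4 : (0 : ℝ) < (k : ℝ) + d + 1 := by linarith
    have h5 : (0 : ℝ) ≤ ν ^ k * (((k + e).choose k : ℕ) : ℝ) := by
      have : (0 : ℝ) ≤ ν := by linarith
      positivity
    refine lt_of_mul_lt_mul_right ?_ hpos.le
    calc (((k + 1 + d).choose (k + 1) : ℕ) : ℝ) * ((k : ℝ) + 1)
        = (((k + d).choose k : ℕ) : ℝ) * ((k : ℝ) + d + 1) := h1
      _ < (ν ^ k * (((k + e).choose k : ℕ) : ℝ)) * ((k : ℝ) + d + 1) :=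
          mul_lt_mul_of_pos_right ih h4
      _ ≤ (ν ^ k * (((k + e).choose k : ℕ) : ℝ)) * (ν * ((k : ℝ) + e + 1)) :=
          mul_le_mul_of_nonneg_left h3 h5
      _ = ν ^ (k + 1) * ((((k + e).choose k : ℕ) : ℝ) * ((k : ℝ) + e + 1)) := by ring
      _ = ν ^ (k + 1) * (((k + 1 + e).choose (k + 1) : ℕ) : ℝ) * ((k : ℝ) + 1) := by
          rw [← h2]; ring

end Pool.Agent.Lib.MP_efa40c_ag.HN
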