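import Pool.Agent.Lib.MP_efa40c_ag.HN.Chain
import Pool.Agent.Lib.MP_efa40c_ag.HN.Proj
import Pool.Agent.Lib.MP_efa40c_ag.HN.Num

/-!
Forms in `n + 1` variables with given multiplicities at `s ≥ 3 ^ n` general points.
-/

set_option autoImplicit false

namespace Pool.Agent.Lib.MP_efa40c_ag.HN

open MvPolynomial Finset

lemma exists_root {n s : ℕ} (hs : 3 ^ (n + 1) ≤ s) : ∃ ν : ℝ, 3 ≤ ν ∧ ν ^ (n + 1) = s := by
  have h1 : ((s : ℝ) ^ (((n + 1 : ℕ) : ℝ)⁻¹)) ^ (n + 1) = s :=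
    Real.rpow_inv_natCast_pow (Nat.cast_nonneg s) (Nat.succ_ne_zero n)
  refine ⟨_, ?_, h1⟩
  refine le_of_pow_le_pow_left₀ (Nat.succ_ne_zero n) (by positivity) ?_
  rw [h1]
  exact_mod_cast hs

theorem proj_emp {n s d : ℕ} {m : Fin s → ℕ} {ν : ℝ} (hν : 3 ≤ ν) (hs : ν ^ (n + 1) = s)
    (h : ν ^ n * d < ∑ i, (m i : ℝ)) :
    Gen fun p : Fin s → Fin (n + 1 + 1) → ℂ => (∀ i, p i ≠ 0) ∧ sys (n + 1) d m p = ⊥ :=
  (gen_proj (affine_emp hν (by rw [Fintype.card_fin, hs]) h)).mono fun _ hp =>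
    ⟨fun i h0 => hp.1 i (congrFun h0 0), sys_eq_bot hp.1 hp.2⟩

theorem proj_reg {n s d μ : ℕ} (hn : 1 ≤ n) {ν : ℝ} (hν : 3 ≤ ν) (hs : ν ^ (n + 1) = s)
    (h : ν * (μ + n) ≤ d + n + 2) :
    Gen fun p : Fin s → Fin (n + 1 + 1) → ℂ => (∀ i, p i ≠ 0) ∧
      Module.finrank ℂ (sys (n + 1) d (fun _ => μ) p) + s * (n + 1 + μ - 1).choose (n + 1) =
        (n + 1 + d).choose (n + 1) :=
  (gen_proj (affine_reg hn hν (fun _ => le_rfl) (by simp [hs]) h)).mono fun _ hp =>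
    ⟨fun i h0 => hp.1 i (congrFun h0 0), by
      simpa only [sum_const, card_univ, Fintype.card_fin, smul_eq_mul] using
        finrank_sys (Nat.le_add_left 1 n) hp.1 hp.2⟩

theorem nagata {n s d : ℕ} {m : Fin s → ℕ} (hn : 1 ≤ n) (hs : 3 ^ n ≤ s)
    (h : s ^ (n - 1) * d ^ n < (∑ i, m i) ^ n) :
    Gen fun p : Fin s → Fin (n + 1) → ℂ => (∀ i, p i ≠ 0) ∧ sys n d m p = ⊥ := by
  obtain ⟨n, rfl⟩ : ∃ k, n = k + 1 := ⟨n - 1, by omega⟩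
  obtain ⟨ν, h1, h2⟩ := exists_root hs
  refine proj_emp h1 h2 (lt_of_pow_lt_pow_left₀ (n + 1) (by positivity) ?_)
  rw [mul_pow, ← pow_mul, mul_comm n, pow_mul, h2]
  exact_mod_cast h

end Pool.Agent.Lib.MP_efa40c_ag.HN
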