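import Pool.Agent.Lib.MP_efa40c_ag.HN.Lead

/-!
Expansion along the hyperplane `X i = 1`, and points on a coordinate axis.
-/

set_option autoImplicit false

namespace Pool.Agent.Lib.MP_efa40c_ag.HN

open MvPolynomial Finset Pool.Agent.Lib.MP_6e81d8_ag.H87

variable {σ ι : Type} [Fintype σ] [DecidableEq σ] [Fintype ι]

/-- The family which moves the hyperplane `X i = 1`. -/
noncomputable def pushPsi (i : σ) : σ → HahnSeries ℤ (MvPolynomial σ ℂ) :=
  fun l => if l = i then 1 + HahnSeries.single 1 (X i) else HahnSeries.C (X l)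

/-- The polynomials adapted to the hyperplane `X i = 1`. -/
noncomputable def pushPol (i : σ) (c : σ →₀ ℕ) (a e : ℕ) : MvPolynomial σ K :=
  monomial c 1 * X i ^ a * (X i - 1) ^ e

omit [Fintype σ] in
lemma push_lead (i : σ) (s : σ →₀ ℕ) (a : ℕ) : ∃ γ b,
    Lead γ (Psi (RingHom.id _) (pushPsi i) (pushPol i (s.erase i) a (s i))) b ∧
      1 * b = RingHom.id (MvPolynomial σ ℂ) (monomial s 1) := by
  have h0 : Psi (RingHom.id _) (pushPsi i) (X i) = 1 + HahnSeries.single 1 (X i) := by
    simp [Psi, pushPsi]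
  have h1 : Lead 0 (1 + HahnSeries.single (1 : ℤ) (X i : MvPolynomial σ ℂ)) 1 := by
    refine ⟨fun t ht => ?_, ?_⟩
    · rw [HahnSeries.coeff_add, HahnSeries.coeff_one, if_neg ht.ne,
        HahnSeries.coeff_single_of_ne (by omega), add_zero]
    · rw [HahnSeries.coeff_add, HahnSeries.coeff_one, if_pos rfl,
        HahnSeries.coeff_single_of_ne (by omega), add_zero]
  have h2 := psi_monomial (RingHom.id (MvPolynomial σ ℂ)) (pushPsi i) (s.erase i) fun l hl => by
    have : l ≠ i := fun h => hl (by rw [h, Finsupp.erase_same])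
    simp [pushPsi, this]
  refine ⟨0 + (a : ℤ) * 0 + (s i : ℤ) * 1, monomial (s.erase i) 1 * 1 ^ a * X i ^ s i, ?_, ?_⟩
  · rw [pushPol, map_mul, map_mul, map_pow, map_pow, map_sub, h2, RingHom.map_one, h0,
      add_sub_cancel_left]
    exact ((lead_C _).mul (h1.pow a)).mul ((lead_single _ _).pow _)
  · rw [one_mul, one_pow, mul_one, X_pow_eq_monomial, monomial_mul, mul_one,
      Finsupp.erase_add_single, RingHom.id_apply]

omit [Fintype σ] [DecidableEq σ] in
lemma push_mon (i : σ) (s : σ →₀ ℕ) (e : ℕ) :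
    (monomial (s.update i e) 1 : MvPolynomial σ K) = monomial (s.erase i) 1 * X i ^ e := by
  rw [X_pow_eq_monomial, monomial_mul, mul_one, Finsupp.update_eq_erase_add_single]

theorem push_emp (i : σ) {S T : Set (σ →₀ ℕ)} (hS : S.Finite)
    (hT : ∀ s : σ →₀ ℕ, ∀ a b : ℕ, s.update i a ∈ S → s.update i b ∈ S → a + s i ≤ b → s ∈ T)
    {m : ι → ℕ} (h : Gen (Emp T m)) : Gen (Emp S m) := by
  let a : (σ →₀ ℕ) → ℕ := fun c => sInf {a | c.update i a ∈ S}
  refine step_emp loc_id one_ne_zero (pushPsi i) 1 hS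
    (fun s => pushPol i (s.erase i) (a (s.erase i)) (s i)) (fun s _ => push_lead i s _)
    (fun s hs => ?_) h
  have hu : ∀ b, (s.erase i).update i b = s.update i b := fun b => by
    rw [Finsupp.update_eq_erase_add_single, Finsupp.update_eq_erase_add_single,
      Finsupp.erase_idem]
  have h1 : s i ∈ {a | (s.erase i).update i a ∈ S} := by
    show (s.erase i).update i (s i) ∈ S
    rwa [hu, Finsupp.update_self]
  have h2 : a (s.erase i) ≤ s i := Nat.sInf_le h1
  have h3 : s.update i (a (s.erase i)) ∈ S := by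
    rw [← hu]
    exact Nat.sInf_mem ⟨_, h1⟩
  obtain ⟨d, hd⟩ := Nat.exists_eq_add_of_le h2
  have h4 : (monomial s 1 : MvPolynomial σ K) =
      monomial (s.erase i) 1 * X i ^ a (s.erase i) * ((X i - 1) + 1) ^ d := by
    rw [sub_add_cancel, mul_assoc, ← pow_add, ← hd, ← push_mon, Finsupp.update_self]
  rw [h4, add_pow, mul_sum]
  refine Submodule.sum_mem _ fun e he => ?_
  have h5 : monomial (s.erase i) 1 * X i ^ a (s.erase i) *
      ((X i - 1) ^ e * 1 ^ (d - e) * (d.choose e : MvPolynomial σ K)) =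
      d.choose e • pushPol i (s.erase i) (a (s.erase i)) e := by
    rw [pushPol, nsmul_eq_mul]
    ring
  rw [h5]
  refine Submodule.smul_of_tower_mem _ _ (Submodule.subset_span ⟨s.update i e, ?_, ?_⟩)
  · refine hT _ (a (s.erase i)) (s i) ?_ ?_ ?_
    · rwa [Finsupp.update_idem]
    · rwa [Finsupp.update_idem, Finsupp.update_self]
    · have := mem_range.mp he
      rw [Finsupp.coe_update, Function.update_self]
      omega
  · simp only [Finsupp.erase_update_eq_erase, Finsupp.coe_update, Function.update_self]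

theorem push_reg (i : σ) {S T : Set (σ →₀ ℕ)} (hS : S.Finite)
    (hT : ∀ s ∈ T, ∃ a : ℕ, ∀ e ≤ s i, s.update i (a + e) ∈ S)
    {m : ι → ℕ} (h : Gen (Reg T m)) : Gen (Reg S m) := by
  refine step_reg loc_id one_ne_zero (pushPsi i) 1 hS (fun s hs => ?_) h
  obtain ⟨a, ha⟩ := hT s hs
  refine ⟨pushPol i (s.erase i) a (s i), ?_, push_lead i s a⟩
  rw [pushPol, _root_.sub_pow (X i : MvPolynomial σ K) 1, mul_sum]
  refine Submodule.sum_mem _ fun e he => ?_
  have h5 : monomial (s.erase i) 1 * X i ^ a * ((-1) ^ (e + s i) * X i ^ e * 1 ^ (s i - e) *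
      ((s i).choose e : MvPolynomial σ K)) =
      ((-1 : ℤ) ^ (e + s i) * (s i).choose e) • monomial (s.update i (a + e)) 1 := by
    rw [push_mon, zsmul_eq_mul]
    push_cast
    ring
  rw [h5]
  refine Submodule.smul_of_tower_mem _ _ (monomial_mem_restrictSupport _ |>.mpr (Or.inl ?_))
  exact ha e (Nat.lt_succ_iff.mp (mem_range.mp he))

/-- The variable `k` moved into the coefficients. -/
noncomputable def pushPhi (k : σ) : MvPolynomial σ ℂ →ₐ[ℂ] MvPolynomial σ (Polynomial ℂ) :=
  aeval fun l => if l = k then C Polynomial.X else X l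

omit [Fintype σ] in
lemma push_phi_monomial (k : σ) (s : σ →₀ ℕ) (a : ℂ) :
    pushPhi k (monomial s a) = monomial (s.erase k) (Polynomial.monomial (s k) a) := by
  have h1 : (monomial s a : MvPolynomial σ ℂ) = monomial (s.erase k) a * X k ^ s k := by
    rw [X_pow_eq_monomial, monomial_mul, mul_one, Finsupp.erase_add_single]
  have h2 : pushPhi k (monomial (s.erase k) a) = monomial (s.erase k) (Polynomial.C a) := by
    rw [pushPhi, aeval_monomial, monomial_eq]
    congr 1
    refine Finsupp.prod_congr fun l hl => ?_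
    rw [if_neg fun h => Finsupp.mem_support_iff.mp hl (by rw [h, Finsupp.erase_same])]
  have h3 : pushPhi k (X k) = C Polynomial.X := by simp [pushPhi]
  rw [h1, map_mul, map_pow, h2, h3, ← map_pow, mul_comm, C_mul_monomial, mul_comm,
    Polynomial.C_mul_X_pow_eq_monomial]

omit [Fintype σ] in
lemma push_phi_coeff (k : σ) {c : σ →₀ ℕ} (hc : c k = 0) (e : ℕ) (F : MvPolynomial σ ℂ) :
    (coeff c (pushPhi k F)).coeff e = coeff (c + Finsupp.single k e) F := by
  induction F using MvPolynomial.induction_on' with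
  | add p q hp hq => rw [map_add, coeff_add, Polynomial.coeff_add, hp, hq, coeff_add]
  | monomial s a =>
    rw [push_phi_monomial, coeff_monomial, coeff_monomial]
    by_cases h : s = c + Finsupp.single k e
    · have h1 : s.erase k = c := by
        rw [h, Finsupp.erase_add, Finsupp.erase_single, add_zero,
          Finsupp.erase_of_notMem_support (Finsupp.notMem_support_iff.mpr hc)]
      have h2 : s k = e := by rw [h, Finsupp.add_apply, hc, Finsupp.single_eq_same, zero_add]
      rw [if_pos h, if_pos h1, h2, Polynomial.coeff_monomial_same]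
    · rw [if_neg h]
      split_ifs with h1
      · rw [Polynomial.coeff_monomial, if_neg fun h2 => h ?_]
        rw [← h1, ← h2, Finsupp.erase_add_single]
      · exact Polynomial.coeff_zero e

omit [Fintype σ] in
lemma push_phi_sh (k : σ) (z : ℂ) (F : MvPolynomial σ ℂ) :
    pushPhi k (sh (Pi.single k z) F) =
      map (Polynomial.compRingHom (Polynomial.X + Polynomial.C z)) (pushPhi k F) := by
  induction F using MvPolynomial.induction_on with
  | C a =>
    rw [algHom_C, algebraMap_eq, algHom_C, MvPolynomial.algebraMap_apply, map_C]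
    simp
  | add p q hp hq => simp only [map_add, hp, hq]
  | mul_X p l hp =>
    have hX : pushPhi k (sh (Pi.single k z) (X l)) =
        map (Polynomial.compRingHom (Polynomial.X + Polynomial.C z)) (pushPhi k (X l)) := by
      by_cases h : l = k
      · subst h
        simp [sh, pushPhi]
      · simp [sh, pushPhi, h]
    simp only [map_mul, hp, hX]

lemma push_sum_le {x : ι → ℂ} (hx : Function.Injective x)
    {k : ι → ℕ} {ψ : Polynomial ℂ} (h0 : ψ ≠ 0)
    (h : ∀ i, (Polynomial.X - Polynomial.C (x i)) ^ k i ∣ ψ) : ∑ i, k i ≤ ψ.natDegree := by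
  have h1 : ∏ i, (Polynomial.X - Polynomial.C (x i)) ^ k i ∣ ψ :=
    Finset.prod_dvd_of_coprime
      (fun i _ j _ hij => ((Polynomial.pairwise_coprime_X_sub_C hx) hij).pow) fun i _ => h i
  have h2 := Polynomial.natDegree_le_of_dvd h1 h0
  rw [Polynomial.natDegree_prod_of_monic _ _ fun i _ => (Polynomial.monic_X_sub_C _).pow _] at h2
  simpa only [Polynomial.natDegree_pow, Polynomial.natDegree_X_sub_C, mul_one] using h2

/-- Points on the axis of the variable `k`. -/
theorem axis_emp (k : σ) {z : ι → ℂ} (hz : Function.Injective z) {S : Set (σ →₀ ℕ)} {m : ι → ℕ}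
    (hS : ∀ s ∈ S, s k < ∑ l, (m l - (s.erase k).degree)) :
    Emp S m (fun l => Pi.single k (z l)) := by
  intro F hF hv
  by_contra hne
  obtain ⟨s, hs⟩ := ne_zero_iff.mp hne
  have hc : s.erase k k = 0 := Finsupp.erase_same
  have h0 : coeff (s.erase k) (pushPhi k F) ≠ 0 := fun h => hs (by
    have := push_phi_coeff k hc (s k) F
    rw [h, Polynomial.coeff_zero, Finsupp.erase_add_single] at this
    exact this.symm)
  have h1 := push_sum_le hz (k := fun l => m l - (s.erase k).degree) h0 fun l => by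
    rw [Polynomial.X_sub_C_pow_dvd_iff, Polynomial.X_pow_dvd_iff]
    intro e he
    have h2 := van_iff.mp (hv l) (s.erase k + Finsupp.single k e) (by
      rw [map_add, Finsupp.degree_single]
      omega)
    rw [← push_phi_coeff k hc, push_phi_sh, coeff_map] at h2
    exact h2
  have h2 : coeff (s.erase k + Finsupp.single k (coeff (s.erase k) (pushPhi k F)).natDegree) F
      ≠ 0 := by
    rw [← push_phi_coeff k hc]
    exact Polynomial.leadingCoeff_ne_zero.mpr h0
  have h3 := hS _ ((mem_restrictSupport_iff _).mp hF (mem_support_iff.mpr h2))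
  rw [Finsupp.erase_add, Finsupp.erase_single, add_zero, Finsupp.erase_idem, Finsupp.add_apply,
    hc, Finsupp.single_eq_same, zero_add] at h3
  omega

lemma exists_code (m : ι → ℕ) : ∃ φ : ℕ → ι → ℕ → ℕ,
    (∀ t l a, a < m l - t → φ t l a < ∑ l, (m l - t)) ∧
    ∀ t l a l' a', a < m l - t → a' < m l' - t → φ t l a = φ t l' a' → l = l' ∧ a = a' := by
  let e := fun t => Fintype.equivFin (Σ l : ι, Fin (m l - t))
  refine ⟨fun t l a => if h : a < m l - t then e t ⟨l, a, h⟩ else 0, fun t l a h => ?_,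
    fun t l a l' a' h h' h1 => ?_⟩
  · have := (e t ⟨l, a, h⟩).2
    simp only [Fintype.card_sigma, Fintype.card_fin] at this
    simpa only [dif_pos h] using this
  · simp only [dif_pos h, dif_pos h'] at h1
    have h2 := (e t).injective (Fin.ext h1)
    obtain rfl : l = l' := congrArg Sigma.fst h2
    exact ⟨rfl, congrArg (fun x : Σ l : ι, Fin (m l - t) => x.2.1) h2⟩

theorem axis_reg (k : σ) {z : ι → ℂ} (hz : Function.Injective z) {S : Set (σ →₀ ℕ)} {m : ι → ℕ}
    (hS : ∀ s : σ →₀ ℕ, s k < ∑ l, (m l - (s.erase k).degree) → s ∈ S) :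
    Reg S m (fun l => Pi.single k (z l)) := by
  obtain ⟨φ, φ1, φ2⟩ := exists_code m
  let ex : Cond σ m → σ →₀ ℕ := fun x =>
    x.2.1.update k (φ (x.2.1.erase k).degree x.1 (x.2.1 k))
  have hk : ∀ x, ex x k = φ (x.2.1.erase k).degree x.1 (x.2.1 k) := fun x => by
    simp only [ex, Finsupp.coe_update, Function.update_self]
  have he : ∀ x, (ex x).erase k = x.2.1.erase k := fun x => Finsupp.erase_update_eq_erase _ _ _
  have hb : ∀ x : Cond σ m, x.2.1 k < m x.1 - (x.2.1.erase k).degree := fun x => by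
    have h1 : x.2.1.degree < m x.1 := mem_low.mp x.2.2
    have h2 := congrArg Finsupp.degree (Finsupp.erase_add_single k x.2.1)
    rw [map_add, Finsupp.degree_single] at h2
    omega
  have hT : ∀ x, ex x k < ∑ l, (m l - ((ex x).erase k).degree) := fun x => by
    rw [hk, he]
    exact φ1 _ _ _ (hb x)
  have hinj : Function.Injective ex := by
    rintro ⟨l, α⟩ ⟨l', α'⟩ h
    have h1 := hk ⟨l, α⟩
    rw [h, hk] at h1
    have h2 := he ⟨l, α⟩
    rw [h, he] at h2
    have h3 := hb ⟨l, α⟩
    have h4 := hb ⟨l', α'⟩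
    simp only at h1 h2 h3 h4
    rw [h2] at h1 h4
    obtain ⟨rfl, h5⟩ := φ2 _ _ _ _ _ h4 h3 h1
    have h6 : α = α' := Subtype.ext (by
      rw [← Finsupp.erase_add_single k α.1, ← h2, ← h5, Finsupp.erase_add_single])
    rw [h6]
  refine reg_of_family (fun x => monomial (ex x) 1)
    (fun x => (monomial_mem_restrictSupport _).mpr (Or.inl (hS _ (hT x)))) fun c hc => ?_
  have h1 := axis_emp k hz (S := Set.range ex) (m := m) (by
    rintro _ ⟨x, rfl⟩
    exact hT x) _ (Submodule.sum_mem _ fun x _ => Submodule.smul_mem _ (c x)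
      ((monomial_mem_restrictSupport _).mpr (Or.inl ⟨x, rfl⟩))) hc
  funext x
  have h2 := congrArg (coeff (ex x)) h1
  rw [coeff_sum, sum_eq_single x, coeff_smul, coeff_monomial, if_pos rfl, smul_eq_mul,
    mul_one] at h2
  · exact h2
  · intro y _ hy
    rw [coeff_smul, coeff_monomial, if_neg fun h => hy (hinj h), smul_zero]
  · exact fun h => absurd (mem_univ x) h

end Pool.Agent.Lib.MP_efa40c_ag.HN
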