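import Pool.Agent.Lib.MP_efa40c_ag.HN.Lead

/-!
Functions on a Tate curve with poles at one point, and their leading terms.
-/

set_option autoImplicit false

namespace Pool.Agent.Lib.MP_efa40c_ag.HN

open Finset LaurentPolynomial Pool.Agent.Lib.MP_6e81d8_ag.H87

/-- The exponents of the reduced monomials with a pole of order at most `N`. -/
def I (N : ℕ) : Finset (ℕ × ℕ) :=
  (range (N + 1) ×ˢ range 3).filter fun x => 3 * x.1 + 2 * x.2 ≤ N

lemma mem_I {N : ℕ} {x : ℕ × ℕ} : x ∈ I N ↔ x.2 ≤ 2 ∧ 3 * x.1 + 2 * x.2 ≤ N := by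
  simp only [I, mem_filter, mem_product, mem_range]
  omega

/-- The reduced form with coefficients `c`, evaluated at `u` and `v`. -/
noncomputable def red (u v : B) (c : ℕ × ℕ → K) (N : ℕ) : B :=
  ∑ x ∈ I N, io (c x) * u ^ x.1 * v ^ x.2

/-- The order in the parameter of the term number `k` of a theta function. -/
def thetaW (b g : ℤ) (N : ℕ) (r k : ℤ) : ℤ := 2 * b * k * r + b * N * (k * (k - 1)) - g * (r + N * k)

open Classical in
/-- `f` is the theta function of degree `N` with exponents congruent to `r`. -/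
def ThetaIs (b g : ℤ) (N : ℕ) (r : ℤ) (f : B) : Prop :=
  ∀ p, A f p = if ∃ k, p.2 = r + N * k ∧ p.1 = thetaW b g N r k then 1 else 0

lemma theta_bdd {b : ℤ} (hb : 0 < b) (g : ℤ) {N : ℕ} (hN : 1 ≤ N) (r : ℤ) :
    ∃ c : ℤ, ∀ k, k ≤ thetaW b g N r k + c ∧ -k ≤ thetaW b g N r k + c := by
  refine ⟨(2 * b * r - g * N - 2) ^ 2 + (2 * b * r - g * N) ^ 2 + g * r, fun k => ?_⟩
  have h1 : 0 ≤ k * (k - 1) := by
    rcases le_or_gt k 0 with h | h
    · nlinarith
    · nlinarith
  have h2 : (1 : ℤ) ≤ b * N := one_le_mul_of_one_le_of_one_le hb (by exact_mod_cast hN)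
  have h3 : k * (k - 1) ≤ b * N * (k * (k - 1)) := le_mul_of_one_le_left h1 h2
  have h4 : thetaW b g N r k = b * N * (k * (k - 1)) + k * (2 * b * r - g * N) - g * r := by
    unfold thetaW
    ring
  rw [h4]
  generalize 2 * b * r - g * N = β
  constructor
  · nlinarith [sq_nonneg (2 * k + (β - 2)), sq_nonneg (β - 2), sq_nonneg β]
  · nlinarith [sq_nonneg (2 * k + β), sq_nonneg (β - 2), sq_nonneg β]

lemma theta_exists {b : ℤ} (hb : 0 < b) (g : ℤ) {N : ℕ} (hN : 1 ≤ N) (r : ℤ) :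
    ∃ f, ThetaIs b g N r f := by
  classical
  obtain ⟨c, hc⟩ := theta_bdd hb g hN r
  have hf : ∀ s : ℤ, (Function.support fun n : ℤ =>
      if ∃ k, n = r + N * k ∧ s = thetaW b g N r k then (1 : ℂ) else 0).Finite := by
    intro s
    refine ((Set.finite_Icc (-(s + c)) (s + c)).image fun k => r + N * k).subset fun n hn => ?_
    by_contra h
    apply hn
    refine if_neg ?_
    rintro ⟨k, h1, h2⟩
    have := hc k
    exact h ⟨k, ⟨by omega, by omega⟩, h1.symm⟩
  refine ⟨HahnSeries.ofSuppBddBelow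
    (fun s => (AddMonoidAlgebra.ofCoeff (Finsupp.ofSupportFinite _ (hf s)) : L))
    ⟨-c, fun s hs => ?_⟩, fun p => ?_⟩
  · by_contra h
    apply hs
    ext n
    refine if_neg ?_
    rintro ⟨k, -, h2⟩
    have := hc k
    omega
  · rfl

lemma ThetaIs.rel {b g r : ℤ} {N : ℕ} {f : B} (h : ThetaIs b g N r f) : Rel (2 * b) g N f f := by
  classical
  intro p
  rw [h, h]
  refine if_congr ?_ rfl rfl
  simp only [Sh, Equiv.coe_fn_mk]
  constructor
  · rintro ⟨k, h1, h2⟩
    have h3 : p.2 = r + N * (k - 1) := by linarith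
    refine ⟨k - 1, h3, ?_⟩
    rw [h3] at h2
    unfold thetaW at h2 ⊢
    linear_combination h2
  · rintro ⟨k, h1, h2⟩
    refine ⟨k + 1, by linarith, ?_⟩
    rw [h1, h2]
    unfold thetaW
    ring

lemma ThetaIs.move {b g r : ℤ} {N : ℕ} {f f' : B} (h : ThetaIs b g N r f)
    (h' : ThetaIs b 0 N r f') : Rel g 0 0 f f' := by
  classical
  intro p
  rw [h, h']
  refine if_congr (exists_congr fun k => ?_) rfl rfl
  simp only [Sh, Equiv.coe_fn_mk, Nat.cast_zero, add_zero, mul_zero, sub_zero]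
  refine and_congr_right fun h1 => ?_
  rw [h1]
  unfold thetaW
  constructor <;> intro h2 <;> linear_combination h2

lemma ThetaIs.lead {b g r : ℤ} {N : ℕ} {f : B} (h : ThetaIs b g N r f) (hb : 0 < b)
    (h1 : N * g < 2 * b * r) (h2 : 2 * b * r < N * (g + 2 * b)) : Lead (-(g * r)) f (T r) := by
  classical
  have h0 : thetaW b g N r 0 = -(g * r) := by
    unfold thetaW
    ring
  have h3 : ∀ k, k ≠ 0 → -(g * r) < thetaW b g N r k := by
    intro k hk
    have h4 : thetaW b g N r k = k * (2 * b * r - N * g + b * N * (k - 1)) - g * r := by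
      unfold thetaW
      ring
    have h5 : 0 ≤ b * N := by positivity
    rw [h4]
    rcases lt_or_gt_of_ne hk with h6 | h6
    · have : 2 * b * r - N * g + b * N * (k - 1) < 0 := by nlinarith
      nlinarith
    · have : 0 < 2 * b * r - N * g + b * N * (k - 1) := by nlinarith
      nlinarith
  constructor
  · intro s hs
    ext n
    have := h (s, n)
    rw [if_neg] at this
    · exact this
    rintro ⟨k, -, h5⟩
    by_cases hk : k = 0
    · rw [hk, h0] at h5
      exact hs.ne h5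
    · exact (hs.trans (h3 k hk)).ne h5
  · ext n
    rw [T_apply]
    refine (h (-(g * r), n)).trans (if_congr ⟨?_, ?_⟩ rfl rfl)
    · rintro ⟨k, h4, h5⟩
      by_cases hk : k = 0
      · rw [hk, mul_zero, add_zero] at h4
        exact h4.symm
      · exact absurd h5 (h3 k hk).ne
    · intro h4
      exact ⟨0, by simp [h4], h0.symm⟩

lemma ThetaIs.col {b g r : ℤ} {N : ℕ} {f : B} (h : ThetaIs b g N r f) {n0 n : ℤ}
    (hr : r ∈ Ico n0 (n0 + N)) (hn : n ∈ Ico n0 (n0 + N)) :
    col n f = if n = r then HahnSeries.single (-(g * r)) 1 else 0 := by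
  have h0 : thetaW b g N r 0 = -(g * r) := by
    unfold thetaW
    ring
  have h1 : ∀ k : ℤ, n = r + N * k → k = 0 := by
    intro k hk
    rw [mem_Ico] at hr hn
    by_contra h2
    have h3 : (0 : ℤ) ≤ N := by positivity
    rcases lt_or_gt_of_ne h2 with h4 | h4 <;> nlinarith
  ext s
  rw [col_coeff, h]
  by_cases h2 : n = r
  · rw [if_pos h2, HahnSeries.coeff_single]
    by_cases h3 : s = -(g * r)
    · rw [if_pos h3, if_pos ⟨0, by simp [h2], h3.trans h0.symm⟩]
    · rw [if_neg h3, if_neg]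
      rintro ⟨k, h4, h5⟩
      rw [h1 k h4, h0] at h5
      exact h3 h5
  · rw [if_neg h2, if_neg, HahnSeries.coeff_zero]
    rintro ⟨k, h4, -⟩
    rw [h1 k h4, mul_zero, add_zero] at h4
    exact h2 h4

lemma theta_pow {b g : ℤ} {e : ℕ} {f f' : B} (h : Rel b g e f f') (n : ℕ) :
    Rel b g (e * n) (f ^ n) (f' ^ n) := by
  induction n with
  | zero => simpa using rel_io (b := b) (g := g) 1
  | succ n ih => rw [pow_succ, pow_succ]; exact ih.mul h

lemma theta_ext {b g n0 : ℤ} {N : ℕ} (hN : 1 ≤ N) {f h : B} (h1 : Rel b g N f f)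
    (h2 : Rel b g N h h) (h3 : ∀ n ∈ Ico n0 (n0 + N), col n f = col n h) : f = h := by
  have h4 : ∀ n ∈ Ico n0 (n0 + N), ∀ k : ℤ, ∀ s, A f (s, n + N * k) = A h (s, n + N * k) := by
    intro n hn k
    induction k using Int.induction_on with
    | zero =>
      intro s
      rw [mul_zero, add_zero, ← col_coeff, ← col_coeff, h3 n hn]
    | succ k ih =>
      intro s
      have e : (s, n + N * (k + 1 : ℤ)) =
          Sh b g N (s - b * (n + N * k) + N * g, n + N * k) := by
        ext <;> simp only [Sh, Equiv.coe_fn_mk] <;> ring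
      rw [e, h1, h2, ih]
    | pred k ih =>
      intro s
      have e : Sh b g N (s, n + N * (-k - 1 : ℤ)) =
          (s + b * (n + N * (-k - 1 : ℤ)) - N * g, n + N * (-k : ℤ)) := by
        ext
        · rfl
        · simp only [Sh, Equiv.coe_fn_mk]
          ring
      rw [← h1, ← h2, e, ih]
  refine A_ext fun p => ?_
  have h5 : (0 : ℤ) < N := by exact_mod_cast hN
  have h6 := Int.emod_nonneg (p.2 - n0) h5.ne'
  have h7 := Int.emod_lt_of_pos (p.2 - n0) h5
  have h8 := Int.emod_add_mul_ediv (p.2 - n0) N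
  have := h4 (n0 + (p.2 - n0) % N) (mem_Ico.2 ⟨by omega, by omega⟩) ((p.2 - n0) / N) p.1
  rwa [show n0 + (p.2 - n0) % N + N * ((p.2 - n0) / N) = p.2 by omega] at this

/-- Evaluation at `z = -1`. -/
noncomputable def thetaEv : L →+* ℂ := LaurentPolynomial.eval₂ (RingHom.id ℂ) (-1)

lemma thetaEv_one : thetaEv (T 1) = -1 := by
  simp [thetaEv]

lemma thetaEv_invert (p : L) : thetaEv (invert p) = thetaEv p := by
  induction p using LaurentPolynomial.induction_on' with
  | add p q hp hq => rw [map_add, map_add, map_add, hp, hq]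
  | C_mul_T n a =>
    rw [map_mul, invert_C, invert_T, map_mul, map_mul]
    congr 1
    rw [thetaEv, eval₂_T, eval₂_T, zpow_neg, ← inv_zpow, inv_neg, inv_one]

lemma theta_kill {b : ℤ} {t : B} (h : ThetaIs b 0 1 0 t) : hm thetaEv t = 0 := by
  classical
  ext s
  have h1 : t.coeff s = invert (t.coeff s) * T 1 := by
    ext n
    have h2 : (invert (t.coeff s) * T 1).coeff n = (t.coeff s).coeff (1 - n) := by
      rw [T, AddMonoidAlgebra.coeff_mul_single_apply, mul_one, invert_apply]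
      congr 1
      ring
    rw [h2]
    refine (h (s, n)).trans ((if_congr ?_ rfl rfl).trans (h (s, 1 - n)).symm)
    constructor
    · rintro ⟨k, h3, h4⟩
      refine ⟨1 - k, by simp only at h3 ⊢; rw [h3]; push_cast; ring, ?_⟩
      simp only at h4 ⊢
      rw [h4]
      unfold thetaW
      ring
    · rintro ⟨k, h3, h4⟩
      refine ⟨1 - k, by simp only at h3 ⊢; push_cast at h3 ⊢; linarith, ?_⟩
      simp only at h4 ⊢
      rw [h4]
      unfold thetaW
      ring
  have h2 := congrArg thetaEv h1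
  rw [map_mul, thetaEv_invert, thetaEv_one] at h2
  rw [hm_coeff, HahnSeries.coeff_zero]
  linear_combination h2 / 2

lemma theta_ev_io (c : K) : hm thetaEv (io c) = c := by
  ext s
  simp [io, thetaEv]

lemma theta_ev_ne {x : B} (h : Lead 0 x (T 1)) : hm thetaEv x ≠ 0 := by
  intro h0
  have := (h.map thetaEv).2
  rw [h0, thetaEv_one] at this
  simp at this

attribute [local irreducible] io

/-- The homogeneous monomials of degree `N`. -/
noncomputable def thetaM (t x y : B) (N : ℕ) (z : ℕ × ℕ) : B :=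
  y ^ z.1 * x ^ z.2 * t ^ (N - (3 * z.1 + 2 * z.2))

lemma theta_indep0 {t x y : B} (ht : t ≠ 0) (h0 : hm thetaEv t = 0) (hx : hm thetaEv x ≠ 0)
    (hy : hm thetaEv y ≠ 0) (c : ℕ × ℕ → K) (N : ℕ)
    (h : ∑ z ∈ I N, io (c z) * thetaM t x y N z = 0) : ∀ z ∈ I N, c z = 0 := by
  have top : ∀ N, ∑ z ∈ I N, io (c z) * thetaM t x y N z = 0 →
      ∀ z ∈ I N, 3 * z.1 + 2 * z.2 = N → c z = 0 := by
    intro N h z hz e
    have h1 := congrArg (hm thetaEv) h
    rw [map_sum, map_zero, sum_eq_single z] at h1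
    · rw [thetaM, e, Nat.sub_self, pow_zero, mul_one, map_mul, map_mul, map_pow, map_pow,
        theta_ev_io] at h1
      exact (mul_eq_zero.1 h1).resolve_right (mul_ne_zero (pow_ne_zero _ hy) (pow_ne_zero _ hx))
    · intro w hw hne
      have h2 := mem_I.1 hz
      have h3 := mem_I.1 hw
      have h4 : N - (3 * w.1 + 2 * w.2) ≠ 0 := fun h5 => hne (Prod.ext (by omega) (by omega))
      rw [thetaM, map_mul, map_mul, map_pow _ t, h0, zero_pow h4, mul_zero, mul_zero]
    · exact fun h2 => absurd hz h2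
  induction N with
  | zero => exact fun z hz => top 0 h z hz (by have := mem_I.1 hz; omega)
  | succ N ih =>
    have h1 : ∑ z ∈ I (N + 1), io (c z) * thetaM t x y (N + 1) z =
        t * ∑ z ∈ I N, io (c z) * thetaM t x y N z := by
      rw [mul_sum, ← sum_subset (s₁ := I N)]
      · refine sum_congr rfl fun z hz => ?_
        have := mem_I.1 hz
        rw [thetaM, thetaM, show N + 1 - (3 * z.1 + 2 * z.2) = N - (3 * z.1 + 2 * z.2) + 1 by omega]
        ring
      · intro z hz
        rw [mem_I] at hz ⊢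
        omega
      · intro z hz hz'
        rw [top _ h z hz (by rw [mem_I] at hz hz'; omega), map_zero, zero_mul]
    intro z hz
    by_cases e : 3 * z.1 + 2 * z.2 = N + 1
    · exact top _ h z hz e
    · exact ih ((mul_eq_zero.1 (h1.symm.trans h)).resolve_left ht) z
        (by rw [mem_I] at hz ⊢; omega)

lemma theta_indep {b g : ℤ} (hb : 0 < b) {t x y : B} (ht : ThetaIs b g 1 0 t)
    (hx : ThetaIs b g 2 1 x) (hy : ThetaIs b g 3 1 y) (c : ℕ × ℕ → K) (N : ℕ)
    (h : ∑ z ∈ I N, io (c z) * thetaM t x y N z = 0) : ∀ z ∈ I N, c z = 0 := by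
  obtain ⟨t', ht'⟩ := theta_exists hb 0 (N := 1) le_rfl 0
  obtain ⟨x', hx'⟩ := theta_exists hb 0 (N := 2) (by norm_num) 1
  obtain ⟨y', hy'⟩ := theta_exists hb 0 (N := 3) (by norm_num) 1
  refine theta_indep0 (t := t') (x := x') (y := y') (fun h0 => ?_) (theta_kill ht')
    (theta_ev_ne (by simpa using hx'.lead hb (by simpa using hb) (by push_cast; omega)))
    (theta_ev_ne (by simpa using hy'.lead hb (by simpa using hb) (by push_cast; omega))) c N
    ((rel_sum (b := g) (g := 0) (e := 0) _ fun z _ => ?_).eq_zero h)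
  · have := ht' (0, 0)
    rw [h0, A_zero, if_pos ⟨0, by simp, by simp [thetaW]⟩] at this
    exact zero_ne_one this
  · simpa [thetaM] using (rel_io (c z)).mul (((theta_pow (hy.move hy') z.1).mul
      (theta_pow (hx.move hx') z.2)).mul (theta_pow (ht.move ht') (N - (3 * z.1 + 2 * z.2))))

lemma theta_card {N : ℕ} (hN : 1 ≤ N) : N ≤ (I N).card := by
  have h1 : ((range (N + 1)).erase 1).card = N := by
    rw [card_erase_of_mem (mem_range.2 (by omega)), card_range]
    rfl
  rw [← h1]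
  conv_rhs => rw [h1]
  refine card_le_card_of_surjOn (fun z => 3 * z.1 + 2 * z.2) fun m hm => ?_
  rw [mem_coe, mem_erase, mem_range] at hm
  exact ⟨((m - 2 * (2 * m % 3)) / 3, 2 * m % 3), mem_coe.2 (mem_I.2 (by simp only; omega)),
    by simp only; omega⟩

lemma theta_col_sum {ι : Type} (n : ℤ) (s : Finset ι) (c : ι → K) (f : ι → B) :
    col n (∑ i ∈ s, io (c i) * f i) = ∑ i ∈ s, c i * col n (f i) := by
  classical
  induction s using Finset.induction_on with
  | empty =>
    ext s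
    simp [col_coeff]
  | insert a s ha ih => rw [sum_insert ha, sum_insert ha, col_add, col_io_mul, ih]

lemma theta_span {b g : ℤ} {N : ℕ} (hN : 1 ≤ N) (m : ℕ × ℕ → B)
    (h1 : ∀ z ∈ I N, Rel b g N (m z) (m z))
    (h2 : ∀ c : ℕ × ℕ → K, ∑ z ∈ I N, io (c z) * m z = 0 → ∀ z ∈ I N, c z = 0)
    {f : B} (hf : Rel b g N f f) : ∃ c : ℕ × ℕ → K, f = ∑ z ∈ I N, io (c z) * m z := by
  classical
  have hr : ∀ c : ℕ × ℕ → K, Rel b g N (∑ z ∈ I N, io (c z) * m z) (∑ z ∈ I N, io (c z) * m z) :=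
    fun c => rel_sum _ fun z hz => by simpa using (rel_io (c z)).mul (h1 z hz)
  let M : Matrix (Ico (0 : ℤ) (0 + N)) (I N) K := Matrix.of fun n z => col n (m z)
  let ex : (I N → K) → ℕ × ℕ → K := fun c z => if h : z ∈ I N then c ⟨z, h⟩ else 0
  have hM : ∀ c n, M.mulVecLin c n = col n (∑ z ∈ I N, io (ex c z) * m z) := by
    intro c n
    rw [theta_col_sum, ← sum_coe_sort (I N)]
    refine sum_congr rfl fun z _ => ?_
    simp only [ex, dif_pos z.2, M, Matrix.of_apply]
    rw [mul_comm]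
  have hinj : Function.Injective M.mulVecLin := by
    refine (injective_iff_map_eq_zero _).2 fun c hc => funext fun z => ?_
    have h3 := h2 (ex c) (theta_ext (n0 := 0) hN (hr _) (fun p => by simp) fun n hn => by
      rw [← hM c ⟨n, hn⟩, hc]
      ext s
      simp [col_coeff]) z z.2
    simp only [ex, dif_pos z.2] at h3
    exact h3
  have h4 := LinearMap.finrank_le_finrank_of_injective hinj
  have h5 : Module.finrank K (Ico (0 : ℤ) (0 + N) → K) = N := by simp
  have h6 : Module.finrank K (I N → K) = (I N).card := by simp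
  obtain ⟨c, hc⟩ := (LinearMap.injective_iff_surjective_of_finrank_eq_finrank
    (le_antisymm h4 (by rw [h5, h6]; exact theta_card hN))).1 hinj fun n => col n f
  refine ⟨ex c, theta_ext (n0 := 0) hN hf (hr _) fun n hn => ?_⟩
  rw [← hM c ⟨n, hn⟩, hc]

lemma theta_red {t x y i : B} (hi : t * i = 1) (c : ℕ × ℕ → K) (N : ℕ) :
    red (y * i ^ 3) (x * i ^ 2) c N = (∑ z ∈ I N, io (c z) * thetaM t x y N z) * i ^ N := by
  rw [red, sum_mul]
  refine sum_congr rfl fun z hz => ?_
  obtain ⟨d, hd⟩ := Nat.exists_eq_add_of_le (mem_I.1 hz).2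
  have h1 : t ^ d * i ^ d = 1 := by rw [← mul_pow, hi, one_pow]
  rw [thetaM, hd, Nat.add_sub_cancel_left]
  linear_combination (-io (c z) * y ^ z.1 * x ^ z.2 * i ^ (3 * z.1 + 2 * z.2)) * h1

lemma theta_dual {b g n0 : ℤ} {N : ℕ} (hN : 1 ≤ N) (m : ℕ × ℕ → B)
    (h1 : ∀ z ∈ I N, Rel (2 * b) g N (m z) (m z))
    (h2 : ∀ c : ℕ × ℕ → K, ∑ z ∈ I N, io (c z) * m z = 0 → ∀ z ∈ I N, c z = 0)
    {f : ℤ → B} (hf : ∀ n, ThetaIs b g N n (f n)) {G : ℤ → ℕ × ℕ → K}
    (hG : ∀ n, f n = ∑ z ∈ I N, io (G n z) * m z) {z : ℕ × ℕ} (hz : z ∈ I N) :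
    ∃ c : ℤ → K, ∀ w ∈ I N, ∑ n ∈ Ico n0 (n0 + N), c n * G n w = if w = z then 1 else 0 := by
  obtain ⟨c, hc⟩ : ∃ c : ℤ → K, ∀ n, c n = col n (m z) * HahnSeries.single (g * n) 1 :=
    ⟨_, fun _ => rfl⟩
  have h3 : ∑ n ∈ Ico n0 (n0 + N), io (c n) * f n = m z := by
    refine theta_ext (b := 2 * b) (g := g) (n0 := n0) hN (rel_sum _ fun n _ => ?_) (h1 z hz)
      fun n hn => ?_
    · have := (rel_io (b := 2 * b) (g := g) (c n)).mul (hf n).rel
      rwa [Nat.zero_add] at this
    · rw [theta_col_sum, sum_eq_single n, (hf n).col hn hn, if_pos rfl, hc, mul_assoc,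
        HahnSeries.single_mul_single, add_neg_cancel, mul_one, HahnSeries.single_zero_one,
        mul_one]
      · intro n' hn' hne
        rw [(hf n').col hn' hn, if_neg hne.symm, mul_zero]
      · exact fun h => absurd hn h
  have h4 : ∑ w ∈ I N, io (if w = z then 1 else 0) * m w = m z := by
    rw [sum_eq_single z, if_pos rfl, map_one, one_mul]
    · intro w _ hne
      rw [if_neg hne, map_zero, zero_mul]
    · exact fun h => absurd hz h
  have h5 : ∑ w ∈ I N, io (∑ n ∈ Ico n0 (n0 + N), c n * G n w) * m w = m z := by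
    simp only [map_sum, sum_mul]
    rw [sum_comm, ← h3]
    refine sum_congr rfl fun n _ => ?_
    rw [hG n, mul_sum]
    exact sum_congr rfl fun w _ => by rw [map_mul, mul_assoc]
  refine ⟨c, fun w hw => sub_eq_zero.1 (h2 (fun w => ∑ n ∈ Ico n0 (n0 + N), c n * G n w -
    if w = z then 1 else 0) ?_ w hw)⟩
  simp only [map_sub, sub_mul, sum_sub_distrib]
  rw [h4, h5, sub_self]

theorem tate_data {b g : ℤ} (hb : 0 < b) (h1 : -(2 * b) < g) (h2 : g < 0) :
    ∃ (u v : B) (γ : ℕ × ℕ → K), v ^ 3 = red u v γ 6 ∧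
      3 * v ^ 2 - ∑ x ∈ I 6, io (γ x) * u ^ x.1 * (x.2 * v ^ (x.2 - 1)) ≠ 0 ∧
      ∀ (N : ℕ) (n0 : ℤ), 1 ≤ N → 2 * b * (n0 - 1) < N * g → N * g < 2 * b * n0 →
        ∃ G : ℤ → ℕ × ℕ → K,
          (∀ n ∈ Ico n0 (n0 + N), ∃ δ, Lead δ (red u v (G n) N) (T n)) ∧
          ∀ x ∈ I N, ∃ c : ℤ → K, ∀ y ∈ I N,
            ∑ n ∈ Ico n0 (n0 + N), c n * G n y = if y = x then 1 else 0 := by
  classical
  obtain ⟨t, ht⟩ := theta_exists hb g (N := 1) le_rfl 0
  obtain ⟨x, hx⟩ := theta_exists hb g (N := 2) (by norm_num) 1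
  obtain ⟨y, hy⟩ := theta_exists hb g (N := 3) (by norm_num) 1
  have lt : Lead 0 t 1 := by simpa using ht.lead hb (by simpa using h2) (by push_cast; omega)
  obtain ⟨i, hi⟩ := (lt.isUnit isUnit_one).exists_right_inv
  have li := lt.inv hi
  have hi0 : i ≠ 0 := right_ne_zero_of_mul_eq_one hi
  have hm : ∀ N, ∀ z ∈ I N, Rel (2 * b) g N (thetaM t x y N z) (thetaM t x y N z) := by
    intro N z hz
    have := ((theta_pow hy.rel z.1).mul (theta_pow hx.rel z.2)).mul
      (theta_pow ht.rel (N - (3 * z.1 + 2 * z.2)))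
    rwa [show 3 * z.1 + 2 * z.2 + 1 * (N - (3 * z.1 + 2 * z.2)) = N by
      have := (mem_I.1 hz).2; omega] at this
  have hind := theta_indep hb ht hx hy
  have hsp : ∀ N, 1 ≤ N → ∀ f, Rel (2 * b) g N f f →
      ∃ c : ℕ × ℕ → K, f = ∑ z ∈ I N, io (c z) * thetaM t x y N z :=
    fun N hN f hf => theta_span hN _ (hm N) (fun c => hind c N) hf
  obtain ⟨γ, hγ⟩ := hsp 6 (by norm_num) _ (theta_pow hx.rel 3)
  refine ⟨y * i ^ 3, x * i ^ 2, γ, ?_, fun h0 => ?_, fun N n0 hN a1 a2 => ?_⟩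
  · rw [theta_red hi, ← hγ]
    ring
  · have e6 : I 6 = {(0, 0), (0, 1), (0, 2), (1, 0), (1, 1), (2, 0)} := by decide
    have e4 : I 4 = {(0, 0), (0, 1), (0, 2), (1, 0)} := by decide
    let c : ℕ × ℕ → K := fun z => if z = (0, 0) then -γ (0, 1) else if z = (0, 1) then
      -(2 * γ (0, 2)) else if z = (0, 2) then 3 else -γ (1, 1)
    have h3 : red (y * i ^ 3) (x * i ^ 2) c 4 = 0 := by
      rw [← h0, red, e4, e6]
      simp [c, map_ofNat]
      ring
    rw [theta_red hi] at h3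
    have h4 := hind c 4 ((mul_eq_zero.1 h3).resolve_right (pow_ne_zero _ hi0)) (0, 2) (by decide)
    have h5 : (HahnSeries.C (3 : ℂ) : K) = HahnSeries.C 0 := by
      rw [map_zero, map_ofNat]
      simpa [c] using h4
    exact three_ne_zero (HahnSeries.C_injective h5)
  · choose f hf using theta_exists hb g hN
    choose G hG using fun n => hsp N hN _ (hf n).rel
    refine ⟨G, fun n hn => ?_, fun z hz => ?_⟩
    · rw [mem_Ico] at hn
      have := ((hf n).lead hb (by nlinarith) (by nlinarith)).mul (li.pow N)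
      rw [one_pow, mul_one] at this
      exact ⟨_, by rw [theta_red hi, ← hG]; exact this⟩
    · exact theta_dual hN _ (hm N) (fun c => hind c N) hf hG hz

end Pool.Agent.Lib.MP_efa40c_ag.HN
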